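import Pool.Agent.Q62.UM.Stm3

/-!
Project UM (helper62), job A1: locally Lipschitz families.
-/

set_option autoImplicit false

namespace Pool.Agent.Q65.UM

open Real Set MeasureTheory Topology Filter
open scoped ENNReal
open Pool.Agent.H709U Pool.Agent.Q62.HU Pool.Agent.Q62.UM
open Pool.Agent.H709Q (Maj majRules)

theorem t_A1 : Q62.UM.S_A1 := by
  intro ι Ang F f K a ℓ η hK hℓ hη h1 h2 h3
  obtain ⟨δ, hδ, h1⟩ := h1
  obtain ⟨h, hh, hhδ, hhη⟩ : ∃ h : ℝ, 0 < h ∧ h ≤ δ ∧ K * h ≤ η := by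
    refine ⟨min δ (η / (K + 1)), by positivity, min_le_left _ _, ?_⟩
    have h4 : min δ (η / (K + 1)) ≤ η / (K + 1) := min_le_right _ _
    rw [le_div_iff₀ (by positivity)] at h4
    have h5 : 0 < min δ (η / (K + 1)) := by positivity
    nlinarith
  obtain ⟨n, hn⟩ : ∃ n : ℕ, n = ⌊ℓ / h⌋₊ + 1 := ⟨_, rfl⟩
  have hn1 : ℓ < n * h := by
    have h4 := Nat.lt_floor_add_one (ℓ / h)
    rw [div_lt_iff₀ hh] at h4
    rw [hn]
    push_cast
    exact h4
  have hn2 : n * h ≤ ℓ + h := by
    have h4 := Nat.floor_le (show 0 ≤ ℓ / h by positivity)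
    rw [le_div_iff₀ hh] at h4
    rw [hn]
    push_cast
    linarith
  have hp : ∀ i ∈ Finset.range n, Maj (cnt Ang fun α => {C | C ∈ F α ∧
      f C ∈ Ico (a + i * h) (a + (i + 1) * h)}) (K * h) := by
    intro i _
    refine maj_lip (fun C => f C / h) (by positivity) ?_ ?_ ?_
    · rintro α hα β hβ C ⟨hC, hC1⟩ C' ⟨hC', hC1'⟩ hne
      obtain ⟨g1, g2⟩ := h1 α hα β hβ C hC C' hC' hne
      refine ⟨fun he => g1 ?_, ?_⟩
      · field_simp at he
        exact he
      · have e1 : K * h * |f C' / h - f C / h| = K * |f C' - f C| := by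
          rw [← sub_div, abs_div, abs_of_pos hh]
          field_simp
        rw [e1]
        refine g2 (lt_of_lt_of_le ?_ hhδ)
        rw [abs_lt]
        constructor
        · linarith [hC1.2, hC1'.1]
        · linarith [hC1.1, hC1'.2]
    · rintro α hα β hβ C ⟨hC, -⟩ ⟨hC', -⟩
      exact h2 α hα β hβ C hC hC'
    · rintro α hα β hβ C ⟨hC, hC1⟩ C' ⟨hC', hC1'⟩
      rw [← sub_div, abs_div, abs_of_pos hh, div_le_one hh, abs_le]
      constructor
      · linarith [hC1.2, hC1'.1]
      · linarith [hC1.1, hC1'.2]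
  have hs := H709U.maj_sum (Finset.range n) _ (K * h) (by positivity) hp
  refine H709U.maj_mono (fun α _ => ?_) ?_ hs
  · unfold cnt
    by_cases hα : α ∈ Ang
    · simp only [indicator_of_mem hα]
      refine H709U.encard_biUnion_le' _ _ _ ?_
      intro C hC
      have h4 := h3 α hα C hC
      have h5 : 0 ≤ (f C - a) / h := div_nonneg (by linarith [h4.1]) hh.le
      simp only [mem_iUnion, Finset.mem_range]
      refine ⟨⌊(f C - a) / h⌋₊, ?_, hC, ?_, ?_⟩
      · rw [Nat.floor_lt h5, div_lt_iff₀ hh]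
        linarith [h4.2]
      · have h6 := Nat.floor_le h5
        rw [le_div_iff₀ hh] at h6
        linarith
      · have h6 := Nat.lt_floor_add_one ((f C - a) / h)
        rw [div_lt_iff₀ hh] at h6
        linarith
    · rw [indicator_of_notMem hα]
      exact bot_le
  · rw [Finset.card_range]
    have h6 : (n : ℝ) * (K * h) = K * (n * h) := by ring
    rw [h6]
    nlinarith [mul_le_mul_of_nonneg_left hn2 hK]

end Pool.Agent.Q65.UM
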