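import Pool.Agent.Q65.UM.A1

/-!
Project UM (helper62), job A2: families on a piece.
-/

set_option autoImplicit false

namespace Pool.Agent.Q65.UM

open Real Set MeasureTheory Topology Filter
open scoped ENNReal
open Pool.Agent.H709U Pool.Agent.Q62.HU Pool.Agent.Q62.UM
open Pool.Agent.H709Q (Maj majRules)

/-- one class -/
theorem cls (a1 : Q62.UM.S_A1) {ι : Type} {Ang : Set ℝ} {F : ℝ → Set ι} (f : ι → ℝ) {E : Set ℝ}
    {g : ℝ → ℝ} {κ C₀ η A B : ℝ} (hE : E.OrdConnected) (hκ : 0 < κ) (hC₀ : 0 ≤ C₀) (hη : 0 < η)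
    (hg : ∀ u ∈ E, κ / 2 ≤ g u) (hb : ∀ α ∈ Ang, ∀ C ∈ F α, f C ∈ E ∧ f C ∈ Icc A B)
    (hfin : ∫⁻ u in E, ENNReal.ofReal (g u) ≠ ∞)
    (hu : ∀ α ∈ Ang, ∀ β ∈ Ang, ∀ C ∈ F α, C ∈ F β → α = β)
    (hpair : ∀ ε > 0, ∃ δ > 0, ∀ α ∈ Ang, ∀ β ∈ Ang, ∀ C ∈ F α, ∀ C' ∈ F β, C ≠ C' →
      f C ≠ f C' ∧ (f C < f C' → f C' - f C < δ → |β - α| ≤ 2 * (C₀ * κ + ε) * (f C' - f C))) :
    Maj (cnt Ang F) (4 * C₀ * (∫⁻ u in E, ENNReal.ofReal (g u)).toReal + η) := by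
  obtain ⟨V, hV⟩ : ∃ V : Set ℝ, V = {x | ∃ α ∈ Ang, ∃ C ∈ F α, f C = x} := ⟨_, rfl⟩
  have hI0 : 0 ≤ 4 * C₀ * (∫⁻ u in E, ENNReal.ofReal (g u)).toReal := by positivity
  rcases V.eq_empty_or_nonempty with h0 | h0
  · have hno : ∀ α ∈ Ang, ∀ C, C ∉ F α := by
      intro α hα C hC
      have h1 : f C ∈ V := by rw [hV]; exact ⟨α, hα, C, hC, rfl⟩
      rw [h0] at h1
      exact h1
    have h1 := a1 ι Ang F f 0 0 0 η le_rfl le_rfl hη ⟨1, one_pos, fun α hα β _ C hC => absurd hC (hno α hα C)⟩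
      hu (fun α hα C hC => absurd hC (hno α hα C))
    refine H709U.maj_mono (fun _ _ => le_rfl) ?_ h1
    linarith
  · have hVE : V ⊆ E ∩ Icc A B := by
      rw [hV]
      rintro _ ⟨α, hα, C, hC, rfl⟩
      exact hb α hα C hC
    have hbb : BddBelow V := ⟨A, fun x hx => (hVE hx).2.1⟩
    have hba : BddAbove V := ⟨B, fun x hx => (hVE hx).2.2⟩
    obtain ⟨a, ha⟩ : ∃ a, a = sInf V := ⟨_, rfl⟩
    obtain ⟨b, hbe⟩ : ∃ b, b = sSup V := ⟨_, rfl⟩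
    have hab : a ≤ b := by rw [ha, hbe]; exact csInf_le_csSup h0 hbb hba
    have hIoo : Ioo a b ⊆ E := by
      intro u hu'
      obtain ⟨v, hv, hvu⟩ := exists_lt_of_csInf_lt h0 (ha ▸ hu'.1)
      obtain ⟨w, hw, huw⟩ := exists_lt_of_lt_csSup h0 (hbe ▸ hu'.2)
      exact hE.out (hVE hv).1 (hVE hw).1 ⟨hvu.le, huw.le⟩
    have hlen : κ / 2 * (b - a) ≤ (∫⁻ u in E, ENNReal.ofReal (g u)).toReal := by
      rw [← ENNReal.ofReal_le_iff_le_toReal hfin]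
      calc ENNReal.ofReal (κ / 2 * (b - a)) = ∫⁻ _ in Ioo a b, ENNReal.ofReal (κ / 2) := by
            rw [setLIntegral_const, Real.volume_Ioo, ← ENNReal.ofReal_mul (by positivity)]
        _ ≤ ∫⁻ u in Ioo a b, ENNReal.ofReal (g u) :=
            setLIntegral_mono' measurableSet_Ioo fun u hu' =>
              ENNReal.ofReal_le_ofReal (hg u (hIoo hu'))
        _ ≤ ∫⁻ u in E, ENNReal.ofReal (g u) := lintegral_mono_set hIoo
    obtain ⟨ℓ, hℓ⟩ : ∃ ℓ, ℓ = b - a := ⟨_, rfl⟩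
    have hℓ0 : 0 ≤ ℓ := by rw [hℓ]; linarith
    have hε : 0 < η / (4 * (ℓ + 1)) := by positivity
    obtain ⟨δ, hδ, hp⟩ := hpair _ hε
    have h1 := a1 ι Ang F f (2 * (C₀ * κ + η / (4 * (ℓ + 1)))) a ℓ (η / 2) (by positivity) hℓ0
      (by positivity) ⟨δ, hδ, ?_⟩ hu ?_
    · refine H709U.maj_mono (fun _ _ => le_rfl) ?_ h1
      have h2 : η / (4 * (ℓ + 1)) * ℓ ≤ η / 4 := by
        rw [div_mul_eq_mul_div, div_le_div_iff₀ (by positivity) (by norm_num)]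
        nlinarith
      have h3 : C₀ * (κ / 2 * ℓ) ≤ C₀ * (∫⁻ u in E, ENNReal.ofReal (g u)).toReal :=
        mul_le_mul_of_nonneg_left (by rw [hℓ]; exact hlen) hC₀
      nlinarith
    · intro α hα β hβ C hC C' hC' hne
      refine ⟨(hp α hα β hβ C hC C' hC' hne).1, fun hlt => ?_⟩
      rcases lt_or_gt_of_ne (hp α hα β hβ C hC C' hC' hne).1 with h | h
      · rw [abs_of_pos (by linarith : 0 < f C' - f C)] at hlt ⊢
        exact (hp α hα β hβ C hC C' hC' hne).2 h hlt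
      · rw [abs_sub_comm (f C') (f C), abs_of_pos (by linarith : 0 < f C - f C')] at hlt ⊢
        rw [abs_sub_comm]
        exact (hp β hβ α hα C' hC' C hC (Ne.symm hne)).2 h hlt
    · intro α hα C hC
      have h2 : f C ∈ V := by rw [hV]; exact ⟨α, hα, C, hC, rfl⟩
      have h3 := csInf_le hbb h2
      have h4 := le_csSup hba h2
      rw [← ha] at h3
      rw [← hbe] at h4
      constructor
      · exact h3
      · rw [hℓ]; linarith

/-- the sum of the integrals over the levels -/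
theorem sum_levels {J : Set ℝ} {κ' g : ℝ → ℝ} {κ₀ : ℝ} (hκ₀ : 0 < κ₀)
    (hm : ∀ k : ℕ, MeasurableSet {u | u ∈ J ∧ κ₀ / 2 ^ k / 2 < κ' u ∧ κ' u ≤ κ₀ / 2 ^ k}) :
    ∑' k : ℕ, ∫⁻ u in {u | u ∈ J ∧ κ₀ / 2 ^ k / 2 < κ' u ∧ κ' u ≤ κ₀ / 2 ^ k},
      ENNReal.ofReal (g u) ≤ ∫⁻ u in J, ENNReal.ofReal (g u) := by
  have hd : Pairwise (Function.onFun Disjoint fun k : ℕ =>
      {u | u ∈ J ∧ κ₀ / 2 ^ k / 2 < κ' u ∧ κ' u ≤ κ₀ / 2 ^ k}) := by
    have hlt : ∀ j k : ℕ, j < k → κ₀ / 2 ^ k ≤ κ₀ / 2 ^ j / 2 := by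
      intro j k hjk
      rw [div_div, ← pow_succ]
      exact div_le_div_of_nonneg_left hκ₀.le (by positivity)
        (pow_le_pow_right₀ (by norm_num) hjk)
    intro j k hjk
    rw [Function.onFun, Set.disjoint_left]
    rintro u ⟨-, h1, h2⟩ ⟨-, h3, h4⟩
    rcases lt_or_gt_of_ne hjk with h | h
    · linarith [hlt j k h]
    · linarith [hlt k j h]
  rw [← lintegral_iUnion hm hd]
  exact lintegral_mono_set (iUnion_subset fun k u hu => hu.1)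

theorem Icc_of {K : Set ℝ} (hK : IsCompact K) (hc : K.OrdConnected) : ∃ a b, K = Icc a b := by
  rcases K.eq_empty_or_nonempty with h | h
  · exact ⟨1, 0, by rw [h]; simp⟩
  · exact ⟨_, _, eq_Icc_of_connected_compact ⟨h, hc.isPreconnected⟩ hK⟩

/-- the level of a positive number -/
theorem exists_level {κ₀ t : ℝ} (hκ₀ : 0 < κ₀) (ht : 0 < t) (htκ : t ≤ κ₀) :
    ∃ k : ℕ, κ₀ / 2 ^ k / 2 < t ∧ t ≤ κ₀ / 2 ^ k := by
  classical
  have hex : ∃ k : ℕ, κ₀ / 2 ^ k / 2 < t := by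
    obtain ⟨n, hn⟩ := pow_unbounded_of_one_lt (κ₀ / t) (by norm_num : (1:ℝ) < 2)
    refine ⟨n, ?_⟩
    rw [div_lt_iff₀ ht] at hn
    have h2 : κ₀ / 2 ^ n < t := by
      rw [div_lt_iff₀ (by positivity)]
      linarith
    have h3 : 0 < κ₀ / 2 ^ n := by positivity
    linarith
  refine ⟨Nat.find hex, Nat.find_spec hex, ?_⟩
  cases h : Nat.find hex with
  | zero => simpa using htκ
  | succ m =>
    have h1 := Nat.find_min hex (m := m) (by omega)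
    push Not at h1
    rw [pow_succ, ← div_div]
    exact h1

/-- the bound for families over a compact interval -/
theorem fixK (a1 : Q62.UM.S_A1) {ι : Type} {Ang : Set ℝ} {F : ℝ → Set ι} {mn mx : ι → ℝ}
    {J : Set ℝ} {κd κu : ℝ → ℝ} {C₀ κ₀ I : ℝ} (hJ : OI J) (hC₀ : 0 ≤ C₀) (hκ₀ : 0 < κ₀)
    (hκ1 : κ₀ ≤ 1) (hI : 0 ≤ I) (hdc : ContinuousOn κd J) (huc : ContinuousOn κu J)
    (hd0 : ∀ u ∈ J, 0 ≤ κd u) (hu0 : ∀ u ∈ J, 0 ≤ κu u) (hda : AntitoneOn κd J)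
    (hum : MonotoneOn κu J) (hdI : ∫⁻ u in J, ENNReal.ofReal (min (κd u) 1) ≤ ENNReal.ofReal I)
    (huI : ∫⁻ u in J, ENNReal.ofReal (min (κu u) 1) ≤ ENNReal.ofReal I)
    (hmem : ∀ α ∈ Ang, ∀ C ∈ F α, mn C ≤ mx C ∧
      Icc (mn C) (mx C) ⊆ {u | u ∈ J ∧ κd u ≤ κ₀ ∧ κu u ≤ κ₀})
    (huq : ∀ α ∈ Ang, ∀ β ∈ Ang, ∀ C ∈ F α, C ∈ F β → α = β)
    (hpair : ∀ κ, 0 < κ → κ ≤ κ₀ → ∀ a b, Icc a b ⊆ {u | u ∈ J ∧ κd u ≤ κ ∧ κu u ≤ κ} → ∀ ε > 0,
      ∃ δ > 0, ∀ α ∈ Ang, ∀ β ∈ Ang, ∀ C ∈ F α, ∀ C' ∈ F β, C ≠ C' →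
        Icc (mn C) (mx C) ⊆ Icc a b → Icc (mn C') (mx C') ⊆ Icc a b →
        mn C ≠ mn C' ∧ mx C ≠ mx C' ∧
        (mn C < mn C' → mn C' - mn C < δ → |β - α| ≤ 2 * (C₀ * κ + ε) * (mn C' - mn C)) ∧
        (mx C < mx C' → mx C' - mx C < δ → |β - α| ≤ 2 * (C₀ * κ + ε) * (mx C' - mx C)))
    {K : Set ℝ} (hKc : IsCompact K) (hKo : K.OrdConnected) (hKJ : K ⊆ J)
    (hFK : ∀ α ∈ Ang, ∀ C ∈ F α, mn C ∈ K ∧ mx C ∈ K) : Maj (cnt Ang F) (16 * C₀ * I + 8) := by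
  have hJo := hJ.2
  -- the levels
  obtain ⟨S, hS⟩ : ∃ S : ℝ → Set ℝ, S = fun κ => {u | u ∈ K ∧ κd u ≤ κ ∧ κu u ≤ κ} := ⟨_, rfl⟩
  have hSmem : ∀ κ u, u ∈ S κ ↔ u ∈ K ∧ κd u ≤ κ ∧ κu u ≤ κ := fun κ u => by rw [hS]; rfl
  have hSo : ∀ κ, (S κ).OrdConnected := by
    intro κ
    refine ⟨fun x hx y hy z hz => ?_⟩
    rw [hSmem] at hx hy ⊢
    have hzK := hKo.out hx.1 hy.1 hz
    exact ⟨hzK, (hda (hKJ hx.1) (hKJ hzK) hz.1).trans hx.2.1,
      (hum (hKJ hzK) (hKJ hy.1) hz.2).trans hy.2.2⟩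
  have hSc : ∀ κ, IsCompact (S κ) := by
    intro κ
    have h1 : IsClosed (K ∩ κd ⁻¹' Iic κ) :=
      (hdc.mono hKJ).preimage_isClosed_of_isClosed hKc.isClosed isClosed_Iic
    have h2 : IsClosed (K ∩ κu ⁻¹' Iic κ) :=
      (huc.mono hKJ).preimage_isClosed_of_isClosed hKc.isClosed isClosed_Iic
    have h3 : S κ = (K ∩ κd ⁻¹' Iic κ) ∩ (K ∩ κu ⁻¹' Iic κ) := by
      ext u
      rw [hSmem]
      constructor
      · rintro ⟨g1, g2, g3⟩
        exact ⟨⟨g1, g2⟩, g1, g3⟩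
      · rintro ⟨⟨g1, g2⟩, -, g3⟩
        exact ⟨g1, g2, g3⟩
    rw [h3]
    exact hKc.of_isClosed_subset (h1.inter h2) fun u hu => hu.1.1
  have hP : ∀ κ, 0 < κ → κ ≤ κ₀ → ∀ ε > 0, ∃ δ > 0, ∀ α ∈ Ang, ∀ β ∈ Ang, ∀ C ∈ F α,
      ∀ C' ∈ F β, C ≠ C' → mn C ∈ S κ → mx C ∈ S κ → mn C' ∈ S κ → mx C' ∈ S κ →
        mn C ≠ mn C' ∧ mx C ≠ mx C' ∧
        (mn C < mn C' → mn C' - mn C < δ → |β - α| ≤ 2 * (C₀ * κ + ε) * (mn C' - mn C)) ∧
        (mx C < mx C' → mx C' - mx C < δ → |β - α| ≤ 2 * (C₀ * κ + ε) * (mx C' - mx C)) := by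
    intro κ h0 h1 ε hε
    obtain ⟨a, b, hab⟩ := Icc_of (hSc κ) (hSo κ)
    obtain ⟨δ, hδ, hp⟩ := hpair κ h0 h1 a b (by
      rw [← hab]
      intro u hu
      rw [hSmem] at hu
      exact ⟨hKJ hu.1, hu.2.1, hu.2.2⟩) ε hε
    refine ⟨δ, hδ, fun α hα β hβ C hC C' hC' hne g1 g2 g3 g4 => hp α hα β hβ C hC C' hC' hne ?_ ?_⟩
    · rw [← hab]
      exact (hSo κ).out g1 g2
    · rw [← hab]
      exact (hSo κ).out g3 g4
  have hmono : ∀ α ∈ Ang, ∀ C ∈ F α, κu (mn C) ≤ κu (mx C) ∧ κd (mx C) ≤ κd (mn C) := by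
    intro α hα C hC
    have h1 := hFK α hα C hC
    have h2 := (hmem α hα C hC).1
    exact ⟨hum (hKJ h1.1) (hKJ h1.2) h2, hda (hKJ h1.1) (hKJ h1.2) h2⟩
  obtain ⟨R, hR0, hR⟩ : ∃ R : ℝ, 0 ≤ R ∧ K ⊆ Icc (-R) R := by
    obtain ⟨R, hR⟩ := hKc.isBounded.subset_closedBall 0
    refine ⟨max R 0, le_max_right _ _, fun u hu => ?_⟩
    have h1 := hR hu
    rw [mem_closedBall_zero_iff, Real.norm_eq_abs] at h1
    exact abs_le.1 (h1.trans (le_max_left _ _))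
  -- the classes
  obtain ⟨κ, hκ⟩ : ∃ κ : ℕ → ℝ, κ = fun k => κ₀ / 2 ^ k := ⟨_, rfl⟩
  have hκv : ∀ k, κ k = κ₀ / 2 ^ k := fun k => by rw [hκ]
  have hκp : ∀ k, 0 < κ k := fun k => by rw [hκv]; positivity
  have hκle : ∀ k, κ k ≤ κ₀ := fun k => by
    rw [hκv]
    exact div_le_self hκ₀.le (one_le_pow₀ (by norm_num))
  obtain ⟨Ed, hEd⟩ : ∃ E : ℕ → Set ℝ, E = fun k => {u | u ∈ J ∧ κ k / 2 < κd u ∧ κd u ≤ κ k} :=
    ⟨_, rfl⟩
  obtain ⟨Eu, hEu⟩ : ∃ E : ℕ → Set ℝ, E = fun k => {u | u ∈ J ∧ κ k / 2 < κu u ∧ κu u ≤ κ k} :=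
    ⟨_, rfl⟩
  have hEdo : ∀ k, (Ed k).OrdConnected := by
    intro k
    refine ⟨fun x hx y hy z hz => ?_⟩
    rw [hEd] at hx hy ⊢
    have hzJ := hJo.out hx.1 hy.1 hz
    exact ⟨hzJ, hy.2.1.trans_le (hda hzJ hy.1 hz.2), (hda hx.1 hzJ hz.1).trans hx.2.2⟩
  have hEuo : ∀ k, (Eu k).OrdConnected := by
    intro k
    refine ⟨fun x hx y hy z hz => ?_⟩
    rw [hEu] at hx hy ⊢
    have hzJ := hJo.out hx.1 hy.1 hz
    exact ⟨hzJ, hx.2.1.trans_le (hum hx.1 hzJ hz.1), (hum hzJ hy.1 hz.2).trans hy.2.2⟩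
  have hsd : ∑' k : ℕ, ∫⁻ u in Ed k, ENNReal.ofReal (min (κd u) 1) ≤ ENNReal.ofReal I := by
    refine le_trans ?_ hdI
    rw [hEd, hκ]
    refine sum_levels hκ₀ fun k => ?_
    have h1 := (hEdo k).measurableSet
    rw [hEd, hκ] at h1
    exact h1
  have hsu : ∑' k : ℕ, ∫⁻ u in Eu k, ENNReal.ofReal (min (κu u) 1) ≤ ENNReal.ofReal I := by
    refine le_trans ?_ huI
    rw [hEu, hκ]
    refine sum_levels hκ₀ fun k => ?_
    have h1 := (hEuo k).measurableSet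
    rw [hEu, hκ] at h1
    exact h1
  obtain ⟨Id, hId⟩ : ∃ x : ℕ → ℝ≥0∞, x = fun k => ∫⁻ u in Ed k, ENNReal.ofReal (min (κd u) 1) :=
    ⟨_, rfl⟩
  obtain ⟨Iu, hIu⟩ : ∃ x : ℕ → ℝ≥0∞, x = fun k => ∫⁻ u in Eu k, ENNReal.ofReal (min (κu u) 1) :=
    ⟨_, rfl⟩
  have hsd' : ∑' k, Id k ≤ ENNReal.ofReal I := by rw [hId]; exact hsd
  have hsu' : ∑' k, Iu k ≤ ENNReal.ofReal I := by rw [hIu]; exact hsu
  have hfd : ∑' k, Id k ≠ ∞ := (hsd'.trans_lt ENNReal.ofReal_lt_top).ne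
  have hfu : ∑' k, Iu k ≠ ∞ := (hsu'.trans_lt ENNReal.ofReal_lt_top).ne
  have hfd' : ∀ k, Id k ≠ ∞ := ENNReal.ne_top_of_tsum_ne_top hfd
  have hfu' : ∀ k, Iu k ≠ ∞ := ENNReal.ne_top_of_tsum_ne_top hfu
  obtain ⟨FA, hFA⟩ : ∃ FA : ℕ → ℝ → Set ι, FA = fun k α => {C | C ∈ F α ∧ mn C ∈ S (κ k) ∧
    mx C ∈ S (κ k) ∧ κ k / 2 < κd (mn C)} := ⟨_, rfl⟩
  obtain ⟨FB, hFB⟩ : ∃ FB : ℕ → ℝ → Set ι, FB = fun k α => {C | C ∈ F α ∧ mn C ∈ S (κ k) ∧
    mx C ∈ S (κ k) ∧ κ k / 2 < κu (mx C)} := ⟨_, rfl⟩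
  obtain ⟨FZ, hFZ⟩ : ∃ FZ : ℝ → Set ι, FZ = fun α => {C | C ∈ F α ∧ κd (mn C) = 0 ∧
    κu (mx C) = 0} := ⟨_, rfl⟩
  have hA : ∀ k : ℕ, Maj (cnt Ang (FA k)) (4 * C₀ * (Id k).toReal + (1 / 2) ^ k) := by
    intro k
    rw [hId]
    refine cls a1 mn (hEdo k) (hκp k) hC₀ (by positivity) (A := -R) (B := R) ?_ ?_ ?_ ?_ ?_
    · intro u hu
      rw [hEd] at hu
      exact le_min hu.2.1.le (by linarith [hκle k, hκp k])
    · intro α hα C hC
      rw [hFA] at hC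
      obtain ⟨g1, g2, g3, g4⟩ := hC
      rw [hSmem] at g2
      refine ⟨?_, hR g2.1⟩
      rw [hEd]
      exact ⟨hKJ g2.1, g4, g2.2.1⟩
    · have := hfd' k
      rwa [hId] at this
    · intro α hα β hβ C hC hC'
      rw [hFA] at hC hC'
      exact huq α hα β hβ C hC.1 hC'.1
    · intro ε hε
      obtain ⟨δ, hδ, hp⟩ := hP (κ k) (hκp k) (hκle k) ε hε
      refine ⟨δ, hδ, fun α hα β hβ C hC C' hC' hne => ?_⟩
      rw [hFA] at hC hC'
      have := hp α hα β hβ C hC.1 C' hC'.1 hne hC.2.1 hC.2.2.1 hC'.2.1 hC'.2.2.1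
      exact ⟨this.1, this.2.2.1⟩
  have hB : ∀ k : ℕ, Maj (cnt Ang (FB k)) (4 * C₀ * (Iu k).toReal + (1 / 2) ^ k) := by
    intro k
    rw [hIu]
    refine cls a1 mx (hEuo k) (hκp k) hC₀ (by positivity) (A := -R) (B := R) ?_ ?_ ?_ ?_ ?_
    · intro u hu
      rw [hEu] at hu
      exact le_min hu.2.1.le (by linarith [hκle k, hκp k])
    · intro α hα C hC
      rw [hFB] at hC
      obtain ⟨g1, g2, g3, g4⟩ := hC
      rw [hSmem] at g3
      refine ⟨?_, hR g3.1⟩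
      rw [hEu]
      exact ⟨hKJ g3.1, g4, g3.2.2⟩
    · have := hfu' k
      rwa [hIu] at this
    · intro α hα β hβ C hC hC'
      rw [hFB] at hC hC'
      exact huq α hα β hβ C hC.1 hC'.1
    · intro ε hε
      obtain ⟨δ, hδ, hp⟩ := hP (κ k) (hκp k) (hκle k) ε hε
      refine ⟨δ, hδ, fun α hα β hβ C hC C' hC' hne => ?_⟩
      rw [hFB] at hC hC'
      have := hp α hα β hβ C hC.1 C' hC'.1 hne hC.2.1 hC.2.2.1 hC'.2.1 hC'.2.2.1
      exact ⟨this.2.1, this.2.2.2⟩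
  have hZ : Maj (cnt Ang FZ) 1 := by
    obtain ⟨ℓ, hℓ⟩ : ∃ ℓ : ℝ, ℓ = 2 * R := ⟨_, rfl⟩
    have hℓ0 : 0 ≤ ℓ := by rw [hℓ]; linarith
    obtain ⟨κ', hκ'0, hκ'1, hκ'2⟩ : ∃ κ' : ℝ, 0 < κ' ∧ κ' ≤ κ₀ ∧ C₀ * κ' * ℓ ≤ 1 / 8 := by
      refine ⟨min κ₀ (1 / (8 * (C₀ + 1) * (ℓ + 1))), by positivity, min_le_left _ _, ?_⟩
      have h1 : min κ₀ (1 / (8 * (C₀ + 1) * (ℓ + 1))) ≤ 1 / (8 * (C₀ + 1) * (ℓ + 1)) :=
        min_le_right _ _
      obtain ⟨x, hx⟩ : ∃ x, x = min κ₀ (1 / (8 * (C₀ + 1) * (ℓ + 1))) := ⟨_, rfl⟩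
      rw [← hx] at h1 ⊢
      have hx0 : 0 < x := by rw [hx]; positivity
      rw [le_div_iff₀ (by positivity)] at h1
      have h2 : C₀ * x * ℓ ≤ x * ((C₀ + 1) * (ℓ + 1)) := by
        have h3 : C₀ * ℓ ≤ (C₀ + 1) * (ℓ + 1) := by nlinarith
        calc C₀ * x * ℓ = x * (C₀ * ℓ) := by ring
          _ ≤ x * ((C₀ + 1) * (ℓ + 1)) := mul_le_mul_of_nonneg_left h3 hx0.le
      linarith
    obtain ⟨δ, hδ, hp⟩ := hP κ' hκ'0 hκ'1 (1 / (8 * (ℓ + 1))) (by positivity)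
    have hin : ∀ α ∈ Ang, ∀ C ∈ FZ α, C ∈ F α ∧ mn C ∈ S κ' ∧ mx C ∈ S κ' := by
      intro α hα C hC
      rw [hFZ] at hC
      obtain ⟨g1, g2, g3⟩ := hC
      have g4 := hmono α hα C g1
      have g5 := hFK α hα C g1
      refine ⟨g1, ?_, ?_⟩
      · rw [hSmem]
        exact ⟨g5.1, by rw [g2]; exact hκ'0.le, by linarith [g4.1]⟩
      · rw [hSmem]
        exact ⟨g5.2, by linarith [g4.2], by rw [g3]; exact hκ'0.le⟩
    have h1 := a1 ι Ang FZ mn (2 * (C₀ * κ' + 1 / (8 * (ℓ + 1)))) (-R) ℓ (1 / 2) (by positivity)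
      hℓ0 (by norm_num) ⟨δ, hδ, ?_⟩ ?_ ?_
    · refine H709U.maj_mono (fun _ _ => le_rfl) ?_ h1
      have h2 : 1 / (8 * (ℓ + 1)) * ℓ ≤ 1 / 8 := by
        rw [div_mul_eq_mul_div, div_le_div_iff₀ (by positivity) (by norm_num)]
        nlinarith
      nlinarith
    · intro α hα β hβ C hC C' hC' hne
      obtain ⟨g1, g2, g3⟩ := hin α hα C hC
      obtain ⟨g1', g2', g3'⟩ := hin β hβ C' hC'
      have k1 := hp α hα β hβ C g1 C' g1' hne g2 g3 g2' g3'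
      have k2 := hp β hβ α hα C' g1' C g1 (Ne.symm hne) g2' g3' g2 g3
      refine ⟨k1.1, fun hlt => ?_⟩
      rcases lt_or_gt_of_ne k1.1 with h | h
      · rw [abs_of_pos (by linarith : 0 < mn C' - mn C)] at hlt ⊢
        exact k1.2.2.1 h hlt
      · rw [abs_sub_comm (mn C') (mn C), abs_of_pos (by linarith : 0 < mn C - mn C')] at hlt ⊢
        rw [abs_sub_comm]
        exact k2.2.2.1 h hlt
    · intro α hα β hβ C hC hC'
      exact huq α hα β hβ C (hin α hα C hC).1 (hin β hβ C hC').1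
    · intro α hα C hC
      have g := hR (hFK α hα C (hin α hα C hC).1).1
      exact ⟨g.1, by rw [hℓ]; linarith [g.2]⟩
  -- the sum
  have hAB : ∀ k : ℕ, Maj (fun α => cnt Ang (FA k) α + cnt Ang (FB k) α)
      (4 * C₀ * (Id k).toReal + 4 * C₀ * (Iu k).toReal + 2 * (1 / 2) ^ k) := by
    intro k
    have h1 := majRules.2.1 _ _ _ _ (by positivity) (by positivity) (hA k) (hB k)
    refine H709U.maj_mono (fun _ _ => le_rfl) (le_of_eq (by ring)) h1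
  have hsumd : HasSum (fun k => (Id k).toReal) (∑' k, Id k).toReal := by
    rw [ENNReal.tsum_toReal_eq hfd']
    exact (ENNReal.summable_toReal hfd).hasSum
  have hsumu : HasSum (fun k => (Iu k).toReal) (∑' k, Iu k).toReal := by
    rw [ENNReal.tsum_toReal_eq hfu']
    exact (ENNReal.summable_toReal hfu).hasSum
  have hgeo : HasSum (fun k : ℕ => ((1:ℝ) / 2) ^ k) (1 - 1 / 2)⁻¹ :=
    hasSum_geometric_of_lt_one (by norm_num) (by norm_num)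
  have hsum := ((hsumd.mul_left (4 * C₀)).add (hsumu.mul_left (4 * C₀))).add (hgeo.mul_left 2)
  have h2 := majRules.2.2.1 _ _ _ (fun k => by positivity) hsum hAB
  have hd1 : (∑' k, Id k).toReal ≤ I := by
    have := ENNReal.toReal_mono ENNReal.ofReal_ne_top hsd'
    rwa [ENNReal.toReal_ofReal hI] at this
  have hu1 : (∑' k, Iu k).toReal ≤ I := by
    have := ENNReal.toReal_mono ENNReal.ofReal_ne_top hsu'
    rwa [ENNReal.toReal_ofReal hI] at this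
  have h3 := majRules.2.1 _ _ _ _ zero_le_one (by positivity) hZ h2
  refine H709U.maj_mono (fun α _ => ?_) ?_ h3
  · unfold cnt
    by_cases hα : α ∈ Ang
    · simp only [indicator_of_mem hα]
      have hcov : F α ⊆ FZ α ∪ ⋃ k : ℕ, (FA k α ∪ FB k α) := by
        intro C hC
        have g1 := hFK α hα C hC
        have g2 := hmono α hα C hC
        have g3 := hmem α hα C hC
        have g4 := g3.2 (left_mem_Icc.2 g3.1)
        have g5 := g3.2 (right_mem_Icc.2 g3.1)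
        have g6 := hd0 _ g4.1
        have g7 := hu0 _ g5.1
        obtain ⟨t, ht⟩ : ∃ t, t = max (κd (mn C)) (κu (mx C)) := ⟨_, rfl⟩
        have ht1 : κd (mn C) ≤ t := by rw [ht]; exact le_max_left _ _
        have ht2 : κu (mx C) ≤ t := by rw [ht]; exact le_max_right _ _
        have htκ : t ≤ κ₀ := by rw [ht]; exact max_le g4.2.1 g5.2.2
        rcases (g6.trans ht1).eq_or_lt with h0 | h0
        · left
          rw [hFZ]
          exact ⟨hC, by linarith, by linarith⟩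
        · right
          obtain ⟨k, hk1, hk2⟩ := exists_level hκ₀ h0 htκ
          rw [← hκv] at hk1 hk2
          simp only [mem_iUnion]
          have hs1 : mn C ∈ S (κ k) := by
            rw [hSmem]
            exact ⟨g1.1, ht1.trans hk2, (g2.1.trans ht2).trans hk2⟩
          have hs2 : mx C ∈ S (κ k) := by
            rw [hSmem]
            exact ⟨g1.2, (g2.2.trans ht1).trans hk2, ht2.trans hk2⟩
          refine ⟨k, ?_⟩
          rcases le_total (κd (mn C)) (κu (mx C)) with h | h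
          · right
            rw [hFB]
            rw [ht, max_eq_right h] at hk1
            exact ⟨hC, hs1, hs2, hk1⟩
          · left
            rw [hFA]
            rw [ht, max_eq_left h] at hk1
            exact ⟨hC, hs1, hs2, hk1⟩
      refine (ENat.toENNReal_le.2 (encard_le_encard hcov)).trans ?_
      refine (ENat.toENNReal_le.2 (encard_union_le _ _)).trans ?_
      rw [ENat.toENNReal_add]
      refine add_le_add le_rfl ?_
      refine (H709R2.encard_le_tsum subset_rfl).trans (ENNReal.tsum_le_tsum fun i => ?_)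
      exact (ENat.toENNReal_le.2 (encard_union_le _ _)).trans (le_of_eq (ENat.toENNReal_add _ _))
    · rw [indicator_of_notMem hα]
      exact bot_le
  · have h4 := mul_le_mul_of_nonneg_left hd1 (show 0 ≤ 4 * C₀ by positivity)
    have h5 := mul_le_mul_of_nonneg_left hu1 (show 0 ≤ 4 * C₀ by positivity)
    have h6 : (2:ℝ) * (1 - 1 / 2)⁻¹ = 4 := by norm_num
    have h7 : 0 ≤ C₀ * I := by positivity
    linarith

theorem t_A2 (a1 : Q62.UM.S_A1) : Q62.UM.S_A2 := by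
  intro ι Ang F mn mx J κd κu C₀ κ₀ I hJ hC₀ hκ₀ hκ1 hI hdc huc hd0 hu0 hda hum hdI huI hmem huq
    hpair
  obtain ⟨K, hK⟩ : ∃ K : ℕ → Set ℝ, K = fun i : ℕ => {u | u ∈ Icc (-(i:ℝ)) i ∧
    ∀ v, v ∉ J → 1 / ((i:ℝ) + 1) ≤ |u - v|} := ⟨_, rfl⟩
  have hKJ : ∀ i, K i ⊆ J := by
    intro i u hu
    rw [hK] at hu
    by_contra h
    have h1 := hu.2 u h
    rw [sub_self, abs_zero] at h1
    have h2 : (0:ℝ) < 1 / ((i:ℝ) + 1) := by positivity
    linarith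
  have hKc : ∀ i, IsCompact (K i) := by
    intro i
    have h1 : K i = Icc (-(i:ℝ)) i ∩ ⋂ v, ⋂ (_ : v ∉ J), {u | 1 / ((i:ℝ) + 1) ≤ |u - v|} := by
      rw [hK]
      ext u
      simp
    rw [h1]
    refine isCompact_Icc.inter_right (isClosed_iInter fun v => isClosed_iInter fun _ => ?_)
    exact isClosed_le continuous_const (by fun_prop)
  have hKo : ∀ i, (K i).OrdConnected := by
    intro i
    refine ⟨fun x hx y hy z hz => ?_⟩
    have hxJ := hKJ i hx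
    have hyJ := hKJ i hy
    rw [hK] at hx hy ⊢
    refine ⟨⟨hx.1.1.trans hz.1, hz.2.trans hy.1.2⟩, fun v hv => ?_⟩
    rcases lt_or_ge v x with h | h
    · have h1 := hx.2 v hv
      rw [abs_of_pos (by linarith)] at h1
      rw [abs_of_pos (by linarith [hz.1])]
      linarith [hz.1]
    · rcases lt_or_ge y v with h' | h'
      · have h1 := hy.2 v hv
        rw [abs_of_neg (by linarith)] at h1
        rw [abs_of_neg (by linarith [hz.2])]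
        linarith [hz.2]
      · exact absurd (hJ.2.out hxJ hyJ ⟨h, h'⟩) hv
  have hKm : ∀ i j, i ≤ j → K i ⊆ K j := by
    intro i j hij u hu
    rw [hK] at hu ⊢
    have h1 : (i:ℝ) ≤ j := by exact_mod_cast hij
    refine ⟨⟨by linarith [hu.1.1], by linarith [hu.1.2]⟩, fun v hv => le_trans ?_ (hu.2 v hv)⟩
    exact one_div_le_one_div_of_le (by positivity) (by linarith)
  have hKe : ∀ u ∈ J, ∃ i, u ∈ K i := by
    intro u hu
    obtain ⟨r, hr, hball⟩ := Metric.isOpen_iff.1 hJ.1 u hu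
    obtain ⟨i, hi⟩ := exists_nat_ge (max |u| (1 / r))
    refine ⟨i, ?_⟩
    rw [hK]
    refine ⟨abs_le.1 ((le_max_left _ _).trans hi), fun v hv => ?_⟩
    have h1 : r ≤ |u - v| := by
      by_contra h
      push Not at h
      apply hv
      apply hball
      rw [Metric.mem_ball, Real.dist_eq, abs_sub_comm]
      exact h
    have h2 : 1 / r ≤ i := (le_max_right _ _).trans hi
    refine le_trans ?_ h1
    rw [div_le_iff₀ (by positivity)]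
    rw [div_le_iff₀ hr] at h2
    nlinarith
  have hfix : ∀ i, Maj (cnt Ang fun α => {C | C ∈ F α ∧ mn C ∈ K i ∧ mx C ∈ K i})
      (16 * C₀ * I + 8) := by
    intro i
    refine fixK a1 (mn := mn) (mx := mx) hJ hC₀ hκ₀ hκ1 hI hdc huc hd0 hu0 hda hum hdI huI ?_ ?_ ?_ (hKc i)
      (hKo i) (hKJ i) ?_
    · intro α hα C hC
      exact hmem α hα C hC.1
    · intro α hα β hβ C hC hC'
      exact huq α hα β hβ C hC.1 hC'.1
    · intro κ h1 h2 a b hab ε hε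
      obtain ⟨δ, hδ, hp⟩ := hpair κ h1 h2 a b hab ε hε
      exact ⟨δ, hδ, fun α hα β hβ C hC C' hC' => hp α hα β hβ C hC.1 C' hC'.1⟩
    · intro α hα C hC
      exact hC.2
  have h4 := majRules.2.2.2 (fun (i : ℕ) => cnt Ang fun α => {C | C ∈ F α ∧ mn C ∈ K i ∧ mx C ∈ K i})
    (16 * C₀ * I + 8) ?_ hfix
  · refine H709U.maj_mono (fun α _ => ?_) le_rfl h4
    unfold cnt
    by_cases hα : α ∈ Ang
    · simp only [indicator_of_mem hα]
      refine H709R2.encard_le_of_finset fun G hG => ?_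
      classical
      have hb : ∀ C ∈ G, ∃ i : ℕ, mn C ∈ K i ∧ mx C ∈ K i := by
        intro C hC
        have h5 := hmem α hα C (hG hC)
        obtain ⟨i, hi⟩ := hKe _ (h5.2 (left_mem_Icc.2 h5.1)).1
        obtain ⟨j, hj⟩ := hKe _ (h5.2 (right_mem_Icc.2 h5.1)).1
        exact ⟨max i j, hKm _ _ (le_max_left _ _) hi, hKm _ _ (le_max_right _ _) hj⟩
      choose! m hm using hb
      refine le_trans ?_ (le_iSup (fun i : ℕ => (({C | C ∈ F α ∧ mn C ∈ K i ∧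
        mx C ∈ K i}.encard : ℕ∞) : ℝ≥0∞)) (G.sup m))
      have h6 : (G : Set ι) ⊆ {C | C ∈ F α ∧ mn C ∈ K (G.sup m) ∧ mx C ∈ K (G.sup m)} := by
        intro C hC
        have h7 : m C ≤ G.sup m := Finset.le_sup (f := m) hC
        exact ⟨hG hC, hKm _ _ h7 (hm C hC).1, hKm _ _ h7 (hm C hC).2⟩
      have h8 := ENat.toENNReal_le.2 (encard_le_encard h6)
      rw [encard_coe_eq_coe_finsetCard] at h8
      exact h8
    · rw [indicator_of_notMem hα]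
      exact bot_le
  · intro i j α hij
    unfold cnt
    by_cases hα : α ∈ Ang
    · simp only [indicator_of_mem hα]
      refine ENat.toENNReal_le.2 (encard_le_encard ?_)
      rintro C ⟨h5, h6, h7⟩
      exact ⟨h5, hKm _ _ hij h6, hKm _ _ hij h7⟩
    · rw [indicator_of_notMem hα]
      exact bot_le

end Pool.Agent.Q65.UM
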