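import Pool.Agent.Q65.UM.T1

/-!
Project UM (helper62), job T2: the moved curve meets the other curve.
-/

set_option autoImplicit false

namespace Pool.Agent.Q65.UM

open Real Set MeasureTheory Topology Filter
open Pool.Agent.Q62.HU Pool.Agent.Q62.UM

section
variable {M M' : ℝ → ℂ} {T : ℝ} {k : ℤ} {W : ℂ → ℂ} {J : Set ℝ} {b b' : ℝ → ℂ} {S : ℝ}

theorem DW_cont (hJ : IsOpen J) (hM : ∀ t, HasDerivAt M (M' t) t) (hMc : Continuous M')
    (hMJ : ∀ t, (M t).re ∈ J) (hW : ContDiffOn ℝ 1 W {z | z.re ∈ J}) :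
    Continuous fun s => fderiv ℝ W (M s) (M' s) := by
  have h1 : ContinuousOn (fderiv ℝ W) {z : ℂ | z.re ∈ J} :=
    hW.continuousOn_fderiv_of_isOpen (strip_open hJ) le_rfl
  exact (h1.comp_continuous (M_cont hM) hMJ).clm_apply hMc

theorem N_der (hJ : IsOpen J) (hM : ∀ t, HasDerivAt M (M' t) t)
    (hMJ : ∀ t, (M t).re ∈ J) (hW : ContDiffOn ℝ 1 W {z | z.re ∈ J}) (τ s : ℝ) :
    HasDerivAt (fun s => M s + τ * W (M s)) (M' s + τ * fderiv ℝ W (M s) (M' s)) s :=
  (hM s).add (((W_at hJ hW (hMJ s)).hasFDerivAt.comp_hasDerivAt s (hM s)).const_mul (τ : ℂ))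

theorem moved_cur (hJ : IsOpen J) (hT : 0 < T) (hM : ∀ t, HasDerivAt M (M' t) t)
    (hMc : Continuous M') (hper : ∀ t, M (t + T) = M t + k * (2 * π * Complex.I))
    (hMJ : ∀ t, (M t).re ∈ J) (hW : ContDiffOn ℝ 1 W {z | z.re ∈ J})
    (hWp : ∀ z, W (z + 2 * π * Complex.I) = W z) (τ : ℝ) :
    Cur (fun s => Complex.exp (M s + τ * W (M s))) (fun s => Complex.exp (M s + τ * W (M s)) *
      (M' s + τ * fderiv ℝ W (M s) (M' s))) T := by
  refine ⟨hT, fun t => (N_der hJ hM hMJ hW τ t).cexp, ?_, fun t => moved_per hper hWp τ t⟩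
  have h1 := DW_cont hJ hM hMc hMJ hW
  have h2 := WM_cont hJ hM hMJ hW
  have h3 := M_cont hM
  exact (Complex.continuous_exp.comp (h3.add (continuous_const.mul h2))).mul
    (hMc.add (continuous_const.mul h1))

theorem moved_wn (hJ : IsOpen J) (hM : ∀ t, HasDerivAt M (M' t) t)
    (hMc : Continuous M') (hper : ∀ t, M (t + T) = M t + k * (2 * π * Complex.I))
    (hMJ : ∀ t, (M t).re ∈ J) (hW : ContDiffOn ℝ 1 W {z | z.re ∈ J})
    (hWp : ∀ z, W (z + 2 * π * Complex.I) = W z) (hk : k ≠ 0) (τ : ℝ) :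
    Wn (fun s => Complex.exp (M s + τ * W (M s))) (fun s => Complex.exp (M s + τ * W (M s)) *
      (M' s + τ * fderiv ℝ W (M s) (M' s))) T 0 ≠ 0 := by
  have e1 : Wn (fun s => Complex.exp (M s + τ * W (M s))) (fun s => Complex.exp (M s + τ * W (M s)) *
      (M' s + τ * fderiv ℝ W (M s) (M' s))) T 0 =
      ∫ s in (0:ℝ)..T, (M' s + τ * fderiv ℝ W (M s) (M' s)) := by
    unfold Wn
    congr 1
    funext s
    rw [sub_zero, mul_div_cancel_left₀ _ (Complex.exp_ne_zero _)]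
  have hc : Continuous fun s => M' s + τ * fderiv ℝ W (M s) (M' s) :=
    hMc.add (continuous_const.mul (DW_cont hJ hM hMc hMJ hW))
  rw [e1, intervalIntegral.integral_eq_sub_of_hasDerivAt
    (fun s _ => N_der hJ hM hMJ hW τ s) (hc.intervalIntegrable _ _)]
  have e2 : M T = M 0 + k * (2 * π * Complex.I) := by
    have := hper 0
    rwa [zero_add] at this
  rw [e2, W_int hWp]
  have e3 : M 0 + k * (2 * π * Complex.I) + τ * W (M 0) - (M 0 + τ * W (M 0)) =
      k * (2 * π * Complex.I) := by ring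
  rw [e3]
  have h1 : (k : ℂ) ≠ 0 := by exact_mod_cast hk
  exact mul_ne_zero h1 Complex.two_pi_I_ne_zero

theorem re_moved (τ : ℝ) (z w : ℂ) : (z + (τ : ℂ) * w).re = z.re + τ * w.re := by
  rw [Complex.add_re, Complex.re_ofReal_mul]

end

theorem t_T2 : S_T2 := by
  intro M M' T k W J b b' S hJ hT hM hMc hper hk hMJ hW hWp hlo hb hb0 hbw
  have hMC := M_cont hM
  have hWM := WM_cont hJ hM hMJ hW
  have h0 : ∀ τ : ℝ, (0:ℂ) ∉ range (fun s => Complex.exp (M s + τ * W (M s))) := by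
    rintro τ ⟨s, hs⟩
    exact Complex.exp_ne_zero _ hs
  set R : ℝ → ℝ → ℝ := fun τ s => (M s).re + τ * (W (M s)).re with hR
  have hRc : Continuous ↿R := by
    have h1 : Continuous fun x : ℝ × ℝ => (M x.2).re + x.1 * (W (M x.2)).re :=
      ((Complex.continuous_re.comp hMC).comp continuous_snd).add
        (continuous_fst.mul ((Complex.continuous_re.comp hWM).comp continuous_snd))
    exact h1
  have hRp : ∀ τ, Function.Periodic (R τ) T := by
    intro τ s
    simp only [hR]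
    rw [hper, W_int hWp]
    simp
  have hRr : ∀ τ s, ∃ s' ∈ Icc 0 T, R τ s' = R τ s := by
    intro τ s
    obtain ⟨s', hs', he⟩ := (hRp τ).exists_mem_Ico hT s 0
    rw [zero_add] at hs'
    exact ⟨s', ⟨hs'.1, hs'.2.le⟩, he.symm⟩
  have hnorm : ∀ (τ s : ℝ), ‖Complex.exp (M s + (τ : ℂ) * W (M s))‖ = exp (R τ s) := by
    intro τ s
    rw [Complex.norm_exp, re_moved]
  have hbne : ∀ t, b t ≠ 0 := fun t h => hb0 ⟨t, h⟩
  have hne : (Icc 0 T).Nonempty := ⟨0, le_rfl, hT.le⟩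
  have hRs : ∀ τ, Continuous (R τ) := fun τ => by
    have h1 : Continuous fun s => (M s).re + τ * (W (M s)).re :=
      (Complex.continuous_re.comp hMC).add
        (continuous_const.mul (Complex.continuous_re.comp hWM))
    exact h1
  constructor
  · intro s₀ t₀ hs ht hlt
    set B := log ‖b t₀‖ with hB
    have hg : Continuous fun τ => sInf (R τ '' Icc 0 T) := isCompact_Icc.continuous_sInf hRc
    have hbd : ∀ τ, BddBelow (R τ '' Icc 0 T) := fun τ =>
      (isCompact_Icc.image (hRs τ)).bddBelow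
    have hg0 : sInf (R 0 '' Icc 0 T) < B := by
      obtain ⟨s', hs', he⟩ := hRr 0 s₀
      refine (csInf_le (hbd 0) ⟨s', hs', rfl⟩).trans_lt ?_
      rw [he]
      simp only [hR, zero_mul, add_zero]
      exact hlt
    have hg1 : B ≤ sInf (R (2 * (B - (M s₀).re)) '' Icc 0 T) := by
      refine le_csInf (hne.image _) ?_
      rintro _ ⟨s, -, rfl⟩
      have h1 := hs s
      have h2 := hlo s
      simp only [hR]
      nlinarith
    obtain ⟨τ₁, hτ, he⟩ := intermediate_value_Icc (by linarith : (0:ℝ) ≤ 2 * (B - (M s₀).re))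
      hg.continuousOn ⟨hg0.le, hg1⟩
    simp only at he
    have hτ0 : τ₁ ≠ 0 := by
      rintro rfl
      rw [he] at hg0
      exact lt_irrefl _ hg0
    refine ⟨τ₁, lt_of_le_of_ne hτ.1 (Ne.symm hτ0), hτ.2, ?_⟩
    obtain ⟨s₁, -, hs₁⟩ := (isCompact_Icc.image (hRs τ₁)).sInf_mem (hne.image _)
    rw [he] at hs₁
    have hmin : ∀ s, R τ₁ s₁ ≤ R τ₁ s := by
      intro s
      obtain ⟨s', hs', he'⟩ := hRr τ₁ s
      rw [hs₁, ← he, ← he']
      exact csInf_le (hbd τ₁) ⟨s', hs', rfl⟩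
    by_contra hcon
    push Not at hcon
    refine min_ne (moved_cur hJ hT hM hMc hper hMJ hW hWp τ₁) hb hcon (h0 τ₁) hb0
      (moved_wn hJ hM hMc hper hMJ hW hWp hk τ₁) hbw (s₀ := s₁) (t₀ := t₀) ?_ ht ?_
    · intro s
      rw [hnorm, hnorm, exp_le_exp]
      exact hmin s
    · rw [hnorm, hs₁, hB, exp_log (norm_pos_iff.2 (hbne t₀))]
  · intro s₀ t₀ hs ht hlt
    set B := log ‖b t₀‖ with hB
    have hg : Continuous fun τ => sSup (R τ '' Icc 0 T) := isCompact_Icc.continuous_sSup hRc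
    have hbd : ∀ τ, BddAbove (R τ '' Icc 0 T) := fun τ =>
      (isCompact_Icc.image (hRs τ)).bddAbove
    have hg0 : sSup (R 0 '' Icc 0 T) < B := by
      refine lt_of_le_of_lt (csSup_le (hne.image _) ?_) hlt
      rintro _ ⟨s, -, rfl⟩
      simp only [hR, zero_mul, add_zero]
      exact hs s
    have hg1 : B ≤ sSup (R (2 * (B - (M s₀).re)) '' Icc 0 T) := by
      obtain ⟨s', hs', he⟩ := hRr (2 * (B - (M s₀).re)) s₀
      refine le_trans ?_ (le_csSup (hbd _) ⟨s', hs', rfl⟩)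
      rw [he]
      have h2 := hlo s₀
      simp only [hR]
      nlinarith
    obtain ⟨τ₁, hτ, he⟩ := intermediate_value_Icc (by linarith : (0:ℝ) ≤ 2 * (B - (M s₀).re))
      hg.continuousOn ⟨hg0.le, hg1⟩
    simp only at he
    have hτ0 : τ₁ ≠ 0 := by
      rintro rfl
      rw [he] at hg0
      exact lt_irrefl _ hg0
    refine ⟨τ₁, lt_of_le_of_ne hτ.1 (Ne.symm hτ0), hτ.2, ?_⟩
    obtain ⟨s₁, -, hs₁⟩ := (isCompact_Icc.image (hRs τ₁)).sSup_mem (hne.image _)
    rw [he] at hs₁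
    have hmax : ∀ s, R τ₁ s ≤ R τ₁ s₁ := by
      intro s
      obtain ⟨s', hs', he'⟩ := hRr τ₁ s
      rw [hs₁, ← he, ← he']
      exact le_csSup (hbd τ₁) ⟨s', hs', rfl⟩
    by_contra hcon
    push Not at hcon
    refine max_ne (moved_cur hJ hT hM hMc hper hMJ hW hWp τ₁) hb hcon (h0 τ₁) hb0
      (moved_wn hJ hM hMc hper hMJ hW hWp hk τ₁) hbw (s₀ := s₁) (t₀ := t₀) ?_ ht ?_
    · intro s
      rw [hnorm, hnorm, exp_le_exp]
      exact hmax s
    · rw [hnorm, hs₁, hB, exp_log (norm_pos_iff.2 (hbne t₀))]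

end Pool.Agent.Q65.UM
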