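import Pool.Agent.Q65.UM.T2

/-!
Project UM (helper62), job T3: first order expansion of the angle of a tangency.
-/

set_option autoImplicit false

namespace Pool.Agent.Q65.UM

open Real Set MeasureTheory Topology Filter
open Pool.Agent.Q62.HU Pool.Agent.Q62.UM

/-! ### an inequality for the angle -/

theorem ang_small {ψ τ η m : ℝ} {R Y : ℂ} (hτ : 0 < τ) (hm : 1 ≤ m) (hη : η ≤ 1)
    (hY : ‖Y‖ ≤ m - 1) (hR : ‖R - 1 - τ * Y‖ ≤ η * τ) (hψ : |ψ| ≤ π / 2) (h4 : 4 * (τ * m) ≤ 1)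
    (h : sin ψ * R.re + cos ψ * R.im = 0) : |ψ + τ * Y.im| ≤ η * τ + 26 * (τ * m) ^ 2 := by
  have hτm : 0 < τ * m := by positivity
  have e1 : ‖R - 1‖ ≤ τ * m := by
    have h1 : R - 1 = (R - 1 - τ * Y) + τ * Y := by ring
    rw [h1]
    refine (norm_add_le _ _).trans ?_
    rw [norm_mul, Complex.norm_real, Real.norm_of_nonneg hτ.le]
    nlinarith
  have e2 : |R.re - 1| ≤ τ * m := by
    have h1 : R.re - 1 = (R - 1).re := by simp
    rw [h1]
    exact (Complex.abs_re_le_norm _).trans e1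
  have e3 : |R.im| ≤ τ * m := by
    have h1 : R.im = (R - 1).im := by simp
    rw [h1]
    exact (Complex.abs_im_le_norm _).trans e1
  have e4 : |R.im - τ * Y.im| ≤ η * τ := by
    have h1 : R.im - τ * Y.im = (R - 1 - τ * Y).im := by simp
    rw [h1]
    exact (Complex.abs_im_le_norm _).trans hR
  have h5 := abs_le.1 e2
  have h6 := abs_le.1 e3
  have h7 : |sin ψ| ≤ 2 * (τ * m) := by
    have h8 : |sin ψ| * R.re ≤ τ * m := by
      have h9 : sin ψ * R.re = -(cos ψ * R.im) := by linarith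
      have h10 : |sin ψ| * R.re = |cos ψ| * |R.im| := by
        have hre : 0 ≤ R.re := by linarith
        calc |sin ψ| * R.re = |sin ψ * R.re| := by rw [abs_mul, abs_of_nonneg hre]
          _ = |cos ψ| * |R.im| := by rw [h9, abs_neg, abs_mul]
      rw [h10]
      have h11 := abs_cos_le_one ψ
      nlinarith [abs_nonneg R.im, abs_nonneg (cos ψ)]
    nlinarith [abs_nonneg (sin ψ)]
  have h8 : |ψ| ≤ 4 * (τ * m) := by
    have h9 := Real.mul_abs_le_abs_sin hψ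
    have hpi := Real.pi_pos
    have hpi4 := Real.pi_le_four
    have h10 : |ψ| = π / 2 * (2 / π * |ψ|) := by field_simp
    rw [h10]
    have h11 : π / 2 ≤ 2 := by linarith
    have h12 : 0 ≤ 2 / π * |ψ| := by positivity
    have h13 : 2 / π * |ψ| ≤ 2 * (τ * m) := h9.trans h7
    calc π / 2 * (2 / π * |ψ|) ≤ 2 * (2 * (τ * m)) := by
          apply mul_le_mul h11 h13 h12 (by norm_num)
      _ = 4 * (τ * m) := by ring
  have h9 : |ψ| ≤ 1 := h8.trans h4
  have h10 : |sin ψ - ψ| ≤ |ψ| ^ 2 := by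
    have h11 := Real.sin_bound h9
    have h12 : sin ψ - ψ = (sin ψ - (ψ - ψ ^ 3 / 6)) + (-(ψ ^ 3 / 6)) := by ring
    rw [h12]
    refine (abs_add_le _ _).trans ?_
    rw [abs_neg, abs_div, abs_pow, abs_of_pos (by norm_num : (0:ℝ) < 6)]
    have h13 := abs_nonneg ψ
    have h14 : |ψ| ^ 5 ≤ |ψ| ^ 2 := pow_le_pow_of_le_one h13 h9 (by norm_num)
    have h15 : |ψ| ^ 3 ≤ |ψ| ^ 2 := pow_le_pow_of_le_one h13 h9 (by norm_num)
    have h16 : 0 ≤ |ψ| ^ 2 := by positivity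
    linarith
  have h11 : |1 - cos ψ| ≤ |ψ| ^ 2 / 2 := by
    rw [abs_of_nonneg (by linarith [cos_le_one ψ]), sq_abs]
    linarith [Real.one_sub_sq_div_two_le_cos (x := ψ)]
  have h12 : |ψ| ^ 2 ≤ 16 * (τ * m) ^ 2 := by
    have := pow_le_pow_left₀ (abs_nonneg ψ) h8 2
    nlinarith
  have h13 : ψ + τ * Y.im = -(sin ψ - ψ) + (-(sin ψ * (R.re - 1))) + (1 - cos ψ) * R.im +
      (-(R.im - τ * Y.im)) := by linear_combination h
  rw [h13]
  have h14 : |sin ψ * (R.re - 1)| ≤ 2 * (τ * m) * (τ * m) := by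
    rw [abs_mul]
    exact mul_le_mul h7 e2 (abs_nonneg _) (by positivity)
  have h15 : |(1 - cos ψ) * R.im| ≤ 8 * (τ * m) ^ 2 * 1 := by
    rw [abs_mul]
    exact mul_le_mul (h11.trans (by linarith)) (e3.trans (by linarith)) (abs_nonneg _)
      (by positivity)
  refine (abs_add_le _ _).trans ?_
  refine (add_le_add (abs_add_le _ _) le_rfl).trans ?_
  refine (add_le_add (add_le_add (abs_add_le _ _) le_rfl) le_rfl).trans ?_
  rw [abs_neg, abs_neg, abs_neg]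
  nlinarith

/-- products of small perturbations of one -/
theorem prod_small {τ L : ℝ} {a b c : ℂ} (hτ : 0 < τ) (hτ1 : τ ≤ 1) (hL : 0 ≤ L) (ha : ‖a‖ ≤ L)
    (hb : ‖b‖ ≤ L) (hc : ‖c‖ ≤ L) :
    ‖(1 + τ * a) * (1 + τ * b) * (1 + τ * c) - 1 - τ * (a + b + c)‖ ≤
      τ ^ 2 * (3 * L ^ 2 + L ^ 3) := by
  have e : (1 + (τ:ℂ) * a) * (1 + τ * b) * (1 + τ * c) - 1 - τ * (a + b + c) =
      (τ:ℂ) ^ 2 * (a * b + a * c + b * c + τ * (a * b * c)) := by ring
  have hab : ‖a * b‖ ≤ L * L := by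
    rw [norm_mul]; exact mul_le_mul ha hb (norm_nonneg _) hL
  have hac : ‖a * c‖ ≤ L * L := by
    rw [norm_mul]; exact mul_le_mul ha hc (norm_nonneg _) hL
  have hbc : ‖b * c‖ ≤ L * L := by
    rw [norm_mul]; exact mul_le_mul hb hc (norm_nonneg _) hL
  have habc : ‖(τ:ℂ) * (a * b * c)‖ ≤ L ^ 3 := by
    rw [norm_mul, norm_mul (a * b), Complex.norm_real, Real.norm_of_nonneg hτ.le]
    have h1 : ‖a * b‖ * ‖c‖ ≤ L * L * L := mul_le_mul hab hc (norm_nonneg _) (by positivity)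
    have h2 : 0 ≤ ‖a * b‖ * ‖c‖ := by positivity
    nlinarith
  rw [e, norm_mul, norm_pow, Complex.norm_real, Real.norm_of_nonneg hτ.le]
  refine mul_le_mul_of_nonneg_left ?_ (by positivity)
  refine (norm_add_le _ _).trans ?_
  refine (add_le_add (norm_add_le _ _) le_rfl).trans ?_
  refine (add_le_add (add_le_add (norm_add_le _ _) le_rfl) le_rfl).trans ?_
  nlinarith

/-! ### uniform bounds for periodic functions -/

theorem red_im (z : ℂ) : ∃ m : ℤ, (z + m * (2 * π * Complex.I)).re = z.re ∧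
    0 ≤ (z + m * (2 * π * Complex.I)).im ∧ (z + m * (2 * π * Complex.I)).im ≤ 2 * π := by
  have hpi := Real.pi_pos
  have him : ∀ m : ℤ, (z + m * (2 * π * Complex.I)).im = z.im + m * (2 * π) := by
    intro m
    simp
  have hre : ∀ m : ℤ, (z + m * (2 * π * Complex.I)).re = z.re := by
    intro m
    simp
  refine ⟨-⌊z.im / (2 * π)⌋, hre _, ?_, ?_⟩
  · rw [him]
    have h1 := Int.floor_le (z.im / (2 * π))
    rw [le_div_iff₀ (by positivity)] at h1
    push_cast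
    linarith
  · rw [him]
    have h1 := (Int.lt_floor_add_one (z.im / (2 * π))).le
    rw [div_le_iff₀ (by positivity)] at h1
    push_cast
    linarith

theorem box_compact (a b c d : ℝ) : IsCompact {z : ℂ | z.re ∈ Icc a b ∧ z.im ∈ Icc c d} := by
  have h1 : IsCompact ((Icc a b) ×ℂ (Icc c d)) :=
    isCompact_Icc.reProdIm isCompact_Icc
  exact h1

theorem per_bound {E : Type} [NormedAddCommGroup E] {g : ℂ → E} {J : Set ℝ}
    (hg : ContinuousOn g {z | z.re ∈ J}) (hp : ∀ z, g (z + 2 * π * Complex.I) = g z) {a b : ℝ}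
    (hab : Icc a b ⊆ J) : ∃ K : ℝ, 1 ≤ K ∧ ∀ z : ℂ, z.re ∈ Icc a b → ‖g z‖ ≤ K := by
  obtain ⟨K, hK⟩ := (box_compact a b 0 (2 * π)).exists_bound_of_continuousOn
    (f := g) (hg.mono fun z hz => hab hz.1)
  refine ⟨max K 1, le_max_right _ _, fun z hz => ?_⟩
  obtain ⟨m, h1, h2, h3⟩ := red_im z
  have e : g (z + m * (2 * π * Complex.I)) = g z :=
    (Function.Periodic.int_mul (c := (2 * π * Complex.I : ℂ)) hp m) z
  rw [← e]
  exact (hK _ ⟨by rw [h1]; exact hz, h2, h3⟩).trans (le_max_left _ _)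

theorem per_unif {E : Type} [NormedAddCommGroup E] {g : ℂ → E} {J : Set ℝ}
    (hg : ContinuousOn g {z | z.re ∈ J}) (hp : ∀ z, g (z + 2 * π * Complex.I) = g z) {a b : ℝ}
    (hab : Icc a b ⊆ J) {η : ℝ} (hη : 0 < η) : ∃ δ : ℝ, 0 < δ ∧ ∀ z w : ℂ, z.re ∈ Icc a b →
      w.re ∈ Icc a b → ‖w - z‖ ≤ δ → ‖g w - g z‖ ≤ η := by
  have h1 : UniformContinuousOn g {z : ℂ | z.re ∈ Icc a b ∧ z.im ∈ Icc (-1) (2 * π + 1)} :=
    (box_compact a b (-1) (2 * π + 1)).uniformContinuousOn_of_continuous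
      (hg.mono fun z hz => hab hz.1)
  rw [Metric.uniformContinuousOn_iff] at h1
  obtain ⟨δ, hδ, h2⟩ := h1 η hη
  refine ⟨min (δ / 2) 1, by positivity, fun z w hz hw hzw => ?_⟩
  obtain ⟨m, e1, e2, e3⟩ := red_im z
  have hzp : g (z + m * (2 * π * Complex.I)) = g z :=
    (Function.Periodic.int_mul (c := (2 * π * Complex.I : ℂ)) hp m) z
  have hwp : g (w + m * (2 * π * Complex.I)) = g w :=
    (Function.Periodic.int_mul (c := (2 * π * Complex.I : ℂ)) hp m) w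
  rw [← hzp, ← hwp, ← dist_eq_norm]
  have hre : (w + m * (2 * π * Complex.I)).re = w.re := by simp
  have him : (w + m * (2 * π * Complex.I)).im - (z + m * (2 * π * Complex.I)).im = (w - z).im := by
    simp
  have h3 := Complex.abs_im_le_norm (w - z)
  have h4 := abs_le.1 (h3.trans (hzw.trans (min_le_right _ _)))
  refine (h2 _ ⟨by rw [hre]; exact hw, ?_, ?_⟩ _ ⟨by rw [e1]; exact hz, ?_, ?_⟩ ?_).le
  · linarith [h4.1]
  · linarith [h4.2]
  · linarith
  · linarith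
  · rw [dist_eq_norm, add_sub_add_right_eq_sub]
    refine (hzw.trans (min_le_left _ _)).trans_lt ?_
    linarith

theorem fderiv_per {g : ℂ → ℂ} (hp : ∀ z, g (z + 2 * π * Complex.I) = g z) (z : ℂ) :
    fderiv ℝ g (z + 2 * π * Complex.I) = fderiv ℝ g z := by
  rw [← fderiv_comp_add_right]
  congr 1
  funext w
  exact hp w

theorem wg_eq (p q : ℂ) : wg p q = ((starRingEnd ℂ) p * q).im := by
  unfold wg
  simp only [Complex.mul_im, Complex.conj_re, Complex.conj_im]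
  ring

theorem taylor {F : ℂ → ℂ} {J : Set ℝ} (hJ : IsOpen J) (hF : ContDiffOn ℝ 1 F {z | z.re ∈ J})
    {a b : ℝ} (hab : Icc a b ⊆ J) {η δ : ℝ}
    (h : ∀ z w : ℂ, z.re ∈ Icc a b → w.re ∈ Icc a b → ‖w - z‖ ≤ δ →
      ‖fderiv ℝ F w - fderiv ℝ F z‖ ≤ η) {z w : ℂ} (hz : z.re ∈ Icc a b) (hw : w.re ∈ Icc a b)
    (hzw : ‖w - z‖ ≤ δ) : ‖F w - F z - fderiv ℝ F z (w - z)‖ ≤ η * ‖w - z‖ := by
  have hδ : 0 ≤ δ := (norm_nonneg _).trans hzw
  have hc : Convex ℝ ({x : ℂ | x.re ∈ Icc a b} ∩ Metric.closedBall z δ) := by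
    refine Convex.inter ?_ (convex_closedBall _ _)
    exact (convex_Icc a b).is_linear_preimage
      (Complex.reCLM.isBoundedLinearMap.toIsLinearMap)
  refine Convex.norm_image_sub_le_of_norm_fderiv_le' (𝕜 := ℝ) (f := F) (φ := fderiv ℝ F z)
    (C := η) (s := {x : ℂ | x.re ∈ Icc a b} ∩ Metric.closedBall z δ) ?_ ?_ hc ?_ ?_
  · intro x hx
    exact (W_at hJ hF (hab hx.1)).hasFDerivAt.differentiableAt
  · intro x hx
    refine h z x hz hx.1 ?_
    have := hx.2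
    rwa [mem_closedBall_iff_norm] at this
  · exact ⟨hz, Metric.mem_closedBall_self hδ⟩
  · exact ⟨hw, by rwa [mem_closedBall_iff_norm]⟩

theorem t_T3 : S_T3 := by
  intro F W J hJ hF hW hFp hWp hF0 a b hab ε hε
  have hJo := hJ.1
  have hso := strip_open hJo
  obtain ⟨K1, hK1, hb1⟩ := per_bound hW.continuousOn hWp hab
  obtain ⟨K2, hK2, hb2⟩ := per_bound (hW.continuousOn_fderiv_of_isOpen hso le_rfl)
    (fderiv_per hWp) hab
  have hDFc : ContinuousOn (fderiv ℝ F) {z : ℂ | z.re ∈ J} :=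
    hF.continuousOn_fderiv_of_isOpen hso le_rfl
  obtain ⟨K3, hK3, hb3⟩ := per_bound hDFc (fderiv_per hFp) hab
  obtain ⟨K4, hK4, hb4⟩ := per_bound (g := fun z => (F z)⁻¹) (hF.continuousOn.inv₀ hF0)
    (fun z => by rw [hFp]) hab
  obtain ⟨K, hK, k1, k2, k3, k4⟩ : ∃ K : ℝ, 1 ≤ K ∧ K1 ≤ K ∧ K2 ≤ K ∧ K3 ≤ K ∧ K4 ≤ K :=
    ⟨K1 + K2 + K3 + K4, by linarith, by linarith, by linarith, by linarith, by linarith⟩
  have hK0 : 0 ≤ K := by linarith
  obtain ⟨L, hL⟩ : ∃ L : ℝ, L = K ^ 3 + K ^ 2 + K := ⟨_, rfl⟩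
  obtain ⟨m, hm⟩ : ∃ m : ℝ, m = K ^ 3 + 2 * K + 1 := ⟨_, rfl⟩
  obtain ⟨P, hP⟩ : ∃ P : ℝ, P = K ^ 2 + (3 * L ^ 2 + L ^ 3) + 26 * m ^ 2 + 4 * m := ⟨_, rfl⟩
  have hK3p : 0 ≤ K ^ 3 := by positivity
  have hK2p : 0 ≤ K ^ 2 := by positivity
  have hL0 : 0 ≤ L := by rw [hL]; positivity
  have hm1 : 1 ≤ m := by rw [hm]; linarith
  have hL3 : 0 ≤ 3 * L ^ 2 + L ^ 3 := by positivity
  have hm2 : 0 ≤ 26 * m ^ 2 := by positivity
  have hP0 : 0 < P := by rw [hP]; linarith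
  obtain ⟨ε', hε', he1, he2⟩ : ∃ ε' : ℝ, 0 < ε' ∧ ε' ≤ ε ∧ ε' ≤ 1 :=
    ⟨min ε 1, lt_min hε one_pos, min_le_left _ _, min_le_right _ _⟩
  have hKp : 0 < K := by linarith
  have hη1 : 0 < ε' / (2 * K ^ 2) := by positivity
  obtain ⟨δ', hδ', hunif⟩ := per_unif hDFc (fderiv_per hFp) hab hη1
  refine ⟨min 1 (min (ε' / (4 * P)) (δ' / K)), by positivity, ?_⟩
  intro z φ α β τ hz hτ hτδ hz' hψ hρ hw
  obtain ⟨ρ, hρ0, hρ⟩ := hρ
  have t1 : τ ≤ 1 := hτδ.trans (min_le_left _ _)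
  have t2 : τ * P ≤ ε' / 4 := by
    have h1 : τ ≤ ε' / (4 * P) := hτδ.trans ((min_le_right _ _).trans (min_le_left _ _))
    rw [le_div_iff₀ (by positivity)] at h1
    linarith
  have t3 : τ * K ≤ δ' := by
    have h1 : τ ≤ δ' / K := hτδ.trans ((min_le_right _ _).trans (min_le_right _ _))
    rwa [le_div_iff₀ hKp] at h1
  have t4 : τ * (K ^ 2 + (3 * L ^ 2 + L ^ 3)) ≤ ε' / 4 := by
    refine le_trans (mul_le_mul_of_nonneg_left ?_ hτ.le) t2
    rw [hP]; linarith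
  have t5 : 4 * (τ * m) ≤ 1 := by
    have h1 : τ * (4 * m) ≤ ε' / 4 := by
      refine le_trans (mul_le_mul_of_nonneg_left ?_ hτ.le) t2
      rw [hP]; linarith
    linarith
  have t6 : 26 * (τ * m) ^ 2 ≤ ε' / 4 * τ := by
    have h1 : τ * (26 * m ^ 2) ≤ ε' / 4 := by
      refine le_trans (mul_le_mul_of_nonneg_left ?_ hτ.le) t2
      rw [hP]; linarith
    nlinarith
  have hwb : ‖W z‖ ≤ K := (hb1 z hz).trans k1
  have hdw : ‖fderiv ℝ W z‖ ≤ K := (hb2 z hz).trans k2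
  have hdf : ‖fderiv ℝ F z‖ ≤ K := (hb3 z hz).trans k3
  have hfi : ‖(F z)⁻¹‖ ≤ K := (hb4 z hz).trans k4
  have hFz : F z ≠ 0 := hF0 z (hab hz)
  have hτc : (τ : ℂ) ≠ 0 := by exact_mod_cast hτ.ne'
  -- the parts
  obtain ⟨X, hX⟩ : ∃ X : ℂ, X = fderiv ℝ W z (Complex.exp (φ * Complex.I)) *
    Complex.exp (-(φ * Complex.I)) := ⟨_, rfl⟩
  obtain ⟨V, hV⟩ : ∃ V : ℂ, V = fderiv ℝ F z (W z) / F z := ⟨_, rfl⟩
  have hXn : ‖X‖ ≤ K := by
    rw [hX, norm_mul]
    have e1 : ‖Complex.exp (-((φ:ℂ) * Complex.I))‖ = 1 := by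
      rw [← neg_mul, ← Complex.ofReal_neg, Complex.norm_exp_ofReal_mul_I]
    rw [e1, mul_one]
    refine ((fderiv ℝ W z).le_opNorm _).trans ?_
    rw [Complex.norm_exp_ofReal_mul_I, mul_one]
    exact hdw
  have hVn : ‖V‖ ≤ K ^ 3 := by
    rw [hV, div_eq_mul_inv, norm_mul]
    have h1 : ‖fderiv ℝ F z (W z)‖ ≤ K * K :=
      ((fderiv ℝ F z).le_opNorm _).trans (mul_le_mul hdf hwb (norm_nonneg _) hK0)
    calc ‖fderiv ℝ F z (W z)‖ * ‖(F z)⁻¹‖ ≤ (K * K) * K :=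
          mul_le_mul h1 hfi (norm_nonneg _) (by positivity)
      _ = K ^ 3 := by ring
  obtain ⟨z', hz'e⟩ : ∃ z' : ℂ, z' = z + τ * W z := ⟨_, rfl⟩
  rw [← hz'e] at hz' hw
  have hzz : z' - z = τ * W z := by rw [hz'e]; ring
  have hzn : ‖z' - z‖ ≤ τ * K := by
    rw [hzz, norm_mul, Complex.norm_real, Real.norm_of_nonneg hτ.le]
    exact mul_le_mul_of_nonneg_left hwb hτ.le
  have hT := taylor hJo hF hab hunif hz hz' (hzn.trans t3)
  obtain ⟨eB, heB⟩ : ∃ eB : ℂ, eB = (F z' - F z - fderiv ℝ F z (z' - z)) / (τ * F z) := ⟨_, rfl⟩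
  obtain ⟨eC, heC⟩ : ∃ eC : ℂ, eC = (Complex.exp (-(τ * W z)) - 1 - (-(τ * W z))) / τ := ⟨_, rfl⟩
  have hBn : ‖eB‖ ≤ ε' / 2 := by
    rw [heB, div_eq_mul_inv, mul_inv, norm_mul, norm_mul, norm_inv (τ : ℂ), Complex.norm_real,
      Real.norm_of_nonneg hτ.le]
    calc ‖F z' - F z - fderiv ℝ F z (z' - z)‖ * (τ⁻¹ * ‖(F z)⁻¹‖)
        ≤ (ε' / (2 * K ^ 2) * (τ * K)) * (τ⁻¹ * K) := by
          refine mul_le_mul (hT.trans (mul_le_mul_of_nonneg_left hzn hη1.le)) ?_ (by positivity)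
            (by positivity)
          exact mul_le_mul_of_nonneg_left hfi (by positivity)
      _ = ε' / 2 := by
          field_simp
  have hCn : ‖eC‖ ≤ τ * K ^ 2 := by
    have h1 : ‖-((τ:ℂ) * W z)‖ ≤ τ * K := by
      rw [norm_neg, norm_mul, Complex.norm_real, Real.norm_of_nonneg hτ.le]
      exact mul_le_mul_of_nonneg_left hwb hτ.le
    have h0 : τ * K ≤ 1 := by
      have : τ * K ≤ τ * m := mul_le_mul_of_nonneg_left (by rw [hm]; linarith) hτ.le
      have h3 : 0 ≤ τ * m := by positivity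
      linarith
    have h2 := Complex.norm_exp_sub_one_sub_id_le (h1.trans h0)
    rw [heC, norm_div, Complex.norm_real, Real.norm_of_nonneg hτ.le, div_le_iff₀ hτ]
    refine h2.trans ((pow_le_pow_left₀ (norm_nonneg _) h1 2).trans (le_of_eq ?_))
    ring
  have hCn1 : ‖eC‖ ≤ K ^ 2 := hCn.trans (by nlinarith)
  obtain ⟨A, hA⟩ : ∃ A : ℂ, A = (starRingEnd ℂ) X := ⟨_, rfl⟩
  have hAn : ‖A‖ ≤ K := by rw [hA, RCLike.norm_conj]; exact hXn
  obtain ⟨R, hR⟩ : ∃ R : ℂ, R = (1 + τ * A) * (1 + τ * (V + eB)) * (1 + τ * (-W z + eC)) :=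
    ⟨_, rfl⟩
  have hprod := prod_small (τ := τ) (L := L) (a := A) (b := V + eB) (c := -W z + eC) hτ t1 hL0
    (hAn.trans (by rw [hL]; linarith))
    ((norm_add_le _ _).trans (by rw [hL]; nlinarith))
    ((norm_add_le _ _).trans (by rw [norm_neg, hL]; linarith))
  rw [← hR] at hprod
  have hRY : ‖R - 1 - τ * (A + V - W z)‖ ≤ (ε' / 2 + ε' / 4) * τ := by
    have e1 : R - 1 - τ * (A + V - W z) =
        (R - 1 - τ * (A + (V + eB) + (-W z + eC))) + τ * (eB + eC) := by ring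
    rw [e1]
    refine (norm_add_le _ _).trans ?_
    rw [norm_mul, Complex.norm_real, Real.norm_of_nonneg hτ.le]
    have h2 := norm_add_le eB eC
    have h3 : τ * ‖eB + eC‖ ≤ τ * (ε' / 2 + τ * K ^ 2) :=
      mul_le_mul_of_nonneg_left (h2.trans (add_le_add hBn hCn)) hτ.le
    have h4 : τ * (τ * (K ^ 2 + (3 * L ^ 2 + L ^ 3))) ≤ τ * (ε' / 4) :=
      mul_le_mul_of_nonneg_left t4 hτ.le
    nlinarith
  -- the factors
  have f2 : F z' / F z = 1 + τ * (V + eB) := by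
    rw [heB, hV, hzz]
    have e1 : fderiv ℝ F z ((τ:ℂ) * W z) = τ * fderiv ℝ F z (W z) := by
      rw [← Complex.real_smul, map_smul, Complex.real_smul]
    rw [e1]
    field_simp
    ring
  have f3 : Complex.exp (-(τ * W z)) = 1 + τ * (-W z + eC) := by
    rw [heC]
    field_simp
    ring
  have hrc : (ρ : ℂ) ≠ 0 := by exact_mod_cast hρ0.ne'
  have key : (starRingEnd ℂ) (Complex.exp (φ * Complex.I) +
      τ * fderiv ℝ W z (Complex.exp (φ * Complex.I))) *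
      (Complex.exp (β * Complex.I) * F z' * Complex.exp (-z')) =
      ((1 / ρ : ℝ) : ℂ) * (Complex.exp (((β - α : ℝ) : ℂ) * Complex.I) * R) := by
    have e1 : fderiv ℝ W z (Complex.exp (φ * Complex.I)) = Complex.exp (φ * Complex.I) * X := by
      rw [hX, mul_left_comm, ← Complex.exp_add, add_neg_cancel, Complex.exp_zero, mul_one]
    have e2 : Complex.exp (φ * Complex.I) + τ * fderiv ℝ W z (Complex.exp (φ * Complex.I)) =
        Complex.exp (φ * Complex.I) * (1 + τ * X) := by rw [e1]; ring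
    have e3 : (starRingEnd ℂ) (Complex.exp (φ * Complex.I)) =
        (ρ * (Complex.exp (α * Complex.I) * F z * Complex.exp (-z)))⁻¹ := by
      rw [← hρ, ← Complex.exp_conj, ← Complex.exp_neg]
      congr 1
      simp
    have e4 : (starRingEnd ℂ) (1 + (τ:ℂ) * X) = 1 + τ * A := by
      rw [map_add, map_mul, map_one, Complex.conj_ofReal, hA]
    have e5 : Complex.exp (-z') = Complex.exp (-z) * Complex.exp (-(τ * W z)) := by
      rw [← Complex.exp_add]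
      congr 1
      rw [hz'e]
      ring
    have e6 : Complex.exp (((β - α : ℝ) : ℂ) * Complex.I) =
        Complex.exp (β * Complex.I) * (Complex.exp (α * Complex.I))⁻¹ := by
      rw [← Complex.exp_neg, ← Complex.exp_add]
      congr 1
      push_cast
      ring
    have e7 : F z' = F z * (1 + τ * (V + eB)) := by rw [← f2]; field_simp
    rw [e2, map_mul, e3, e4, e5, e6, hR, f3, e7]
    have g1 := Complex.exp_ne_zero (-z)
    have g2 := Complex.exp_ne_zero (α * Complex.I)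
    push_cast
    field_simp
  have him : sin (β - α) * R.re + cos (β - α) * R.im = 0 := by
    rw [wg_eq, key, Complex.im_ofReal_mul, Complex.mul_im, Complex.exp_ofReal_mul_I_re,
      Complex.exp_ofReal_mul_I_im] at hw
    have h1 : (1 / ρ) ≠ 0 := by positivity
    have h2 := (mul_eq_zero.1 hw).resolve_left h1
    linarith
  have hfin := ang_small (Y := A + V - W z) hτ hm1 (by linarith : ε' / 2 + ε' / 4 ≤ 1) (by
    have h1 : ‖A + V - W z‖ ≤ ‖A‖ + ‖V‖ + ‖W z‖ := by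
      refine (norm_sub_le _ _).trans (add_le_add (norm_add_le _ _) le_rfl)
    rw [hm]
    linarith) hRY hψ t5 him
  have hKf : β - α - τ * Kf F W z φ = β - α + τ * (A + V - W z).im := by
    unfold Kf
    rw [← hX, ← hV, hA, Complex.sub_im, Complex.add_im, Complex.conj_im]
    ring
  rw [hKf]
  refine hfin.trans ?_
  nlinarith

end Pool.Agent.Q65.UM
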