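import Pool.Agent.Q65.UM.T3

/-!
Project UM (helper62), job T4: two closed orbits.
-/

set_option autoImplicit false

namespace Pool.Agent.Q65.UM

open Real Set MeasureTheory Topology Filter
open Pool.Agent.H709R2 (rot wedge field ClosedOrbit)
open Pool.Agent.H709U Pool.Agent.Q62.HU Pool.Agent.Q62.UM

section
variable {X : ℝ × ℝ → ℝ × ℝ} {p : ℝ × ℝ}

theorem FX_cd (hX : ContDiff ℝ 2 X) : ContDiff ℝ 2 (FX X p) := by
  have h1 : ContDiff ℝ 2 fun z : ℂ => pt p z.re z.im := by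
    unfold pt
    have hre : ContDiff ℝ 2 (fun z : ℂ => z.re) := Complex.reCLM.contDiff
    have him : ContDiff ℝ 2 (fun z : ℂ => z.im) := Complex.imCLM.contDiff
    exact (contDiff_const.add (hre.exp.mul (Real.contDiff_cos.comp him))).prodMk
      (contDiff_const.add (hre.exp.mul (Real.contDiff_sin.comp him)))
  exact ec.contDiff.comp (hX.comp h1)

theorem FX_per (z : ℂ) : FX X p (z + 2 * π * Complex.I) = FX X p z := by
  unfold FX pt
  simp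

theorem FX_ne {J : Set ℝ} (h : ∀ z, z ≠ p → lg p z ∈ J → X z ≠ 0) (z : ℂ) (hz : z.re ∈ J) :
    FX X p z ≠ 0 := by
  unfold FX
  rw [Ne, map_eq_zero_iff ec ec.injective]
  exact h _ (pt_ne _ _ _) (by rw [lg_pt]; exact hz)

theorem cu_disjoint (hX : ContDiff ℝ 2 X) {α β : ℝ} (hαβ : |β - α| ≤ π / 2)
    {C C' : Set (ℝ × ℝ)} (hne : C ≠ C') {γ δ : ℝ → ℝ × ℝ} {T S : ℝ} (hc : CU X p α C γ T)
    (hc' : CU X p β C' δ S) : ∀ s t, ec (γ s - p) ≠ ec (δ t - p) := by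
  intro s t hst
  refine orb_disjoint hX hc.orb hc'.orb ?_ ?_ s t ?_
  · rw [← hc.rg, ← hc'.rg]
    exact hne
  · have := Real.pi_pos
    linarith
  · have := ec.injective hst
    exact sub_left_injective this

/-- a tangency compares the angles -/
theorem tang (_hX : ContDiff ℝ 2 X) {J U : Set ℝ} {W : ℂ → ℂ} (hJ : OI J) (hUJ : U ⊆ J)
    (hX0 : ∀ z, z ≠ p → lg p z ∈ J → X z ≠ 0) (hW : Mv W J U) {a b : ℝ}
    (hab : Icc a b ⊆ U) {ε δ : ℝ}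
    (h3 : ∀ (z : ℂ) (φ α β τ : ℝ), z.re ∈ Icc a b → 0 < τ → τ ≤ δ →
      (z + τ * W z).re ∈ Icc a b → |β - α| ≤ π / 2 →
      (∃ ρ : ℝ, 0 < ρ ∧ Complex.exp (φ * Complex.I) =
        ρ * (Complex.exp (α * Complex.I) * FX X p z * Complex.exp (-z))) →
      wg (Complex.exp (φ * Complex.I) + τ * fderiv ℝ W z (Complex.exp (φ * Complex.I)))
        (Complex.exp (β * Complex.I) * FX X p (z + τ * W z) * Complex.exp (-(z + τ * W z))) = 0 →
      |β - α - τ * Kf (FX X p) W z φ| ≤ ε * τ)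
    {α β : ℝ} (hαβ : |β - α| ≤ π / 2) {C C' : Set (ℝ × ℝ)}
    (h : ZU X p (Icc a b) α C) (h' : ZU X p (Icc a b) β C')
    {γ η : ℝ → ℝ × ℝ} {T S : ℝ} (hc : CU X p α C γ T) (hc' : CU X p β C' η S)
    (hd : ∀ s t, ec (γ s - p) ≠ ec (η t - p)) (t1 : Q62.UM.S_T1) {M : ℝ → ℂ} {k : ℤ}
    (hMe : ∀ t, Complex.exp (M t) = ec (γ t - p)) (hMre : ∀ t, (M t).re = lg p (γ t))
    (hMd : ∀ t, HasDerivAt M (Complex.exp (α * Complex.I) * FX X p (M t) * Complex.exp (-M t)) t)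
    (hMc : Continuous fun t => Complex.exp (α * Complex.I) * FX X p (M t) * Complex.exp (-M t))
    (hMp : ∀ t, M (t + T) = M t + k * (2 * π * Complex.I)) {τ₁ : ℝ} (hτ₁ : 0 < τ₁)
    (hτδ : τ₁ ≤ δ)
    (hm : ∃ s t, Complex.exp (M s + τ₁ * W (M s)) = ec (η t - p)) :
    ∃ (τ₀ : ℝ) (z : ℂ) (φ : ℝ), 0 < τ₀ ∧ τ₀ ≤ τ₁ ∧ z.re ∈ U ∧
      |β - α - τ₀ * Kf (FX X p) W z φ| ≤ ε * τ₀ := by
  have hMI : ∀ t, (M t).re ∈ Icc a b := fun t => by
    rw [hMre]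
    exact h.mem _ (by rw [hc.rg]; exact ⟨t, rfl⟩)
  obtain ⟨τ₀, h0, h01, s, t, hst, hw⟩ := t1 M _ T k W J _ _ S hJ.1 hc.cur.pos hMd hMc hMp
    (fun t => hUJ (hab (hMI t))) hW.c1 hW.per hc'.cur (fun s t => by rw [hMe]; exact hd s t) τ₁ hτ₁ hm
  obtain ⟨z, hz⟩ : ∃ z, z = M s := ⟨_, rfl⟩
  have hz1 : z.re ∈ Icc a b := by rw [hz]; exact hMI s
  rw [← hz] at hst hw
  obtain ⟨z', hz'⟩ : ∃ z', z' = z + τ₀ * W z := ⟨_, rfl⟩
  rw [← hz'] at hst
  have hpt : pt p z'.re z'.im = η t := by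
    have e1 : ec (pt p z'.re z'.im - p) = ec (η t - p) := by rw [ec_pt, hst]
    exact sub_left_injective (ec.injective e1)
  have hz'1 : z'.re ∈ Icc a b := by
    have e1 : z'.re = lg p (η t) := by rw [← hpt, lg_pt]
    rw [e1]
    exact h'.mem _ (by rw [hc'.rg]; exact ⟨t, rfl⟩)
  obtain ⟨m, hm⟩ : ∃ m, m = Complex.exp (α * Complex.I) * FX X p z * Complex.exp (-z) := ⟨_, rfl⟩
  have hm0 : m ≠ 0 := by
    rw [hm]
    exact mul_ne_zero (mul_ne_zero (Complex.exp_ne_zero _) (FX_ne hX0 z (hUJ (hab hz1))))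
      (Complex.exp_ne_zero _)
  have hmn : 0 < ‖m‖ := norm_pos_iff.2 hm0
  have harg : (‖m‖ : ℂ) * Complex.exp (m.arg * Complex.I) = m := Complex.norm_mul_exp_arg_mul_I m
  have hmnc : (‖m‖ : ℂ) ≠ 0 := by exact_mod_cast hmn.ne'
  refine ⟨τ₀, z, m.arg, h0, h01, hab hz1, h3 z m.arg α β τ₀ hz1 h0 (h01.trans hτδ)
    (by rw [← hz']; exact hz'1) hαβ ⟨‖m‖⁻¹, by positivity, ?_⟩ ?_⟩
  · rw [← hm, eq_comm, Complex.ofReal_inv, inv_mul_eq_iff_eq_mul₀ hmnc]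
    exact harg.symm
  · rw [← hz']
    rw [← hm] at hw
    have e1 : ec (rf X β (η t)) / ec (η t - p) =
        Complex.exp (β * Complex.I) * FX X p z' * Complex.exp (-z') := by
      have e2 : ec (rf X β (η t)) = Complex.exp (β * Complex.I) * FX X p z' := by
        unfold FX
        rw [hpt, ← ec_rot]
        rfl
      rw [e2, ← hst, Complex.exp_neg, div_eq_mul_inv]
    have e3 : m + τ₀ * fderiv ℝ W z m = (‖m‖ : ℂ) * (Complex.exp (m.arg * Complex.I) +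
        τ₀ * fderiv ℝ W z (Complex.exp (m.arg * Complex.I))) := by
      have e4 : fderiv ℝ W z m = (‖m‖ : ℂ) * fderiv ℝ W z (Complex.exp (m.arg * Complex.I)) := by
        rw [← Complex.real_smul, ← map_smul, Complex.real_smul, harg]
      rw [e4]
      linear_combination (-1 : ℂ) * harg
    rw [e1, e3] at hw
    have e5 : ∀ (r : ℝ) (u v : ℂ), wg ((r : ℂ) * u) v = r * wg u v := by
      intro r u v
      unfold wg
      rw [Complex.re_ofReal_mul, Complex.im_ofReal_mul]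
      ring
    rw [e5] at hw
    exact (mul_eq_zero.1 hw).resolve_left hmn.ne'

end

theorem t_T4 (t1 : Q62.UM.S_T1) (t2 : Q62.UM.S_T2) (t3 : Q62.UM.S_T3) : Q62.UM.S_T4 := by
  intro X p J U Wp Wm B hX hJ hX0 hUJ hB hWp hWm hKp hKm a b hab ε hε
  have habJ : Icc a b ⊆ J := hab.trans hUJ
  have hF : ContDiffOn ℝ 1 (FX X p) {z | z.re ∈ J} := ((FX_cd hX).of_le (by norm_num)).contDiffOn
  obtain ⟨δp, hδp, h3p⟩ := t3 (FX X p) Wp J hJ hF hWp.c1 FX_per hWp.per (FX_ne hX0) a b habJ ε hε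
  obtain ⟨δm, hδm, h3m⟩ := t3 (FX X p) Wm J hJ hF hWm.c1 FX_per hWm.per (FX_ne hX0) a b habJ ε hε
  refine ⟨min δp δm / 2, by positivity, ?_⟩
  intro α β C C' hαβ h h' hne
  obtain ⟨γ, T, hc⟩ := exists_cu hX (U := Icc a b) (fun z h1 h2 => hX0 z h1 (habJ h2)) h
  obtain ⟨η, S, hc'⟩ := exists_cu hX (U := Icc a b) (fun z h1 h2 => hX0 z h1 (habJ h2)) h'
  have hd := cu_disjoint hX hαβ hne hc hc'
  obtain ⟨s₀, hs₀, hs⟩ := hc.lo
  obtain ⟨t₀, ht₀, ht⟩ := hc'.lo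
  obtain ⟨s₁, hs₁, hs'⟩ := hc.hi
  obtain ⟨t₁, ht₁, ht'⟩ := hc'.hi
  have na : ∀ t, ‖ec (γ t - p)‖ = exp (lg p (γ t)) := fun t => norm_ec_sub (hc.ne t)
  have nb : ∀ t, ‖ec (η t - p)‖ = exp (lg p (η t)) := fun t => norm_ec_sub (hc'.ne t)
  obtain ⟨M, k, hk, hMe, -, hMre, hMd, hMc, hMp⟩ := hc.lift
  have hMI : ∀ t, (M t).re ∈ Icc a b := fun t => by
    rw [hMre]
    exact h.mem _ (by rw [hc.rg]; exact ⟨t, rfl⟩)
  have hlogn : ∀ t, log ‖ec (η t - p)‖ = lg p (η t) := fun t => by rw [nb, log_exp]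
  have main : ∀ x : ℝ, x < min δp δm / 2 →
      (∀ W : ℂ → ℂ, Mv W J U → ∃ τ₁ : ℝ, 0 < τ₁ ∧ τ₁ ≤ 2 * x ∧
        ∃ s t, Complex.exp (M s + τ₁ * W (M s)) = ec (η t - p)) → |β - α| ≤ 2 * (B + ε) * x := by
    intro x hx hW
    have hmp := min_le_left δp δm
    have hmm := min_le_right δp δm
    rw [abs_le]
    constructor
    · obtain ⟨τ₁, h0, h1, hm⟩ := hW Wm hWm
      obtain ⟨τ₀, z, φ, g1, g2, g3, g4⟩ := tang hX hJ hUJ hX0 hWm hab h3m hαβ h h' hc hc' hd t1 hMe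
        hMre hMd hMc hMp h0 (by linarith) hm
      have g5 := hKm z φ g3
      have g6 := (abs_le.1 g4).1
      have g7 : τ₀ * (-B) ≤ τ₀ * Kf (FX X p) Wm z φ := mul_le_mul_of_nonneg_left g5 g1.le
      have g8 : (B + ε) * τ₀ ≤ (B + ε) * (2 * x) :=
        mul_le_mul_of_nonneg_left (g2.trans h1) (by linarith)
      nlinarith
    · obtain ⟨τ₁, h0, h1, hm⟩ := hW Wp hWp
      obtain ⟨τ₀, z, φ, g1, g2, g3, g4⟩ := tang hX hJ hUJ hX0 hWp hab h3p hαβ h h' hc hc' hd t1 hMe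
        hMre hMd hMc hMp h0 (by linarith) hm
      have g5 := hKp z φ g3
      have g6 := (abs_le.1 g4).2
      have g7 : τ₀ * Kf (FX X p) Wp z φ ≤ τ₀ * B := mul_le_mul_of_nonneg_left g5 g1.le
      have g8 : (B + ε) * τ₀ ≤ (B + ε) * (2 * x) :=
        mul_le_mul_of_nonneg_left (g2.trans h1) (by linarith)
      nlinarith
  have hmeet := fun (W : ℂ → ℂ) (hW : Mv W J U) => t2 M _ T k W J _ _ S hJ.1 hc.cur.pos hMd hMc hMp
    hk (fun t => habJ (hMI t)) hW.c1 hW.per (fun t => hW.lo _ (hab (hMI t))) hc'.cur hc'.n0 hc'.wd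
  refine ⟨?_, ?_, ?_, ?_⟩
  · intro heq
    refine min_ne hc.cur hc'.cur hd hc.n0 hc'.n0 hc.wd hc'.wd (s₀ := s₀) (t₀ := t₀) ?_ ?_ ?_
    · intro t
      rw [na, na, hs₀, exp_le_exp]
      exact hs t
    · intro t
      rw [nb, nb, ht₀, exp_le_exp]
      exact ht t
    · rw [na, nb, hs₀, ht₀, heq]
  · intro heq
    refine max_ne hc.cur hc'.cur hd hc.n0 hc'.n0 hc.wd hc'.wd (s₀ := s₁) (t₀ := t₁) ?_ ?_ ?_
    · intro t
      rw [na, na, hs₁, exp_le_exp]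
      exact hs' t
    · intro t
      rw [nb, nb, ht₁, exp_le_exp]
      exact ht' t
    · rw [na, nb, hs₁, ht₁, heq]
  · intro hlt hδ
    refine main _ hδ fun W hW => ?_
    have h1 := (hmeet W hW).1 s₀ t₀ (fun s => by rw [hMre, hMre, hs₀]; exact hs s)
      (fun t => by rw [nb, nb, ht₀, exp_le_exp]; exact ht t)
      (by rw [hMre, hs₀, hlogn, ht₀]; exact hlt)
    rw [hMre, hs₀, hlogn, ht₀] at h1
    exact h1
  · intro hlt hδ
    refine main _ hδ fun W hW => ?_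
    have h1 := (hmeet W hW).2 s₁ t₁ (fun s => by rw [hMre, hMre, hs₁]; exact hs' s)
      (fun t => by rw [nb, nb, ht₁, exp_le_exp]; exact ht' t)
      (by rw [hMre, hs₁, hlogn, ht₁]; exact hlt)
    rw [hMre, hs₁, hlogn, ht₁] at h1
    exact h1

end Pool.Agent.Q65.UM
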