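import Pool.Agent.Q97.UM.Stm14
import Pool.Agent.Q14.UM.EK

/-!
# COF: coefficients and lengths
-/

namespace Pool.Agent.Q65.UM

open Filter Topology MeasureTheory Complex Pool.Agent.Q97.UM
open Pool.Agent.Q14.UM (cv_len cvp_len te_len dp_ext dp_cvp dp_te KB' floorXB KB_one qb_len qb_supp mem_PB XB_pos XB_anti geo_le exp_neg_mul_nat exp_neg_le KB_le)

noncomputable section

/-- support bound of the product over the blocks `j₀, ..., j₀ + k - 1` -/
def NBk (D κ : ℝ) (j₀ k : ℕ) : ℕ := ∏ l ∈ Finset.Ico j₀ (j₀ + k), KB' D l ^ R9 κ l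

theorem NBk_succ (D κ : ℝ) (j₀ k : ℕ) : NBk D κ j₀ (k + 1) = KB' D (j₀ + k) ^ R9 κ (j₀ + k) * NBk D κ j₀ k := by
  unfold NBk
  rw [← add_assoc, Finset.prod_Ico_succ_top (by omega), mul_comm]

theorem ebk_len (D κ : ℝ) (a a2 : ℕ → ℂ) (hD : 0 ≤ D) (j₀ k : ℕ) : ∀ n, NBk D κ j₀ k < n → ebk D κ a a2 j₀ k n = 0 := by
  induction k with
  | zero =>
    intro n hn
    unfold ebk
    unfold NBk at hn
    simp at hn
    rw [if_neg (by omega)]
  | succ k ih =>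
    rw [NBk_succ]
    exact cv_len _ _ _ _ (te_len _ _ _ (KB_one D _ hD) (qb_len D a a2 _ hD)) ih

theorem dp_ebk (hd : S_DPM) (D κ : ℝ) (a a2 : ℕ → ℂ) (hD : 0 ≤ D) (t : ℝ) (j₀ k : ℕ) : dp (NBk D κ j₀ k) (ebk D κ a a2 j₀ k) t =
    ∏ l ∈ Finset.Ico j₀ (j₀ + k), TEx (R9 κ l) (zf D a a2 l t) := by
  induction k with
  | zero =>
    unfold dp NBk ebk
    simp
  | succ k ih =>
    rw [NBk_succ, ← add_assoc, Finset.prod_Ico_succ_top (by omega), ← ih]
    have h := dp_te hd _ _ (R9 κ (j₀ + k)) (KB_one D (j₀ + k) hD) (qb_len D a a2 (j₀ + k) hD) t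
    have h2 : TEx (R9 κ (j₀ + k)) (zf D a a2 (j₀ + k) t) =
        dp (KB' D (j₀ + k) ^ R9 κ (j₀ + k)) (te (qb D a a2 (j₀ + k)) (R9 κ (j₀ + k))) t := by
      rw [h]
      rfl
    rw [h2, mul_comm (dp (NBk D κ j₀ k) _ t)]
    exact (hd.1 _ _ _ _ t (te_len _ _ _ (KB_one D _ hD) (qb_len D a a2 _ hD)) (ebk_len D κ a a2 hD j₀ k)).symm

theorem NBk_le (D κ : ℝ) (hD : 0 ≤ D) (hκ : 1 ≤ κ) (j₀ k : ℕ) : (NBk D κ j₀ k : ℝ) ≤ Real.exp (26 * κ * D) := by
  unfold NBk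
  push_cast
  have h1 : ∀ j ∈ Finset.Ico j₀ (j₀ + k), (KB' D j : ℝ) ^ R9 κ j ≤ Real.exp (2 * D * (κ * (10 / 11 : ℝ) ^ j + (1 / 2 : ℝ) ^ j)) := by
    intro j _
    have e1 : (KB' D j : ℝ) ^ R9 κ j ≤ Real.exp (2 * D * Real.exp (-(j : ℝ))) ^ R9 κ j :=
      pow_le_pow_left₀ (Nat.cast_nonneg _) (KB_le D j) _
    refine e1.trans ?_
    rw [← Real.exp_nat_mul]
    apply Real.exp_le_exp.2
    have e2 : (R9 κ j : ℝ) ≤ κ * Real.exp (9 / 10 * (j : ℝ)) + 1 :=
      (Nat.ceil_lt_add_one (by positivity)).le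
    have e3 : Real.exp (-(j : ℝ)) * Real.exp (9 / 10 * (j : ℝ)) = Real.exp (-((1 / 10) * j)) := by
      rw [← Real.exp_add]; congr 1; ring
    have e4 : Real.exp (-((1 / 10 : ℝ) * j)) ≤ (10 / 11 : ℝ) ^ j := by
      apply exp_neg_mul_nat
      have := exp_neg_le (1 / 10) (by norm_num)
      norm_num at this ⊢
      exact this
    have e5 : Real.exp (-(j : ℝ)) ≤ (1 / 2 : ℝ) ^ j := by
      have := exp_neg_mul_nat 1 (1 / 2) (by
        have := exp_neg_le 1 (by norm_num)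
        norm_num at this ⊢
        exact this) j
      simpa using this
    calc (R9 κ j : ℝ) * (2 * D * Real.exp (-(j : ℝ))) ≤ (κ * Real.exp (9 / 10 * (j : ℝ)) + 1) * (2 * D * Real.exp (-(j : ℝ))) := by
          apply mul_le_mul_of_nonneg_right e2 (by positivity)
      _ = 2 * D * (κ * (Real.exp (-(j : ℝ)) * Real.exp (9 / 10 * (j : ℝ))) + Real.exp (-(j : ℝ))) := by ring
      _ ≤ 2 * D * (κ * (10 / 11 : ℝ) ^ j + (1 / 2 : ℝ) ^ j) := by
          rw [e3]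
          apply mul_le_mul_of_nonneg_left _ (by positivity)
          have : κ * Real.exp (-((1 / 10 : ℝ) * j)) ≤ κ * (10 / 11 : ℝ) ^ j := mul_le_mul_of_nonneg_left e4 (by linarith)
          linarith
  have h2 : ∏ j ∈ Finset.Ico j₀ (j₀ + k), (KB' D j : ℝ) ^ R9 κ j ≤
      ∏ j ∈ Finset.Ico j₀ (j₀ + k), Real.exp (2 * D * (κ * (10 / 11 : ℝ) ^ j + (1 / 2 : ℝ) ^ j)) :=
    Finset.prod_le_prod (fun j _ => by positivity) h1
  refine h2.trans ?_
  rw [← Real.exp_sum]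
  apply Real.exp_le_exp.2
  have hsub : Finset.Ico j₀ (j₀ + k) ⊆ Finset.range (j₀ + k) := by
    intro x hx
    rw [Finset.mem_Ico] at hx
    rw [Finset.mem_range]
    exact hx.2
  refine (Finset.sum_le_sum_of_subset_of_nonneg hsub (fun i _ _ => by positivity)).trans ?_
  rw [← Finset.mul_sum, Finset.sum_add_distrib, ← Finset.mul_sum]
  have h3 := geo_le (10 / 11) (by norm_num) (by norm_num) (j₀ + k)
  have h4 := geo_le (1 / 2) (by norm_num) (by norm_num) (j₀ + k)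
  norm_num at h3 h4
  have h5 : κ * ∑ j ∈ Finset.range (j₀ + k), (10 / 11 : ℝ) ^ j + ∑ j ∈ Finset.range (j₀ + k), (1 / 2 : ℝ) ^ j ≤ 13 * κ := by
    have h6 : κ * ∑ j ∈ Finset.range (j₀ + k), (10 / 11 : ℝ) ^ j ≤ κ * 11 := mul_le_mul_of_nonneg_left h3 (by linarith)
    norm_num
    linarith
  calc 2 * D * (κ * ∑ j ∈ Finset.range (j₀ + k), (10 / 11 : ℝ) ^ j + ∑ j ∈ Finset.range (j₀ + k), (1 / 2 : ℝ) ^ j) ≤ 2 * D * (13 * κ) := by
        apply mul_le_mul_of_nonneg_left h5 (by linarith)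
    _ = 26 * κ * D := by ring

theorem NBk_le_M9 (D κ : ℝ) (hD : 0 ≤ D) (hκ : 1 ≤ κ) (j₀ k : ℕ) : NBk D κ j₀ k ≤ M9 D κ := by
  unfold M9
  rw [Nat.le_floor_iff (Real.exp_pos _).le]
  exact NBk_le D κ hD hκ j₀ k

/-! ### smooth support -/

theorem cv_sm (B : ℕ) (f g : ℕ → ℂ) (hf : ∀ n, f n ≠ 0 → n ∈ Nat.smoothNumbers B) (hg : ∀ n, g n ≠ 0 → n ∈ Nat.smoothNumbers B) :
    ∀ n, cv f g n ≠ 0 → n ∈ Nat.smoothNumbers B := by
  intro n hn
  unfold cv at hn
  obtain ⟨p, hp, hne⟩ := Finset.exists_ne_zero_of_sum_ne_zero hn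
  rw [Nat.mem_divisorsAntidiagonal] at hp
  rw [← hp.1]
  exact Nat.mul_mem_smoothNumbers (hf _ (left_ne_zero_of_mul hne)) (hg _ (right_ne_zero_of_mul hne))

theorem one_sm (B : ℕ) : 1 ∈ Nat.smoothNumbers B := by
  rw [Nat.mem_smoothNumbers]
  simp

theorem cvp_sm (B : ℕ) (q : ℕ → ℂ) (hq : ∀ n, q n ≠ 0 → n ∈ Nat.smoothNumbers B) (r : ℕ) :
    ∀ n, cvp q r n ≠ 0 → n ∈ Nat.smoothNumbers B := by
  induction r with
  | zero =>
    intro n hn
    unfold cvp at hn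
    by_cases h : n = 1
    · rw [h]; exact one_sm B
    · rw [if_neg h] at hn
      exact absurd rfl hn
  | succ r ih => exact cv_sm B q _ hq ih

theorem te_sm (B : ℕ) (q : ℕ → ℂ) (hq : ∀ n, q n ≠ 0 → n ∈ Nat.smoothNumbers B) (R : ℕ) :
    ∀ n, te q R n ≠ 0 → n ∈ Nat.smoothNumbers B := by
  intro n hn
  unfold te at hn
  obtain ⟨r, _, hne⟩ := Finset.exists_ne_zero_of_sum_ne_zero hn
  apply cvp_sm B q hq r n
  intro h
  rw [h, zero_div] at hne
  exact hne rfl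

theorem qb_sm (D : ℝ) (hD : 0 ≤ D) (a a2 : ℕ → ℂ) (j : ℕ) :
    ∀ n, qb D a a2 j n ≠ 0 → n ∈ Nat.smoothNumbers (⌊Real.exp D⌋₊ + 1) := by
  intro n hn
  have h1 := qb_supp D a a2 j n hn
  have hp : ∀ p ∈ PB D j, p ∈ Nat.smoothNumbers (⌊Real.exp D⌋₊ + 1) := by
    intro p hp
    obtain ⟨hp1, _, hp3⟩ := mem_PB hp
    apply Nat.mem_smoothNumbers_of_lt hp1.pos
    apply Nat.lt_succ_of_le
    rw [Nat.le_floor_iff (Real.exp_pos _).le]
    have h2 := XB_anti D hD (Nat.zero_le j)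
    have h3 : XB D 0 = Real.exp D := by
      unfold XB
      simp
    rw [h3] at h2
    exact hp3.trans h2
  rw [Finset.mem_union, Finset.mem_image] at h1
  rcases h1 with h1 | ⟨p, hp1, hp2⟩
  · exact hp n h1
  · rw [← hp2, pow_two]
    exact Nat.mul_mem_smoothNumbers (hp p hp1) (hp p hp1)

theorem ebk_sm (D : ℝ) (hD : 0 ≤ D) (κ : ℝ) (a a2 : ℕ → ℂ) (j₀ k : ℕ) :
    ∀ n, ebk D κ a a2 j₀ k n ≠ 0 → n ∈ Nat.smoothNumbers (⌊Real.exp D⌋₊ + 1) := by
  induction k with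
  | zero =>
    intro n hn
    unfold ebk at hn
    by_cases h : n = 1
    · rw [h]; exact one_sm _
    · simp only [if_neg h] at hn
      exact absurd rfl hn
  | succ k ih => exact cv_sm _ _ _ (te_sm _ _ (qb_sm D hD a a2 _) _) ih

/-! ### the penalty -/

theorem pw_coef (hd : S_DPM) (D κ : ℝ) (hD : 1 ≤ D) (a a2 : ℕ → ℂ) (q : ℕ) :
    ∃ (L : ℕ) (f : ℕ → ℂ), 1 ≤ L ∧ Real.log L ≤ 4 * D ∧ (∀ n, L < n → f n = 0) ∧
      (∀ n, f n ≠ 0 → n ∈ Nat.smoothNumbers (⌊Real.exp D⌋₊ + 1)) ∧ ∀ t, dp L f t = pw D κ a a2 q t := by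
  have hD0 : 0 ≤ D := by linarith
  rcases q with _ | j
  · refine ⟨1, fun n => if n = 1 then 1 else 0, le_rfl, ?_, ?_, ?_, ?_⟩
    · simp
      linarith
    · intro n hn
      show (if n = 1 then (1 : ℂ) else 0) = 0
      rw [if_neg (by omega)]
    · intro n hn
      by_cases h : n = 1
      · rw [h]; exact one_sm _
      · simp only [if_neg h] at hn
        exact absurd rfl hn
    · intro t
      unfold dp pw
      simp
  · refine ⟨KB' D j ^ s7 j, fun n => (20 / (R9 κ j : ℂ)) ^ s7 j * cvp (qb D a a2 j) (s7 j) n, ?_, ?_, ?_, ?_, ?_⟩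
    · exact Nat.one_le_pow _ _ (KB_one D j hD0)
    · push_cast
      rw [Real.log_pow]
      have h1 : Real.log (KB' D j) ≤ 2 * D * Real.exp (-(j : ℝ)) := by
        rw [Real.log_le_iff_le_exp (by exact_mod_cast KB_one D j hD0)]
        exact KB_le D j
      have h0 : 0 ≤ Real.log (KB' D j) := Real.log_nonneg (by exact_mod_cast KB_one D j hD0)
      have h2 : (s7 j : ℝ) ≤ Real.exp (7 / 10 * (j : ℝ)) + 1 :=
        (Nat.ceil_lt_add_one (by positivity)).le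
      have h3 : Real.exp (-(j : ℝ)) * Real.exp (7 / 10 * (j : ℝ)) = Real.exp (-((3 / 10) * j)) := by
        rw [← Real.exp_add]; congr 1; ring
      have hj : (0 : ℝ) ≤ j := Nat.cast_nonneg j
      have h4 : Real.exp (-((3 / 10 : ℝ) * j)) ≤ 1 := by
        rw [Real.exp_le_one_iff]; linarith
      have h5 : Real.exp (-(j : ℝ)) ≤ 1 := by
        rw [Real.exp_le_one_iff]; linarith
      calc (s7 j : ℝ) * Real.log (KB' D j) ≤ (Real.exp (7 / 10 * (j : ℝ)) + 1) * (2 * D * Real.exp (-(j : ℝ))) :=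
            mul_le_mul h2 h1 h0 (by positivity)
        _ = 2 * D * (Real.exp (-(j : ℝ)) * Real.exp (7 / 10 * (j : ℝ)) + Real.exp (-(j : ℝ))) := by ring
        _ ≤ 2 * D * (1 + 1) := by
            rw [h3]
            apply mul_le_mul_of_nonneg_left _ (by positivity)
            linarith
        _ = 4 * D := by ring
    · intro n hn
      show (20 / (R9 κ j : ℂ)) ^ s7 j * cvp (qb D a a2 j) (s7 j) n = 0
      rw [cvp_len _ _ (qb_len D a a2 j hD0) _ n hn, mul_zero]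
    · intro n hn
      exact cvp_sm _ _ (qb_sm D hD0 a a2 j) _ n (right_ne_zero_of_mul hn)
    · intro t
      have h1 := dp_cvp hd _ _ (qb_len D a a2 j hD0) t (s7 j)
      have h2 : dp (KB' D j ^ s7 j) (fun n => (20 / (R9 κ j : ℂ)) ^ s7 j * cvp (qb D a a2 j) (s7 j) n) t =
          (20 / (R9 κ j : ℂ)) ^ s7 j * dp (KB' D j ^ s7 j) (cvp (qb D a a2 j) (s7 j)) t := by
        unfold dp
        rw [Finset.mul_sum]
        apply Finset.sum_congr rfl
        intro n _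
        ring
      rw [h2, h1, ← mul_pow]
      show _ = (20 * zf D a a2 j t / (R9 κ j : ℂ)) ^ s7 j
      congr 1
      unfold zf KB'
      ring

theorem t_COF (hd : S_DPM) : S_COF := by
  intro κ D hκ hD a a2 a' a2' j₀ q
  have hD0 : 0 ≤ D := by linarith
  have hlen : ∀ n, M9 D κ < n → ebk D κ a a2 j₀ (JB D - j₀) n = 0 := by
    intro n hn
    exact ebk_len D κ a a2 hD0 j₀ _ n (lt_of_le_of_lt (NBk_le_M9 D κ hD0 hκ _ _) hn)
  have hsm := ebk_sm D hD0 κ a a2 j₀ (JB D - j₀)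
  have hdp : ∀ t, dp (M9 D κ) (ebk D κ a a2 j₀ (JB D - j₀)) t = Ef D κ a a2 j₀ t := by
    intro t
    rw [dp_ext (M9 D κ) (NBk D κ j₀ (JB D - j₀)) _ t hlen (ebk_len D κ a a2 hD0 j₀ _), dp_ebk hd D κ a a2 hD0 t]
    unfold Ef
    rcases le_total j₀ (JB D) with h | h
    · rw [Nat.add_sub_cancel' h]
    · rw [Nat.sub_eq_zero_of_le h, add_zero, Finset.Ico_self, Finset.Ico_eq_empty_of_le h]
  refine ⟨?_, hdp, ?_⟩
  · intro n hn
    constructor
    · have h1 := hsm n hn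
      exact Nat.one_le_iff_ne_zero.2 (Nat.ne_zero_of_mem_smoothNumbers h1)
    · by_contra hc
      push Not at hc
      exact hn (hlen n hc)
  · intro N b hN hND hb
    obtain ⟨L, f, hL1, hL, hfl, hfs, hfd⟩ := pw_coef hd D κ hD a' a2' q
    have hM1 : 1 ≤ M9 D κ := by
      unfold M9
      rw [Nat.le_floor_iff (Real.exp_pos _).le]
      push_cast
      exact Real.one_le_exp (by positivity)
    have hbl : ∀ n, N < n → b n = 0 := by
      intro n hn
      by_contra hc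
      exact absurd (hb n hc).2 (by omega)
    have hbs : ∀ n, b n ≠ 0 → n ∈ Nat.smoothNumbers (⌊Real.exp D⌋₊ + 1) := by
      intro n hn
      apply Nat.mem_smoothNumbers_of_lt (hb n hn).1
      apply Nat.lt_succ_of_le
      rw [Nat.le_floor_iff (Real.exp_pos _).le]
      have h1 : (n : ℝ) ≤ N := by exact_mod_cast (hb n hn).2
      have h2 : (N : ℝ) ≤ Real.exp D := by
        rwa [Real.log_le_iff_le_exp (by exact_mod_cast hN)] at hND
      exact h1.trans h2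
    have hc1 := cv_len _ _ _ _ hlen hfl
    have hc2 := cv_len _ _ _ _ hc1 hbl
    refine ⟨M9 D κ * L * N, cv (cv (ebk D κ a a2 j₀ (JB D - j₀)) f) b, ?_, ?_, ?_, ?_⟩
    · exact Nat.mul_pos (Nat.mul_pos hM1 hL1) hN
    · push_cast
      have p1 : (0 : ℝ) < (M9 D κ : ℝ) := by exact_mod_cast hM1
      have p2 : (0 : ℝ) < (L : ℝ) := by exact_mod_cast hL1
      have p3 : (0 : ℝ) < (N : ℝ) := by exact_mod_cast hN
      rw [Real.log_mul (by positivity) (by positivity), Real.log_mul (by positivity) (by positivity)]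
      have h1 : Real.log (M9 D κ) ≤ 26 * κ * D := by
        rw [Real.log_le_iff_le_exp p1]
        unfold M9
        exact Nat.floor_le (Real.exp_pos _).le
      nlinarith
    · intro n hn
      have h1 := cv_sm _ _ _ (cv_sm _ _ _ hsm hfs) hbs n hn
      refine ⟨Nat.one_le_iff_ne_zero.2 (Nat.ne_zero_of_mem_smoothNumbers h1), ?_, h1⟩
      by_contra hc
      push Not at hc
      exact hn (hc2 n hc)
    · intro t
      rw [← hd.1 _ _ _ _ t hc1 hbl, ← hd.1 _ _ _ _ t hlen hfl, hdp t, hfd t]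

end

end Pool.Agent.Q65.UM
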