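import Pool.Agent.Q97.UM.Stm10

set_option autoImplicit false

/-!
Job DETD of project UM5 (helper97): the size of the derivative of zeta at a simple zero on the critical line.
-/

namespace Pool.Agent.Q65.UM

open Filter Topology Complex
open Pool.Agent.Q97.UM

/-- members of `Zf` are in `zset` -/
theorem mem_zset {F : ℂ → ℂ} {U1 U2 : ℝ} {s : ℂ} (h : s ∈ H370.Zf F U1 U2) : s ∈ H370.zset F U1 U2 := by
  unfold H370.Zf at h
  split_ifs at h with h1
  · exact h1.mem_toFinset.mp h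
  · simp at h

/-- local behaviour at a simple zero on the line -/
theorem simple_lim (γ : ℝ) (h0 : riemannZeta (1 / 2 + γ * I) = 0) (h1 : analyticOrderNatAt riemannZeta (1 / 2 + γ * I) = 1) :
    deriv riemannZeta (1 / 2 + γ * I) ≠ 0 ∧
    Tendsto (fun t : ℝ => Real.log ‖zt t‖ - Real.log |t - γ|) (𝓝[≠] γ)
      (𝓝 (Real.log ‖deriv riemannZeta (1 / 2 + γ * I)‖)) ∧
    ∀ᶠ t : ℝ in 𝓝[≠] γ, zt t ≠ 0 := by
  set ρ : ℂ := 1 / 2 + γ * I with hρ
  have hne1 : ρ ≠ 1 := by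
    intro h
    have := congrArg Complex.re h
    simp [hρ] at this
  have hdiff : DifferentiableAt ℂ riemannZeta ρ := differentiableAt_riemannZeta hne1
  have han : AnalyticAt ℂ riemannZeta ρ := by
    have hopen : IsOpen ({1}ᶜ : Set ℂ) := isOpen_compl_singleton
    have hd : DifferentiableOn ℂ riemannZeta {1}ᶜ := fun s hs =>
      (differentiableAt_riemannZeta hs).differentiableWithinAt
    exact hd.analyticAt (hopen.mem_nhds hne1)
  have hord : analyticOrderAt riemannZeta ρ = 1 := by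
    have h2 : analyticOrderAt riemannZeta ρ ≠ ⊤ := by
      intro h
      rw [analyticOrderNatAt, h] at h1
      simp at h1
    have h3 := Nat.cast_analyticOrderNatAt h2
    rw [h1] at h3
    rw [← h3]
    rfl
  have hder : deriv riemannZeta ρ ≠ 0 := by
    obtain ⟨g, hg, hg0, hgE⟩ := (han.analyticOrderAt_eq_natCast (n := 1)).mp (by rw [hord]; rfl)
    have h4 : HasDerivAt (fun z => (z - ρ) * g z) (g ρ) ρ := by
      have h5 : HasDerivAt (fun z => (z - ρ) * g z) (1 * g ρ + (ρ - ρ) * deriv g ρ) ρ :=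
        ((hasDerivAt_id ρ).sub_const ρ).mul hg.differentiableAt.hasDerivAt
      rwa [sub_self, zero_mul, add_zero, one_mul] at h5
    have h6 : riemannZeta =ᶠ[𝓝 ρ] fun z => (z - ρ) * g z := by
      filter_upwards [hgE] with z hz
      rw [hz, pow_one, smul_eq_mul]
    rw [h6.deriv_eq, h4.deriv]
    exact hg0
  -- the difference quotient along the line
  have hline : HasDerivAt (fun t : ℝ => zt t) (deriv riemannZeta ρ * I) γ := by
    have h5 : HasDerivAt (fun t : ℝ => (1 / 2 + t * I : ℂ)) I γ := by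
      have h6 : HasDerivAt (fun t : ℝ => (t : ℂ)) 1 γ := Complex.ofRealCLM.hasDerivAt
      have h7 := (h6.mul_const I).const_add (1 / 2 : ℂ)
      simpa using h7
    exact (hdiff.hasDerivAt).comp γ h5
  have hslope := hasDerivAt_iff_tendsto_slope.mp hline
  have hnorm : Tendsto (fun t : ℝ => ‖zt t‖ / |t - γ|) (𝓝[≠] γ) (𝓝 ‖deriv riemannZeta ρ‖) := by
    have h8 := hslope.norm
    rw [norm_mul, Complex.norm_I, mul_one] at h8
    refine h8.congr' ?_
    filter_upwards with t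
    have h9 : zt γ = 0 := h0
    rw [slope_def_module, h9, sub_zero, norm_smul, norm_inv, Real.norm_eq_abs]
    rw [div_eq_inv_mul]
  have hpos : ∀ᶠ t : ℝ in 𝓝[≠] γ, 0 < ‖zt t‖ / |t - γ| :=
    hnorm.eventually (lt_mem_nhds (norm_pos_iff.mpr hder))
  have hne : ∀ᶠ t : ℝ in 𝓝[≠] γ, zt t ≠ 0 := by
    filter_upwards [hpos] with t ht h
    rw [h, norm_zero, zero_div] at ht
    exact lt_irrefl _ ht
  refine ⟨hder, ?_, hne⟩
  have hlog := (Real.continuousAt_log (norm_ne_zero_iff.mpr hder)).tendsto.comp hnorm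
  refine hlog.congr' ?_
  filter_upwards [hne, self_mem_nhdsWithin] with t ht htγ
  have h10 : |t - γ| ≠ 0 := abs_ne_zero.mpr (sub_ne_zero.mpr htγ)
  simp only [Function.comp]
  rw [Real.log_div (norm_ne_zero_iff.mpr ht) h10]

/-- one zero: upper bound -/
theorem one_up (δ L x y C₂ G : ℝ) (hδ : 0 < δ) (hδ1 : δ ≤ 1) (hL : 0 ≤ L) (hC : 0 ≤ C₂) (hy : 0 ≤ y)
    (h : G ≤ C₂ / (1 + δ * L * |x|) ^ 2) :
    G ≤ C₂ / δ ^ 2 * (Real.exp (2 * δ * (L * y)) / (1 + L * |x|) ^ 2) := by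
  have hx := abs_nonneg x
  have h1 : δ * (1 + L * |x|) ≤ 1 + δ * L * |x| := by nlinarith
  have h2 : 0 < 1 + L * |x| := by positivity
  have h3 : (δ * (1 + L * |x|)) ^ 2 ≤ (1 + δ * L * |x|) ^ 2 := pow_le_pow_left₀ (by positivity) h1 2
  have h4 : C₂ / (1 + δ * L * |x|) ^ 2 ≤ C₂ / (δ * (1 + L * |x|)) ^ 2 :=
    div_le_div_of_nonneg_left hC (by positivity) h3
  have h5 : (1 : ℝ) ≤ Real.exp (2 * δ * (L * y)) := Real.one_le_exp (by positivity)
  calc G ≤ C₂ / (δ * (1 + L * |x|)) ^ 2 := h.trans h4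
    _ = C₂ / δ ^ 2 * (1 / (1 + L * |x|) ^ 2) := by
        rw [mul_pow]
        field_simp
    _ ≤ C₂ / δ ^ 2 * (Real.exp (2 * δ * (L * y)) / (1 + L * |x|) ^ 2) := by
        refine mul_le_mul_of_nonneg_left ?_ (by positivity)
        exact div_le_div_of_nonneg_right h5 (by positivity)

/-- one zero: the singular part -/
theorem one_sing (δ L r x y : ℝ) (hδ : 0 < δ) (hδ1 : δ ≤ 1) (hL : 0 < L) (hr : 0 < r) (hxr : |x| ≤ r) (hy : 0 ≤ y) :
    max 0 (Real.log (1 / (δ * L * r))) ≤ max 0 (Real.log (1 / (L * r))) +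
      (-Real.log δ * (1 + 1 / δ) ^ 2) * (Real.exp (2 * δ * (L * y)) / (1 + L * |x|) ^ 2) := by
  have hx := abs_nonneg x
  have hld : Real.log δ ≤ 0 := Real.log_nonpos hδ.le hδ1
  have h5 : (1 : ℝ) ≤ Real.exp (2 * δ * (L * y)) := Real.one_le_exp (by positivity)
  have h0 : 0 ≤ (-Real.log δ * (1 + 1 / δ) ^ 2) * (Real.exp (2 * δ * (L * y)) / (1 + L * |x|) ^ 2) := by
    have : 0 ≤ -Real.log δ := by linarith
    positivity
  refine max_le (by positivity) ?_
  by_cases h1 : δ * L * r ≤ 1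
  · have h2 : Real.log (1 / (δ * L * r)) = Real.log (1 / (L * r)) - Real.log δ := by
      rw [one_div, one_div, Real.log_inv, Real.log_inv, mul_assoc, Real.log_mul hδ.ne' (by positivity)]
      ring
    have h3 : L * |x| ≤ 1 / δ := by
      rw [le_div_iff₀ hδ]
      calc L * |x| * δ ≤ L * r * δ := by
            refine mul_le_mul_of_nonneg_right ?_ hδ.le
            exact mul_le_mul_of_nonneg_left hxr hL.le
        _ = δ * L * r := by ring
        _ ≤ 1 := h1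
    have h4 : 1 ≤ (1 + 1 / δ) ^ 2 * (Real.exp (2 * δ * (L * y)) / (1 + L * |x|) ^ 2) := by
      rw [← mul_div_assoc, le_div_iff₀ (by positivity), one_mul]
      calc (1 + L * |x|) ^ 2 ≤ (1 + 1 / δ) ^ 2 := pow_le_pow_left₀ (by positivity) (by linarith) 2
        _ ≤ (1 + 1 / δ) ^ 2 * Real.exp (2 * δ * (L * y)) := le_mul_of_one_le_right (by positivity) h5
    have h6 : -Real.log δ ≤ -Real.log δ * ((1 + 1 / δ) ^ 2 * (Real.exp (2 * δ * (L * y)) / (1 + L * |x|) ^ 2)) :=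
      le_mul_of_one_le_right (by linarith) h4
    rw [h2]
    have h7 := le_max_right 0 (Real.log (1 / (L * r)))
    rw [← mul_assoc] at h6
    linarith
  · rw [not_le] at h1
    have h2 : Real.log (1 / (δ * L * r)) ≤ 0 := by
      refine Real.log_nonpos (by positivity) ?_
      rw [div_le_one (by positivity)]
      exact h1.le
    have h7 := le_max_left 0 (Real.log (1 / (L * r)))
    linarith

/-- the distance -/
theorem dist_eq (s : ℂ) (t : ℝ) : Real.sqrt ((t - s.im) ^ 2 + (1 / 2 - s.re) ^ 2) = ‖s - (1 / 2 + t * I)‖ := by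
  rw [Complex.norm_def, Complex.normSq_apply]
  congr 1
  simp
  ring

theorem SS_nonneg (δ T t : ℝ) : 0 ≤ SS δ T t := by
  unfold SS
  exact Finset.sum_nonneg fun s _ => by positivity

theorem PP_cont (ψ₁ : ℝ → ℝ) (D : ℝ) : Continuous (PP ψ₁ D) := by
  unfold PP
  refine Complex.continuous_re.comp ?_
  refine continuous_finsetSum _ fun n hn => ?_
  rw [Finset.mem_Icc] at hn
  have hn0 : (n : ℂ) ≠ 0 := by
    have : n ≠ 0 := by omega
    exact_mod_cast this
  refine continuous_const.mul ?_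
  refine Continuous.const_cpow ?_ (Or.inl hn0)
  fun_prop

theorem SS_cont (δ T : ℝ) (hT : 1 ≤ T) : Continuous (SS δ T) := by
  unfold SS
  refine continuous_finsetSum _ fun s _ => ?_
  refine continuous_const.mul ?_
  have hL : 0 ≤ Real.log T := Real.log_nonneg hT
  refine Continuous.div continuous_const (by fun_prop) fun t => ?_
  have := abs_nonneg (s.im - t)
  positivity

open Classical in
theorem t_DETD : J_DETD := by
  intro _ hK hQ ψ₁ k₀ hker δ hδ hδ8
  obtain ⟨C₁, hC₁, hQ⟩ := hQ ψ₁ k₀ hker δ hδ hδ8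
  obtain ⟨C₂, hC₂, hK⟩ := hK ψ₁ k₀ hker
  have hδ1 : δ ≤ 1 := by linarith
  have hld : Real.log δ ≤ 0 := Real.log_nonpos hδ.le hδ1
  have hld' : 0 ≤ -Real.log δ := by linarith
  have hκ : 0 ≤ -Real.log δ * (1 + 1 / δ) ^ 2 := by positivity
  have hC2' : 0 ≤ C₂ / δ ^ 2 := by positivity
  refine ⟨C₁ + C₂ + C₂ / δ ^ 2 + (-Real.log δ * (1 + 1 / δ) ^ 2) + (-Real.log δ), by positivity, ?_⟩
  filter_upwards [hQ, Real.tendsto_log_atTop.eventually_ge_atTop (1 / δ), eventually_ge_atTop (16 : ℝ)] with T hQT hL hT16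
  intro ρ hρ h1 h2 hre hm
  have hT0 : 0 < T := by linarith
  have hL0 : 0 < Real.log T := lt_of_lt_of_le (by positivity) hL
  have hD1 : 1 ≤ δ * Real.log T := by
    rw [div_le_iff₀ hδ] at hL
    linarith
  have hD0 : 0 < δ * Real.log T := by linarith
  have hρe : ρ = 1 / 2 + (ρ.im : ℂ) * I := by
    refine Complex.ext ?_ ?_
    · simp [hre]
    · simp
  have hz : riemannZeta ρ = 0 := (mem_zset hρ).2.2.2.2
  obtain ⟨hder, hlim, hne⟩ := simple_lim ρ.im (by rw [← hρe]; exact hz) (by rw [← hρe]; exact hm)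
  rw [← hρe] at hder hlim
  have hPPc := PP_cont ψ₁ (δ * Real.log T)
  have hSSc := SS_cont δ T (by linarith)
  have hSLc : ContinuousAt (fun t : ℝ => ∑ s ∈ (ZD T).erase ρ, (mz s : ℝ) *
      max 0 (Real.log (1 / (Real.log T * ‖s - (1 / 2 + t * I)‖)))) ρ.im := by
    refine tendsto_finsetSum _ fun s hs => ?_
    have hs1 : s ≠ ρ := (Finset.mem_erase.mp hs).1
    have hs2 : s - (1 / 2 + (ρ.im : ℂ) * I) ≠ 0 := by
      rw [← hρe]
      exact sub_ne_zero.mpr hs1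
    have hs3 : Real.log T * ‖s - (1 / 2 + (ρ.im : ℂ) * I)‖ ≠ 0 := mul_ne_zero hL0.ne' (norm_ne_zero_iff.mpr hs2)
    have h5 : ContinuousAt (fun t : ℝ => Real.log T * ‖s - (1 / 2 + (t : ℂ) * I)‖) ρ.im := by
      refine Continuous.continuousAt ?_
      fun_prop
    have h6 : ContinuousAt (fun t : ℝ => Real.log (1 / (Real.log T * ‖s - (1 / 2 + (t : ℂ) * I)‖))) ρ.im :=
      (continuousAt_const.div h5 hs3).log (one_div_ne_zero hs3)
    exact (continuousAt_const.mul (continuousAt_const.max h6))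
  have hgap : ∀ᶠ t : ℝ in 𝓝[≠] ρ.im, |t - ρ.im| < min 1 (1 / (δ * Real.log T)) := by
    have h7 : ∀ᶠ t : ℝ in 𝓝 ρ.im, |t - ρ.im| < min 1 (1 / (δ * Real.log T)) := by
      have h8 := Metric.ball_mem_nhds ρ.im (ε := min 1 (1 / (δ * Real.log T))) (by positivity)
      filter_upwards [h8] with t ht
      rwa [Metric.mem_ball, Real.dist_eq] at ht
    exact h7.filter_mono nhdsWithin_le_nhds
  have hself : ∀ᶠ t : ℝ in 𝓝[≠] ρ.im, t ≠ ρ.im := self_mem_nhdsWithin
  have key : ∀ᶠ t : ℝ in 𝓝[≠] ρ.im,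
      Real.log ‖zt t‖ - Real.log |t - ρ.im| ≤ Real.log (Real.log T) + PP ψ₁ (δ * Real.log T) t +
        (C₁ + C₂ + C₂ / δ ^ 2 + (-Real.log δ * (1 + 1 / δ) ^ 2) + (-Real.log δ)) * (1 + SS δ T t) ∧
      Real.log (Real.log T) + PP ψ₁ (δ * Real.log T) t -
        (C₁ + C₂ + C₂ / δ ^ 2 + (-Real.log δ * (1 + 1 / δ) ^ 2) + (-Real.log δ)) * (1 + SS δ T t) -
        ∑ s ∈ (ZD T).erase ρ, (mz s : ℝ) * max 0 (Real.log (1 / (Real.log T * ‖s - (1 / 2 + t * I)‖))) ≤
        Real.log ‖zt t‖ - Real.log |t - ρ.im| := by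
    filter_upwards [hne, hgap, hself] with t ht1 ht2 ht3
    have hta : |t - ρ.im| < 1 := lt_of_lt_of_le ht2 (min_le_left _ _)
    have htb : δ * Real.log T * |t - ρ.im| ≤ 1 := by
      have h8 := (lt_of_lt_of_le ht2 (min_le_right _ _)).le
      rw [le_div_iff₀ hD0] at h8
      linarith
    have hta' := abs_lt.mp hta
    have ht0 : 0 < |t - ρ.im| := abs_pos.mpr (sub_ne_zero.mpr ht3)
    have hq := hQT t (by linarith) (by linarith) ht1
    -- the sum over the zeros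
    set W := (ZD T).filter (fun s => |s.im - t| ≤ 1) with hW
    have hρW : ρ ∈ W := by
      rw [hW, Finset.mem_filter]
      refine ⟨hρ, ?_⟩
      rw [abs_sub_comm]
      exact hta.le
    have hsplit := Finset.add_sum_erase W (fun s => (mz s : ℝ) * GK k₀ (δ * Real.log T) (t - s.im) (1 / 2 - s.re)) hρW
    have hgρ := (hK (δ * Real.log T) (t - ρ.im) (1 / 2 - ρ.re) hD1 (Or.inl (sub_ne_zero.mpr ht3))).2.2.2
      (by rw [hre]; ring) htb
    have hlogm : Real.log (δ * Real.log T * |t - ρ.im|) = Real.log δ + Real.log (Real.log T) + Real.log |t - ρ.im| := by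
      rw [Real.log_mul hD0.ne' ht0.ne', Real.log_mul hδ.ne' hL0.ne']
    rw [hlogm] at hgρ
    have hgρ' := abs_le.mp hgρ
    -- the other zeros
    set E : ℂ → ℝ := fun s => Real.exp (2 * δ * (Real.log T * |s.re - 1 / 2|)) / (1 + Real.log T * |s.im - t|) ^ 2 with hE
    have hE0 : ∀ s, 0 ≤ E s := fun s => by rw [hE]; positivity
    have hone : ∀ s ∈ W.erase ρ, GK k₀ (δ * Real.log T) (t - s.im) (1 / 2 - s.re) ≤ C₂ / δ ^ 2 * E s ∧
        -(C₂ / δ ^ 2 * E s + (max 0 (Real.log (1 / (Real.log T * ‖s - (1 / 2 + t * I)‖))) +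
          (-Real.log δ * (1 + 1 / δ) ^ 2) * E s)) ≤ GK k₀ (δ * Real.log T) (t - s.im) (1 / 2 - s.re) := by
      intro s hs
      have hs1 := (Finset.mem_erase.mp hs).2
      rw [hW, Finset.mem_filter] at hs1
      have hsz : riemannZeta s = 0 := (mem_zset hs1.1).2.2.2.2
      have hst : s ≠ 1 / 2 + t * I := by
        rintro rfl
        exact ht1 hsz
      have hr : 0 < ‖s - (1 / 2 + t * I)‖ := norm_pos_iff.mpr (sub_ne_zero.mpr hst)
      have huv : t - s.im ≠ 0 ∨ 1 / 2 - s.re ≠ 0 := by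
        by_contra hcon
        push Not at hcon
        apply hst
        refine Complex.ext ?_ ?_
        · simp
          linarith [hcon.2]
        · simp
          linarith [hcon.1]
      obtain ⟨-, hk1, hk2, -⟩ := hK (δ * Real.log T) (t - s.im) (1 / 2 - s.re) hD1 huv
      rw [dist_eq] at hk2
      have hxx : |t - s.im| = |s.im - t| := abs_sub_comm _ _
      rw [hxx] at hk1 hk2
      have hE1 : C₂ / (1 + δ * Real.log T * |s.im - t|) ^ 2 ≤ C₂ / δ ^ 2 * E s :=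
        one_up δ (Real.log T) (s.im - t) |s.re - 1 / 2| C₂ _ hδ hδ1 hL0.le hC₂ (abs_nonneg _) le_rfl
      have hxr : |s.im - t| ≤ ‖s - (1 / 2 + t * I)‖ := by
        have h9 := Complex.abs_im_le_norm (s - (1 / 2 + t * I))
        simpa using h9
      have hE2 := one_sing δ (Real.log T) ‖s - (1 / 2 + t * I)‖ (s.im - t) |s.re - 1 / 2| hδ hδ1 hL0 hr hxr (abs_nonneg _)
      refine ⟨hk1.trans hE1, ?_⟩
      have hE3 : E s = Real.exp (2 * δ * (Real.log T * |s.re - 1 / 2|)) / (1 + Real.log T * |s.im - t|) ^ 2 := rfl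
      rw [← hE3] at hE2
      linarith
    have hSS : SS δ T t = ∑ s ∈ ZD T, (mz s : ℝ) * E s := rfl
    have hsub : W.erase ρ ⊆ ZD T := fun s hs =>
      (Finset.mem_filter.mp ((Finset.mem_erase.mp hs).2)).1
    have hsub2 : W.erase ρ ⊆ (ZD T).erase ρ := fun s hs =>
      Finset.mem_erase.mpr ⟨(Finset.mem_erase.mp hs).1, hsub hs⟩
    have hsE : ∑ s ∈ W.erase ρ, (mz s : ℝ) * E s ≤ SS δ T t := by
      rw [hSS]
      exact Finset.sum_le_sum_of_subset_of_nonneg hsub fun s _ _ => mul_nonneg (Nat.cast_nonneg _) (hE0 s)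
    have hsM : ∑ s ∈ W.erase ρ, (mz s : ℝ) * max 0 (Real.log (1 / (Real.log T * ‖s - (1 / 2 + t * I)‖))) ≤
        ∑ s ∈ (ZD T).erase ρ, (mz s : ℝ) * max 0 (Real.log (1 / (Real.log T * ‖s - (1 / 2 + t * I)‖))) :=
      Finset.sum_le_sum_of_subset_of_nonneg hsub2 fun s _ _ => mul_nonneg (Nat.cast_nonneg _) (le_max_left _ _)
    have hup : ∑ s ∈ W.erase ρ, (mz s : ℝ) * GK k₀ (δ * Real.log T) (t - s.im) (1 / 2 - s.re) ≤
        C₂ / δ ^ 2 * SS δ T t := by
      calc ∑ s ∈ W.erase ρ, (mz s : ℝ) * GK k₀ (δ * Real.log T) (t - s.im) (1 / 2 - s.re)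
          ≤ ∑ s ∈ W.erase ρ, C₂ / δ ^ 2 * ((mz s : ℝ) * E s) := by
            refine Finset.sum_le_sum fun s hs => ?_
            have h9 := mul_le_mul_of_nonneg_left (hone s hs).1 (Nat.cast_nonneg (mz s) : (0 : ℝ) ≤ mz s)
            linarith
        _ = C₂ / δ ^ 2 * ∑ s ∈ W.erase ρ, (mz s : ℝ) * E s := by rw [← Finset.mul_sum]
        _ ≤ C₂ / δ ^ 2 * SS δ T t := mul_le_mul_of_nonneg_left hsE hC2'
    have hlo : -((C₂ / δ ^ 2 + -Real.log δ * (1 + 1 / δ) ^ 2) * SS δ T t +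
        ∑ s ∈ (ZD T).erase ρ, (mz s : ℝ) * max 0 (Real.log (1 / (Real.log T * ‖s - (1 / 2 + t * I)‖)))) ≤
        ∑ s ∈ W.erase ρ, (mz s : ℝ) * GK k₀ (δ * Real.log T) (t - s.im) (1 / 2 - s.re) := by
      have h9 : ∑ s ∈ W.erase ρ, -((C₂ / δ ^ 2 + -Real.log δ * (1 + 1 / δ) ^ 2) * ((mz s : ℝ) * E s) +
          (mz s : ℝ) * max 0 (Real.log (1 / (Real.log T * ‖s - (1 / 2 + t * I)‖)))) ≤
          ∑ s ∈ W.erase ρ, (mz s : ℝ) * GK k₀ (δ * Real.log T) (t - s.im) (1 / 2 - s.re) := by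
        refine Finset.sum_le_sum fun s hs => ?_
        have h10 := mul_le_mul_of_nonneg_left (hone s hs).2 (Nat.cast_nonneg (mz s) : (0 : ℝ) ≤ mz s)
        linarith
      rw [Finset.sum_neg_distrib, Finset.sum_add_distrib, ← Finset.mul_sum] at h9
      have h11 := mul_le_mul_of_nonneg_left hsE (add_nonneg hC2' hκ)
      linarith
    have hmρ : (mz ρ : ℝ) = 1 := by rw [hm]; norm_num
    rw [hmρ, one_mul] at hsplit
    have hS0 := SS_nonneg δ T t
    have hqa := abs_le.mp hq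
    rw [← hsplit] at hqa
    generalize PP ψ₁ (δ * Real.log T) t = p at *
    generalize SS δ T t = S at *
    generalize ∑ s ∈ W.erase ρ, (mz s : ℝ) * GK k₀ (δ * Real.log T) (t - s.im) (1 / 2 - s.re) = G at *
    generalize GK k₀ (δ * Real.log T) (t - ρ.im) (1 / 2 - ρ.re) = g at *
    generalize ∑ s ∈ (ZD T).erase ρ, (mz s : ℝ) * max 0 (Real.log (1 / (Real.log T * ‖s - (1 / 2 + t * I)‖))) = M at *
    have e1 : (C₁ + C₂ + C₂ / δ ^ 2 + (-Real.log δ * (1 + 1 / δ) ^ 2) + (-Real.log δ)) * (1 + S) =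
        C₁ * (1 + S) + C₂ + C₂ * S + C₂ / δ ^ 2 + C₂ / δ ^ 2 * S + (-Real.log δ * (1 + 1 / δ) ^ 2) +
        (-Real.log δ * (1 + 1 / δ) ^ 2) * S + (-Real.log δ) + (-Real.log δ) * S := by ring
    have e2 : (C₂ / δ ^ 2 + -Real.log δ * (1 + 1 / δ) ^ 2) * S =
        C₂ / δ ^ 2 * S + (-Real.log δ * (1 + 1 / δ) ^ 2) * S := by ring
    have p1 : 0 ≤ C₂ * S := mul_nonneg hC₂ hS0
    have p2 : 0 ≤ C₂ / δ ^ 2 * S := mul_nonneg hC2' hS0
    have p3 : 0 ≤ (-Real.log δ * (1 + 1 / δ) ^ 2) * S := mul_nonneg hκ hS0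
    have p4 : 0 ≤ (-Real.log δ) * S := mul_nonneg hld' hS0
    rw [e1]
    rw [e2] at hlo
    constructor
    · linarith [hqa.1, hqa.2, hgρ'.1, hgρ'.2]
    · linarith [hqa.1, hqa.2, hgρ'.1, hgρ'.2]
  have hPt : Tendsto (fun t : ℝ => PP ψ₁ (δ * Real.log T) t) (𝓝[≠] ρ.im) (𝓝 (PP ψ₁ (δ * Real.log T) ρ.im)) :=
    (hPPc.tendsto _).mono_left nhdsWithin_le_nhds
  have hSt : Tendsto (fun t : ℝ => SS δ T t) (𝓝[≠] ρ.im) (𝓝 (SS δ T ρ.im)) :=
    (hSSc.tendsto _).mono_left nhdsWithin_le_nhds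
  have hMt := hSLc.tendsto.mono_left (nhdsWithin_le_nhds (s := {ρ.im}ᶜ))
  have hMe : (∑ s ∈ (ZD T).erase ρ, (mz s : ℝ) *
      max 0 (Real.log (1 / (Real.log T * ‖s - (1 / 2 + (ρ.im : ℂ) * I)‖)))) = ∑ s ∈ (ZD T).erase ρ, (mz s : ℝ) *
      max 0 (Real.log (1 / (Real.log T * ‖s - ρ‖))) := by
    rw [← hρe]
  rw [hMe] at hMt
  constructor
  · refine le_of_tendsto_of_tendsto hlim
      ((tendsto_const_nhds.add hPt).add (tendsto_const_nhds.mul (tendsto_const_nhds.add hSt))) (key.mono fun t h => h.1)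
  · refine le_of_tendsto_of_tendsto
      (((tendsto_const_nhds.add hPt).sub (tendsto_const_nhds.mul (tendsto_const_nhds.add hSt))).sub hMt) hlim
      (key.mono fun t h => h.2)

end Pool.Agent.Q65.UM
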