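import Pool.Agent.Q97.UM.Stm11

set_option autoImplicit false

/-!
Job PMD of project UM5 (helper97): moments of short prime sums at the zeros of zeta.
-/

namespace Pool.Agent.Q65.UM

open Filter Topology Complex
open Pool.Agent.Q97.UM

/-- restriction of a sequence to `[1, N]` -/
noncomputable def rs (N : ℕ) (b : ℕ → ℂ) (n : ℕ) : ℂ := if 1 ≤ n ∧ n ≤ N then b n else 0

theorem rs_dp (N : ℕ) (b : ℕ → ℂ) (t : ℝ) : dp N (rs N b) t = dp N b t := by
  unfold dp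
  refine Finset.sum_congr rfl fun n hn => ?_
  rw [Finset.mem_Icc] at hn
  rw [rs, if_pos hn]

theorem rs_N2 (N : ℕ) (b : ℕ → ℂ) : N2 N (rs N b) = N2 N b := by
  unfold N2
  refine Finset.sum_congr rfl fun n hn => ?_
  rw [Finset.mem_Icc] at hn
  rw [rs, if_pos hn]

theorem rs_zero (N : ℕ) (b : ℕ → ℂ) (n : ℕ) (h : N < n) : rs N b n = 0 := by
  rw [rs, if_neg]
  rintro ⟨_, h2⟩
  omega

/-- iterated convolution -/
noncomputable def itc (α b : ℕ → ℂ) : ℕ → ℕ → ℂ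
  | 0 => b
  | j + 1 => cv α (itc α b j)

theorem cv_zero (X M : ℕ) (α c : ℕ → ℂ) (hα : ∀ n, X < n → α n = 0) (hc : ∀ n, M < n → c n = 0) (n : ℕ)
    (h : X * M < n) : cv α c n = 0 := by
  unfold cv
  refine Finset.sum_eq_zero fun p hp => ?_
  rw [Nat.mem_divisorsAntidiagonal] at hp
  by_cases h1 : X < p.1
  · rw [hα _ h1, zero_mul]
  · by_cases h2 : M < p.2
    · rw [hc _ h2, mul_zero]
    · exfalso
      have h3 : p.1 * p.2 ≤ X * M := Nat.mul_le_mul (not_lt.mp h1) (not_lt.mp h2)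
      omega

theorem itc_zero (X N : ℕ) (α b : ℕ → ℂ) (hα : ∀ n, X < n → α n = 0) (hb : ∀ n, N < n → b n = 0) (j : ℕ) :
    ∀ n, X ^ j * N < n → itc α b j n = 0 := by
  induction j with
  | zero =>
    intro n hn
    exact hb n (by simpa using hn)
  | succ j ih =>
    intro n hn
    refine cv_zero X (X ^ j * N) α (itc α b j) hα ih n ?_
    have h1 : X ^ (j + 1) * N = X * (X ^ j * N) := by ring
    omega

theorem itc_dp (hD : S_DPM) (X N : ℕ) (α b : ℕ → ℂ) (hα : ∀ n, X < n → α n = 0) (hb : ∀ n, N < n → b n = 0) (j : ℕ)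
    (t : ℝ) : dp X α t ^ j * dp N b t = dp (X ^ j * N) (itc α b j) t := by
  induction j with
  | zero => simp [itc]
  | succ j ih =>
    have h1 : X ^ (j + 1) * N = X * (X ^ j * N) := by ring
    rw [h1, itc, ← hD.1 X (X ^ j * N) α (itc α b j) t hα (itc_zero X N α b hα hb j), ← ih]
    ring

theorem N2_nonneg (N : ℕ) (b : ℕ → ℂ) : 0 ≤ N2 N b := by
  unfold N2
  exact Finset.sum_nonneg fun n _ => by positivity

/-- the mean square of the iterated convolution -/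
theorem itc_N2 (C₀ : ℝ) (hC₀ : 1 ≤ C₀)
    (hP : ∀ (X M : ℕ) (A : ℝ) (α c : ℕ → ℂ), 2 ≤ X → 1 ≤ M → 0 ≤ A →
      (∀ n, α n ≠ 0 → n.Prime ∧ n ≤ X) → (∀ n, ‖α n‖ ≤ A * (Real.log n / Real.log X)) → (∀ n, M < n → c n = 0) →
      N2 (X * M) (cv α c) ≤ C₀ * A ^ 2 * (1 + Real.log M / Real.log X) * N2 M c)
    (X N m : ℕ) (A B : ℝ) (α b : ℕ → ℂ) (hX : 2 ≤ X) (hN : 1 ≤ N) (hA : 0 ≤ A)
    (hα : ∀ n, α n ≠ 0 → n.Prime ∧ n ≤ X) (hα2 : ∀ n, ‖α n‖ ≤ A * (Real.log n / Real.log X))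
    (hb : ∀ n, N < n → b n = 0) (hB : Real.log N / Real.log X ≤ B) (j : ℕ) (hj : j ≤ m) :
    N2 (X ^ j * N) (itc α b j) ≤ (C₀ * A ^ 2 * (1 + m + B)) ^ j * N2 N b := by
  have hX1 : (1 : ℝ) < X := by exact_mod_cast hX
  have hlX : 0 < Real.log X := Real.log_pos hX1
  have hlN : 0 ≤ Real.log N := Real.log_natCast_nonneg N
  have hB0 : 0 ≤ B := le_trans (div_nonneg hlN hlX.le) hB
  have hαX : ∀ n, X < n → α n = 0 := by
    intro n hn
    by_contra h
    exact absurd (hα n h).2 (by omega)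
  induction j with
  | zero => simp [itc]
  | succ j ih =>
    have ih' := ih (by omega)
    have h1 : X ^ (j + 1) * N = X * (X ^ j * N) := by ring
    have hM : 1 ≤ X ^ j * N := Nat.one_le_iff_ne_zero.mpr (by positivity)
    have h2 := hP X (X ^ j * N) A α (itc α b j) hX hM hA hα hα2 (itc_zero X N α b hαX hb j)
    rw [h1, itc]
    have h3 : Real.log ((X ^ j * N : ℕ) : ℝ) = j * Real.log X + Real.log N := by
      push_cast
      rw [Real.log_mul (by positivity) (by positivity), Real.log_pow]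
    have h4 : Real.log ((X ^ j * N : ℕ) : ℝ) / Real.log X ≤ m + B := by
      rw [h3, add_div, mul_div_assoc, div_self hlX.ne', mul_one]
      have : (j : ℝ) ≤ m := by exact_mod_cast (by omega : j ≤ m)
      linarith
    have h5 : 0 ≤ C₀ * A ^ 2 := by positivity
    have h6 : C₀ * A ^ 2 * (1 + Real.log ((X ^ j * N : ℕ) : ℝ) / Real.log X) ≤ C₀ * A ^ 2 * (1 + m + B) :=
      mul_le_mul_of_nonneg_left (by linarith) h5
    have h7 : 0 ≤ C₀ * A ^ 2 * (1 + m + B) := by positivity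
    calc N2 (X * (X ^ j * N)) (cv α (itc α b j))
        ≤ C₀ * A ^ 2 * (1 + Real.log ((X ^ j * N : ℕ) : ℝ) / Real.log X) * N2 (X ^ j * N) (itc α b j) := h2
      _ ≤ C₀ * A ^ 2 * (1 + m + B) * N2 (X ^ j * N) (itc α b j) :=
          mul_le_mul_of_nonneg_right h6 (N2_nonneg _ _)
      _ ≤ C₀ * A ^ 2 * (1 + m + B) * ((C₀ * A ^ 2 * (1 + m + B)) ^ j * N2 N b) :=
          mul_le_mul_of_nonneg_left ih' h7
      _ = (C₀ * A ^ 2 * (1 + m + B)) ^ (j + 1) * N2 N b := by ring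

open Classical in
theorem t_PMD : J_PMD := by
  intro hD hP hS
  obtain ⟨C₀, hC₀, hP⟩ := hP
  obtain ⟨θ, hθ0, hθ1, hS⟩ := hS 1 one_pos
  refine ⟨θ / 2, by positivity, by linarith, ?_⟩
  intro m A δ δ' hA hδ' hδδ hmδ
  refine ⟨2 * (C₀ * A ^ 2 * (1 + m + θ / 2 / δ')) ^ m, by positivity, ?_⟩
  have hT2 : ∀ᶠ T : ℝ in atTop, (2 : ℝ) ≤ T ^ δ' := (tendsto_rpow_atTop hδ').eventually_ge_atTop 2
  filter_upwards [hS, hT2, eventually_ge_atTop (3 : ℝ)] with T hST hT2 hT3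
  intro N X hN hX1 hX2 b α hα hα2
  have hT0 : 0 < T := by linarith
  have hT1 : 1 ≤ T := by linarith
  have hL : 0 < Real.log T := Real.log_pos (by linarith)
  have hXr : (2 : ℝ) ≤ X := le_trans hT2 hX1
  have hX : 2 ≤ X := by exact_mod_cast hXr
  have hXp : (0 : ℝ) < X := by linarith
  rcases Nat.eq_zero_or_pos N with hN0 | hN0
  · subst hN0
    have h1 : ∀ s : ℂ, dp 0 b s.im = 0 := by
      intro s
      simp [dp]
    have h2 : N2 0 b = 0 := by simp [N2]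
    rw [h2]
    refine le_of_eq ?_
    rw [mul_zero, mul_zero]
    refine Finset.sum_eq_zero fun s _ => ?_
    rw [h1]
    simp
  have hNr : (0 : ℝ) < N := by exact_mod_cast hN0
  have hB : Real.log N / Real.log X ≤ θ / 2 / δ' := by
    have hlX : δ' * Real.log T ≤ Real.log X := by
      rw [← Real.log_rpow hT0]
      exact Real.log_le_log (by positivity) hX1
    have hlN : Real.log N ≤ θ / 2 * Real.log T := by
      rw [← Real.log_rpow hT0]
      exact Real.log_le_log hNr hN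
    have hlX0 : 0 < δ' * Real.log T := by positivity
    calc Real.log N / Real.log X ≤ (θ / 2 * Real.log T) / (δ' * Real.log T) :=
          div_le_div₀ (by positivity) hlN hlX0 hlX
      _ = θ / 2 / δ' := by field_simp
  have hαX : ∀ n, X < n → α n = 0 := by
    intro n hn
    by_contra h
    exact absurd (hα n h).2 (by omega)
  have hbz : ∀ n, N < n → rs N b n = 0 := fun n hn => rs_zero N b n hn
  have hlen : ((X ^ m * N : ℕ) : ℝ) ≤ T ^ θ := by
    push_cast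
    have h1 : (X : ℝ) ^ m ≤ T ^ (θ / 2) := by
      calc (X : ℝ) ^ m ≤ (T ^ δ) ^ m := pow_le_pow_left₀ hXp.le hX2 m
        _ = T ^ (m * δ) := by rw [← Real.rpow_natCast, ← Real.rpow_mul hT0.le, mul_comm]
        _ ≤ T ^ (θ / 2) := Real.rpow_le_rpow_of_exponent_le hT1 hmδ
    calc (X : ℝ) ^ m * N ≤ T ^ (θ / 2) * T ^ (θ / 2) := mul_le_mul h1 hN hNr.le (by positivity)
      _ = T ^ θ := by rw [← Real.rpow_add hT0]; congr 1; ring
  have hmain := (hST (X ^ m * N) hlen (itc α (rs N b) m)).2.2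
  have hN2 := itc_N2 C₀ hC₀ hP X N m A (θ / 2 / δ') α (rs N b) hX hN0 hA hα hα2 hbz hB m le_rfl
  rw [rs_N2] at hN2
  have hid : ∀ s : ℂ, ‖dp X α s.im‖ ^ (2 * m) * ‖dp N b s.im‖ ^ 2 = ‖dp (X ^ m * N) (itc α (rs N b) m) s.im‖ ^ 2 := by
    intro s
    rw [← itc_dp hD X N α (rs N b) hαX hbz m s.im, rs_dp, norm_mul, norm_pow, mul_pow, ← pow_mul, mul_comm m 2]
  have hsum : (∑ s ∈ H370.Zf riemannZeta T (2 * T), (mz s : ℝ) * (‖dp X α s.im‖ ^ (2 * m) * ‖dp N b s.im‖ ^ 2)) =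
      ∑ s ∈ H370.Zf riemannZeta T (2 * T), (mz s : ℝ) * ‖dp (X ^ m * N) (itc α (rs N b) m) s.im‖ ^ 2 :=
    Finset.sum_congr rfl fun s _ => by rw [hid s]
  rw [hsum]
  have h1 := (abs_le.mp hmain).2
  have hNn := N2_nonneg (X ^ m * N) (itc α (rs N b) m)
  have hpi : Real.log T / (2 * Real.pi) ≤ Real.log T := by
    refine div_le_self hL.le ?_
    linarith [Real.pi_gt_three]
  have hTN : 0 ≤ T * N2 (X ^ m * N) (itc α (rs N b) m) := by positivity
  have h2 := mul_le_mul_of_nonneg_right hpi hTN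
  have h3 : (∑ s ∈ H370.Zf riemannZeta T (2 * T), (mz s : ℝ) * ‖dp (X ^ m * N) (itc α (rs N b) m) s.im‖ ^ 2) ≤
      2 * (Real.log T * (T * N2 (X ^ m * N) (itc α (rs N b) m))) := by linarith
  refine h3.trans ?_
  have h4 : Real.log T * (T * N2 (X ^ m * N) (itc α (rs N b) m)) ≤
      Real.log T * (T * ((C₀ * A ^ 2 * (1 + m + θ / 2 / δ')) ^ m * N2 N b)) :=
    mul_le_mul_of_nonneg_left (mul_le_mul_of_nonneg_left hN2 hT0.le) hL.le
  calc 2 * (Real.log T * (T * N2 (X ^ m * N) (itc α (rs N b) m)))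
      ≤ 2 * (Real.log T * (T * ((C₀ * A ^ 2 * (1 + m + θ / 2 / δ')) ^ m * N2 N b))) := by linarith
    _ = 2 * (C₀ * A ^ 2 * (1 + m + θ / 2 / δ')) ^ m * Real.log T * (T * N2 N b) := by ring

end Pool.Agent.Q65.UM
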