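import Pool.Agent.Q97.UM.Stm14

set_option autoImplicit false

/-!
Job PT2 of project UM8 (helper97): pointwise inequality on the side of zeta.
-/

namespace Pool.Agent.Q65.UM

open Complex
open Pool.Agent.Q97.UM

/-- size of the degree -/
theorem R9_ge (κ : ℝ) (hκ : 4 ≤ κ) (l : ℕ) : 2 * ((l : ℝ) + 1) ≤ (R9 κ l : ℝ) := by
  unfold R9
  refine le_trans ?_ (Nat.le_ceil _)
  have h1 : 9 / 10 * (l : ℝ) + 1 ≤ Real.exp (9 / 10 * (l : ℝ)) := Real.add_one_le_exp _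
  have hl : (0 : ℝ) ≤ l := Nat.cast_nonneg l
  have h2 : 4 * Real.exp (9 / 10 * (l : ℝ)) ≤ κ * Real.exp (9 / 10 * (l : ℝ)) :=
    mul_le_mul_of_nonneg_right hκ (Real.exp_pos _).le
  linarith

theorem R9_pos (κ : ℝ) (hκ : 4 ≤ κ) (l : ℕ) : 1 ≤ R9 κ l := by
  have h1 := R9_ge κ hκ l
  have hl : (0 : ℝ) ≤ l := Nat.cast_nonneg l
  have h2 : (1 : ℝ) ≤ (R9 κ l : ℝ) := by linarith
  exact_mod_cast h2

theorem exp_R9_le (κ : ℝ) (hκ : 4 ≤ κ) (l : ℕ) : Real.exp (-(R9 κ l : ℝ) / 2) ≤ (1 / 2) ^ (l + 1) := by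
  have h1 := R9_ge κ hκ l
  have h2 : Real.exp (-(R9 κ l : ℝ) / 2) ≤ Real.exp (((l + 1 : ℕ) : ℝ) * (-1)) := by
    refine Real.exp_le_exp.mpr ?_
    push_cast
    linarith
  rw [Real.exp_nat_mul] at h2
  refine h2.trans (pow_le_pow_left₀ (Real.exp_pos _).le ?_ _)
  have h3 : (1 : ℝ) + 1 ≤ Real.exp 1 := Real.add_one_le_exp 1
  rw [Real.exp_neg, one_div]
  exact inv_anti₀ (by norm_num) (by linarith)

theorem geom_half (J : ℕ) : ∑ l ∈ Finset.range J, (1 / 2 : ℝ) ^ (l + 1) ≤ 1 - (1 / 2) ^ J := by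
  induction J with
  | zero => simp
  | succ J ih =>
    rw [Finset.sum_range_succ, pow_succ]
    have : (1 / 2 : ℝ) ^ (J + 1) = (1 / 2) ^ J * (1 / 2) := pow_succ _ _
    linarith

/-- the sum of the errors over any set of blocks -/
theorem sum_err (κ : ℝ) (hκ : 4 ≤ κ) (J : ℕ) (S : Finset ℕ) (hS : S ⊆ Finset.range J) :
    ∑ l ∈ S, Real.exp (-(R9 κ l : ℝ) / 2) ≤ 1 := by
  calc ∑ l ∈ S, Real.exp (-(R9 κ l : ℝ) / 2) ≤ ∑ l ∈ Finset.range J, Real.exp (-(R9 κ l : ℝ) / 2) :=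
        Finset.sum_le_sum_of_subset_of_nonneg hS fun _ _ _ => (Real.exp_pos _).le
    _ ≤ ∑ l ∈ Finset.range J, (1 / 2 : ℝ) ^ (l + 1) := Finset.sum_le_sum fun l _ => exp_R9_le κ hκ l
    _ ≤ 1 - (1 / 2) ^ J := geom_half J
    _ ≤ 1 := by
        have : (0 : ℝ) ≤ (1 / 2) ^ J := by positivity
        linarith

/-- logarithmic lower bound for one truncated exponential -/
theorem log_TEx_ge (hT : S_TEX) (R : ℕ) (hR : 2 ≤ R) (w : ℂ) (hw : ‖w‖ ≤ R / 10) :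
    0 < ‖TEx R w‖ ∧ w.re - 2 * Real.exp (-(R : ℝ) / 2) ≤ Real.log ‖TEx R w‖ := by
  have h1 := (hT R w (by omega)).2 hw
  set e := Real.exp (-(R : ℝ) / 2) with he
  have he0 : 0 < e := Real.exp_pos _
  have he1 : e ≤ 1 / 2 := by
    have hR2 : (2 : ℝ) ≤ R := by exact_mod_cast hR
    have h2 : e ≤ Real.exp (-1) := Real.exp_le_exp.mpr (by linarith)
    have h3 : (1 : ℝ) + 1 ≤ Real.exp 1 := Real.add_one_le_exp 1
    refine h2.trans ?_
    rw [Real.exp_neg, one_div]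
    exact inv_anti₀ (by norm_num) (by linarith)
  have hE : 0 < ‖cexp w‖ := norm_pos_iff.mpr (Complex.exp_ne_zero w)
  have h4 : (1 - e) * ‖cexp w‖ ≤ ‖TEx R w‖ := by
    have h5 := norm_sub_norm_le (cexp w) (cexp w - TEx R w)
    have h6 : cexp w - (cexp w - TEx R w) = TEx R w := by ring
    rw [h6, norm_sub_rev (cexp w) (TEx R w)] at h5
    linarith
  have h7 : 0 < (1 - e) * ‖cexp w‖ := mul_pos (by linarith) hE
  refine ⟨lt_of_lt_of_le h7 h4, ?_⟩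
  have h8 := Real.log_le_log h7 h4
  rw [Real.log_mul (by linarith) hE.ne', Complex.norm_exp, Real.log_exp] at h8
  have h9 : -(2 * e) ≤ Real.log (1 - e) := by
    have h10 := Real.one_sub_inv_le_log_of_pos (show 0 < 1 - e by linarith)
    have h11 : (1 - e)⁻¹ ≤ 1 + 2 * e := by
      rw [inv_le_comm₀ (by linarith) (by linarith)]
      rw [inv_le_iff_one_le_mul₀ (by linarith)]
      nlinarith
    linarith
  linarith

/-- weighted arithmetic-geometric mean in the needed form -/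
theorem amgm {m : ℕ} (k ζ B : Fin m → ℝ) (B₀ : ℝ) (hk : ∀ i, 0 ≤ k i) (hk1 : ∑ i, k i ≤ 1) (hζ : ∀ i, 0 ≤ ζ i) :
    (∏ i, ζ i ^ (2 * k i)) * Real.exp (2 * ((1 - ∑ i, k i) * B₀ + ∑ i, k i * B i)) ≤
      Real.exp B₀ ^ 2 + ∑ i, ζ i ^ 2 * Real.exp (B i) ^ 2 := by
  have h := Real.geom_mean_le_arith_mean_weighted (Finset.univ : Finset (Option (Fin m)))
    (fun o => o.elim (1 - ∑ i, k i) k) (fun o => o.elim (Real.exp B₀ ^ 2) (fun i => (ζ i * Real.exp (B i)) ^ 2))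
    (by
      intro o _
      cases o with
      | none =>
        change 0 ≤ 1 - ∑ i, k i
        linarith
      | some i => exact hk i)
    (by
      rw [Fintype.sum_option]
      change (1 - ∑ i, k i) + ∑ i, k i = 1
      ring)
    (by
      intro o _
      cases o with
      | none =>
        change 0 ≤ Real.exp B₀ ^ 2
        positivity
      | some i =>
        change 0 ≤ (ζ i * Real.exp (B i)) ^ 2
        positivity)
  rw [Fintype.prod_option, Fintype.sum_option] at h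
  change (Real.exp B₀ ^ 2) ^ (1 - ∑ i, k i) * ∏ i, ((ζ i * Real.exp (B i)) ^ 2) ^ k i ≤
    (1 - ∑ i, k i) * Real.exp B₀ ^ 2 + ∑ i, k i * (ζ i * Real.exp (B i)) ^ 2 at h
  have e1 : (Real.exp B₀ ^ 2) ^ (1 - ∑ i, k i) = Real.exp (2 * ((1 - ∑ i, k i) * B₀)) := by
    rw [← Real.exp_nat_mul, ← Real.exp_mul]
    congr 1
    push_cast
    ring
  have e2 : ∀ i, ((ζ i * Real.exp (B i)) ^ 2) ^ k i = ζ i ^ (2 * k i) * Real.exp (2 * (k i * B i)) := by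
    intro i
    rw [mul_pow, Real.mul_rpow (by positivity) (by positivity)]
    congr 1
    · rw [← Real.rpow_natCast, ← Real.rpow_mul (hζ i)]
      norm_num
    · rw [← Real.exp_nat_mul, ← Real.exp_mul]
      congr 1
      push_cast
      ring
  rw [e1, Finset.prod_congr rfl fun i _ => e2 i, Finset.prod_mul_distrib, ← Real.exp_sum] at h
  have e3 : (∏ i, ζ i ^ (2 * k i)) * Real.exp (2 * ((1 - ∑ i, k i) * B₀ + ∑ i, k i * B i)) =
      Real.exp (2 * ((1 - ∑ i, k i) * B₀)) * ((∏ i, ζ i ^ (2 * k i)) * Real.exp (∑ i, 2 * (k i * B i))) := by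
    have : 2 * ((1 - ∑ i, k i) * B₀ + ∑ i, k i * B i) = 2 * ((1 - ∑ i, k i) * B₀) + ∑ i, 2 * (k i * B i) := by
      rw [← Finset.mul_sum]
      ring
    rw [this, Real.exp_add]
    ring
  rw [e3]
  refine h.trans ?_
  have hs0 : 0 ≤ ∑ i, k i := Finset.sum_nonneg fun i _ => hk i
  have hki : ∀ i, k i ≤ 1 := fun i => (Finset.single_le_sum (fun j _ => hk j) (Finset.mem_univ i)).trans hk1
  have h5 : (1 - ∑ i, k i) * Real.exp B₀ ^ 2 ≤ Real.exp B₀ ^ 2 :=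
    mul_le_of_le_one_left (by positivity) (by linarith)
  have h6 : ∑ i, k i * (ζ i * Real.exp (B i)) ^ 2 ≤ ∑ i, ζ i ^ 2 * Real.exp (B i) ^ 2 := by
    refine Finset.sum_le_sum fun i _ => ?_
    rw [mul_pow]
    exact mul_le_of_le_one_left (by positivity) (hki i)
  linarith

/-- the inequality for a set of good blocks -/
theorem good_ineq (hT : S_TEX) {m : ℕ} (κ : ℝ) (hκ : 4 ≤ κ) (J : ℕ) (S : Finset ℕ) (hS : S ⊆ Finset.range J)
    (k : Fin m → ℝ) (z : Fin m → ℕ → ℂ) (ζ : Fin m → ℝ) (hk : ∀ i, 0 ≤ k i) (hk1 : ∑ i, k i ≤ 1) (hζ : ∀ i, 0 ≤ ζ i)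
    (hg : ∀ l ∈ S, ∀ i, ‖z i l‖ ≤ R9 κ l / 20) :
    ∏ i, ζ i ^ (2 * k i) ≤ Real.exp 4 * (‖∏ l ∈ S, TEx (R9 κ l) (∑ i, (k i : ℂ) * z i l)‖ ^ 2 +
      ∑ i', ζ i' ^ 2 * ‖∏ l ∈ S, TEx (R9 κ l) ((∑ i, (k i : ℂ) * z i l) - z i' l)‖ ^ 2) := by
  -- sizes
  have hQ : ∀ l ∈ S, ‖∑ i, (k i : ℂ) * z i l‖ ≤ R9 κ l / 20 := by
    intro l hl
    calc ‖∑ i, (k i : ℂ) * z i l‖ ≤ ∑ i, ‖(k i : ℂ) * z i l‖ := norm_sum_le _ _
      _ ≤ ∑ i, k i * (R9 κ l / 20) := by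
          refine Finset.sum_le_sum fun i _ => ?_
          rw [norm_mul, Complex.norm_real, Real.norm_eq_abs, abs_of_nonneg (hk i)]
          exact mul_le_mul_of_nonneg_left (hg l hl i) (hk i)
      _ = (∑ i, k i) * (R9 κ l / 20) := by rw [Finset.sum_mul]
      _ ≤ 1 * (R9 κ l / 20) := mul_le_mul_of_nonneg_right hk1 (by positivity)
      _ = R9 κ l / 20 := one_mul _
  have hR2 : ∀ l, 2 ≤ R9 κ l := by
    intro l
    have h1 := R9_ge κ hκ l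
    have hl : (0 : ℝ) ≤ l := Nat.cast_nonneg l
    have h2 : (2 : ℝ) ≤ (R9 κ l : ℝ) := by linarith
    exact_mod_cast h2
  have h0 : ∀ l ∈ S, 0 < ‖TEx (R9 κ l) (∑ i, (k i : ℂ) * z i l)‖ ∧
      (∑ i, (k i : ℂ) * z i l).re - 2 * Real.exp (-(R9 κ l : ℝ) / 2) ≤ Real.log ‖TEx (R9 κ l) (∑ i, (k i : ℂ) * z i l)‖ := by
    intro l hl
    refine log_TEx_ge hT _ (hR2 l) _ ?_
    have := hQ l hl
    have h3 : (0 : ℝ) ≤ R9 κ l := Nat.cast_nonneg _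
    linarith
  have hi : ∀ i', ∀ l ∈ S, 0 < ‖TEx (R9 κ l) ((∑ i, (k i : ℂ) * z i l) - z i' l)‖ ∧
      ((∑ i, (k i : ℂ) * z i l) - z i' l).re - 2 * Real.exp (-(R9 κ l : ℝ) / 2) ≤
        Real.log ‖TEx (R9 κ l) ((∑ i, (k i : ℂ) * z i l) - z i' l)‖ := by
    intro i' l hl
    refine log_TEx_ge hT _ (hR2 l) _ ?_
    have h4 := hQ l hl
    have h5 := hg l hl i'
    have h6 := norm_sub_le (∑ i, (k i : ℂ) * z i l) (z i' l)
    linarith
  -- products as exponentials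
  have hA0 : ‖∏ l ∈ S, TEx (R9 κ l) (∑ i, (k i : ℂ) * z i l)‖ =
      Real.exp (∑ l ∈ S, Real.log ‖TEx (R9 κ l) (∑ i, (k i : ℂ) * z i l)‖) := by
    rw [norm_prod, Real.exp_sum]
    exact Finset.prod_congr rfl fun l hl => (Real.exp_log (h0 l hl).1).symm
  have hAi : ∀ i', ‖∏ l ∈ S, TEx (R9 κ l) ((∑ i, (k i : ℂ) * z i l) - z i' l)‖ =
      Real.exp (∑ l ∈ S, Real.log ‖TEx (R9 κ l) ((∑ i, (k i : ℂ) * z i l) - z i' l)‖) := by
    intro i'
    rw [norm_prod, Real.exp_sum]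
    exact Finset.prod_congr rfl fun l hl => (Real.exp_log (hi i' l hl).1).symm
  have hmain := amgm k ζ (fun i' => ∑ l ∈ S, Real.log ‖TEx (R9 κ l) ((∑ i, (k i : ℂ) * z i l) - z i' l)‖)
    (∑ l ∈ S, Real.log ‖TEx (R9 κ l) (∑ i, (k i : ℂ) * z i l)‖) hk hk1 hζ
  rw [hA0]
  simp only [hAi]
  -- the exponent
  have hexp : -2 ≤ (1 - ∑ i, k i) * (∑ l ∈ S, Real.log ‖TEx (R9 κ l) (∑ i, (k i : ℂ) * z i l)‖) +
      ∑ i', k i' * ∑ l ∈ S, Real.log ‖TEx (R9 κ l) ((∑ i, (k i : ℂ) * z i l) - z i' l)‖ := by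
    have h7 : (1 - ∑ i, k i) * (∑ l ∈ S, Real.log ‖TEx (R9 κ l) (∑ i, (k i : ℂ) * z i l)‖) +
      ∑ i', k i' * ∑ l ∈ S, Real.log ‖TEx (R9 κ l) ((∑ i, (k i : ℂ) * z i l) - z i' l)‖ =
      ∑ l ∈ S, ((1 - ∑ i, k i) * Real.log ‖TEx (R9 κ l) (∑ i, (k i : ℂ) * z i l)‖ +
        ∑ i', k i' * Real.log ‖TEx (R9 κ l) ((∑ i, (k i : ℂ) * z i l) - z i' l)‖) := by
      rw [Finset.sum_add_distrib, ← Finset.mul_sum, Finset.sum_comm]
      congr 1
      exact Finset.sum_congr rfl fun i' _ => by rw [Finset.mul_sum]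
    rw [h7]
    have h8 : ∀ l ∈ S, -(2 * Real.exp (-(R9 κ l : ℝ) / 2)) ≤
        (1 - ∑ i, k i) * Real.log ‖TEx (R9 κ l) (∑ i, (k i : ℂ) * z i l)‖ +
        ∑ i', k i' * Real.log ‖TEx (R9 κ l) ((∑ i, (k i : ℂ) * z i l) - z i' l)‖ := by
      intro l hl
      set e := Real.exp (-(R9 κ l : ℝ) / 2) with he
      set Q := ∑ i, (k i : ℂ) * z i l with hQd
      have h9 : (1 - ∑ i, k i) * (Q.re - 2 * e) ≤ (1 - ∑ i, k i) * Real.log ‖TEx (R9 κ l) Q‖ :=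
        mul_le_mul_of_nonneg_left (h0 l hl).2 (by linarith)
      have h10 : ∑ i', k i' * ((Q - z i' l).re - 2 * e) ≤ ∑ i', k i' * Real.log ‖TEx (R9 κ l) (Q - z i' l)‖ :=
        Finset.sum_le_sum fun i' _ => mul_le_mul_of_nonneg_left (hi i' l hl).2 (hk i')
      have h11 : ∑ i', k i' * ((Q - z i' l).re - 2 * e) = (∑ i, k i) * (Q.re - 2 * e) - Q.re := by
        have h12 : Q.re = ∑ i, k i * (z i l).re := by
          rw [hQd, Complex.re_sum]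
          exact Finset.sum_congr rfl fun i _ => by rw [Complex.re_ofReal_mul]
        have h13 : ∀ i', k i' * ((Q - z i' l).re - 2 * e) = k i' * (Q.re - 2 * e) - k i' * (z i' l).re := by
          intro i'
          rw [Complex.sub_re]
          ring
        rw [Finset.sum_congr rfl fun i' _ => h13 i', Finset.sum_sub_distrib, ← Finset.sum_mul, ← h12]
      rw [h11] at h10
      have h14 : (1 - ∑ i, k i) * (Q.re - 2 * e) = (Q.re - 2 * e) - (∑ i, k i) * (Q.re - 2 * e) := by ring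
      linarith
    have h15 := Finset.sum_le_sum h8
    have h16 := sum_err κ hκ J S hS
    rw [Finset.sum_neg_distrib, ← Finset.mul_sum] at h15
    linarith
  set X := (1 - ∑ i, k i) * (∑ l ∈ S, Real.log ‖TEx (R9 κ l) (∑ i, (k i : ℂ) * z i l)‖) +
      ∑ i', k i' * ∑ l ∈ S, Real.log ‖TEx (R9 κ l) ((∑ i, (k i : ℂ) * z i l) - z i' l)‖ with hX
  have hP0 : 0 ≤ ∏ i, ζ i ^ (2 * k i) := Finset.prod_nonneg fun i _ => Real.rpow_nonneg (hζ i) _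
  have h17 : (∏ i, ζ i ^ (2 * k i)) * Real.exp (-4) ≤ (∏ i, ζ i ^ (2 * k i)) * Real.exp (2 * X) :=
    mul_le_mul_of_nonneg_left (Real.exp_le_exp.mpr (by linarith)) hP0
  have h18 : ∏ i, ζ i ^ (2 * k i) = Real.exp 4 * ((∏ i, ζ i ^ (2 * k i)) * Real.exp (-4)) := by
    have : Real.exp 4 * Real.exp (-4) = 1 := by
      rw [← Real.exp_add]
      norm_num
    calc ∏ i, ζ i ^ (2 * k i) = (∏ i, ζ i ^ (2 * k i)) * (Real.exp 4 * Real.exp (-4)) := by rw [this, mul_one]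
      _ = _ := by ring
  rw [h18]
  exact mul_le_mul_of_nonneg_left (h17.trans hmain) (Real.exp_pos _).le

theorem t_PT2 : S_TEX → S_PT2 := by
  intro hT m κ hκ
  refine ⟨Real.exp 4, Real.one_le_exp (by norm_num), ?_⟩
  intro J k z ζ hk hk1 hζ
  have hterm : ∀ j, 0 ≤ (‖∏ l ∈ Finset.Ico (j + 1) J, TEx (R9 κ l) (∑ i, (k i : ℂ) * z i l)‖ ^ 2 +
          ∑ i', ζ i' ^ 2 * ‖∏ l ∈ Finset.Ico (j + 1) J, TEx (R9 κ l) ((∑ i, (k i : ℂ) * z i l) - z i' l)‖ ^ 2) *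
          ∑ i, (20 * ‖z i j‖ / R9 κ j) ^ (2 * s7 j) := by
    intro j
    have h1 : 0 ≤ ∑ i', ζ i' ^ 2 * ‖∏ l ∈ Finset.Ico (j + 1) J, TEx (R9 κ l) ((∑ i, (k i : ℂ) * z i l) - z i' l)‖ ^ 2 :=
      Finset.sum_nonneg fun i' _ => by positivity
    have h2 : 0 ≤ ∑ i, (20 * ‖z i j‖ / R9 κ j) ^ (2 * s7 j) := Finset.sum_nonneg fun i _ => by positivity
    positivity
  by_cases hall : ∀ l ∈ Finset.range J, ∀ i, ‖z i l‖ ≤ R9 κ l / 20
  · refine (good_ineq hT κ hκ J (Finset.range J) (Finset.Subset.refl _) k z ζ hk hk1 hζ hall).trans ?_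
    refine mul_le_mul_of_nonneg_left ?_ (Real.exp_pos _).le
    exact le_add_of_nonneg_right (Finset.sum_nonneg fun j _ => hterm j)
  · -- the largest bad block
    push Not at hall
    obtain ⟨l₀, hl₀, i₀, hi₀⟩ := hall
    set Bd := (Finset.range J).filter (fun l => ∃ i, (R9 κ l : ℝ) / 20 < ‖z i l‖) with hBd
    have hne : Bd.Nonempty := ⟨l₀, Finset.mem_filter.mpr ⟨hl₀, i₀, hi₀⟩⟩
    set j := Bd.max' hne with hj
    have hjB := Bd.max'_mem hne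
    rw [← hj, hBd, Finset.mem_filter, Finset.mem_range] at hjB
    obtain ⟨hjJ, i₁, hi₁⟩ := hjB
    have hsub : Finset.Ico (j + 1) J ⊆ Finset.range J := by
      intro l hl
      rw [Finset.mem_Ico] at hl
      exact Finset.mem_range.mpr hl.2
    have hg : ∀ l ∈ Finset.Ico (j + 1) J, ∀ i, ‖z i l‖ ≤ R9 κ l / 20 := by
      intro l hl i
      by_contra hcon
      rw [not_le] at hcon
      have hlB : l ∈ Bd := Finset.mem_filter.mpr ⟨hsub hl, i, hcon⟩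
      have h1 := Bd.le_max' l hlB
      rw [Finset.mem_Ico] at hl
      rw [← hj] at h1
      omega
    have hR0 : (0 : ℝ) < R9 κ j := by
      have := R9_pos κ hκ j
      exact_mod_cast this
    have hone : 1 ≤ ∑ i, (20 * ‖z i j‖ / R9 κ j) ^ (2 * s7 j) := by
      have h2 : 1 ≤ 20 * ‖z i₁ j‖ / R9 κ j := by
        rw [le_div_iff₀ hR0]
        linarith
      have h3 : 1 ≤ (20 * ‖z i₁ j‖ / R9 κ j) ^ (2 * s7 j) := one_le_pow₀ h2
      refine h3.trans ?_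
      exact Finset.single_le_sum (f := fun i => (20 * ‖z i j‖ / (R9 κ j : ℝ)) ^ (2 * s7 j)) (fun i _ => by positivity)
        (Finset.mem_univ i₁)
    refine (good_ineq hT κ hκ J (Finset.Ico (j + 1) J) hsub k z ζ hk hk1 hζ hg).trans ?_
    refine mul_le_mul_of_nonneg_left ?_ (Real.exp_pos _).le
    have h4 : 0 ≤ ‖∏ l ∈ Finset.Ico (j + 1) J, TEx (R9 κ l) (∑ i, (k i : ℂ) * z i l)‖ ^ 2 +
          ∑ i', ζ i' ^ 2 * ‖∏ l ∈ Finset.Ico (j + 1) J, TEx (R9 κ l) ((∑ i, (k i : ℂ) * z i l) - z i' l)‖ ^ 2 := by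
      have : 0 ≤ ∑ i', ζ i' ^ 2 * ‖∏ l ∈ Finset.Ico (j + 1) J, TEx (R9 κ l) ((∑ i, (k i : ℂ) * z i l) - z i' l)‖ ^ 2 :=
        Finset.sum_nonneg fun i' _ => by positivity
      positivity
    have h5 := le_mul_of_one_le_right h4 hone
    have h6 := Finset.single_le_sum (f := fun j => (‖∏ l ∈ Finset.Ico (j + 1) J, TEx (R9 κ l) (∑ i, (k i : ℂ) * z i l)‖ ^ 2 +
          ∑ i', ζ i' ^ 2 * ‖∏ l ∈ Finset.Ico (j + 1) J, TEx (R9 κ l) ((∑ i, (k i : ℂ) * z i l) - z i' l)‖ ^ 2) *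
          ∑ i, (20 * ‖z i j‖ / R9 κ j) ^ (2 * s7 j)) (fun j _ => hterm j) (Finset.mem_range.mpr hjJ)
    have h7 : 0 ≤ ‖∏ l ∈ Finset.range J, TEx (R9 κ l) (∑ i, (k i : ℂ) * z i l)‖ ^ 2 := by positivity
    have h8 : 0 ≤ ∑ i', ζ i' ^ 2 * ‖∏ l ∈ Finset.range J, TEx (R9 κ l) ((∑ i, (k i : ℂ) * z i l) - z i' l)‖ ^ 2 :=
      Finset.sum_nonneg fun i' _ => by positivity
    refine h5.trans (h6.trans ?_)
    linarith

end Pool.Agent.Q65.UM
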