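import Pool.Agent.Q62.UM.Stm3

/-!
Project UM (helper62), job T1: a moved curve which meets another one touches it before.
-/

set_option autoImplicit false

namespace Pool.Agent.Q65.UM

open Real Set MeasureTheory Topology Filter
open Pool.Agent.Q62.HU Pool.Agent.Q62.UM

theorem wg_mul (c p q : ℂ) : wg (c * p) (c * q) = Complex.normSq c * wg p q := by
  unfold wg
  rw [Complex.normSq_apply]
  simp only [Complex.mul_re, Complex.mul_im]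
  ring

section
variable {M M' : ℝ → ℂ} {T : ℝ} {k : ℤ} {W : ℂ → ℂ} {J : Set ℝ} {b b' : ℝ → ℂ} {S : ℝ}

theorem strip_open (hJ : IsOpen J) : IsOpen {z : ℂ | z.re ∈ J} := hJ.preimage Complex.continuous_re

theorem W_at (hJ : IsOpen J) (hW : ContDiffOn ℝ 1 W {z | z.re ∈ J}) {z : ℂ} (hz : z.re ∈ J) :
    HasStrictFDerivAt W (fderiv ℝ W z) z :=
  ((hW z hz).contDiffAt ((strip_open hJ).mem_nhds hz)).hasStrictFDerivAt (by norm_num)

theorem M_cont (hM : ∀ t, HasDerivAt M (M' t) t) : Continuous M :=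
  continuous_iff_continuousAt.2 fun t => (hM t).continuousAt

theorem WM_cont (_hJ : IsOpen J) (hM : ∀ t, HasDerivAt M (M' t) t) (hMJ : ∀ t, (M t).re ∈ J)
    (hW : ContDiffOn ℝ 1 W {z | z.re ∈ J}) : Continuous fun t => W (M t) :=
  hW.continuousOn.comp_continuous (M_cont hM) hMJ

theorem W_int (hWp : ∀ z, W (z + 2 * π * Complex.I) = W z) (k : ℤ) (z : ℂ) :
    W (z + k * (2 * π * Complex.I)) = W z :=
  (Function.Periodic.int_mul (c := (2 * π * Complex.I : ℂ)) hWp k) z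

theorem moved_per (hper : ∀ t, M (t + T) = M t + k * (2 * π * Complex.I))
    (hWp : ∀ z, W (z + 2 * π * Complex.I) = W z) (τ s : ℝ) :
    Complex.exp (M (s + T) + τ * W (M (s + T))) = Complex.exp (M s + τ * W (M s)) := by
  rw [hper, W_int hWp, add_right_comm]
  exact Complex.exp_periodic.int_mul k _

theorem open_touch2 (hJ : IsOpen J) (hM : ∀ t, HasDerivAt M (M' t) t) (hMc : Continuous M')
    (hMJ : ∀ t, (M t).re ∈ J) (hW : ContDiffOn ℝ 1 W {z | z.re ∈ J}) (hb : Cur b b' S)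
    {s₀ t₀ τ₀ : ℝ}
    (hw : wg (M' s₀ + τ₀ * fderiv ℝ W (M s₀) (M' s₀)) (b' t₀ / b t₀) ≠ 0)
    (h : Complex.exp (M s₀ + τ₀ * W (M s₀)) = b t₀) :
    ∀ᶠ σ : ℝ in 𝓝 τ₀, ∃ s t, Complex.exp (M s + σ * W (M s)) = b t := by
  set G : (ℝ × ℝ) × ℝ → ℂ × ℝ := fun x =>
    (b x.1.2 - Complex.exp (M x.1.1 + (x.2 : ℂ) * W (M x.1.1)), x.2) with hG
  set x₀ : (ℝ × ℝ) × ℝ := ((s₀, t₀), τ₀) with hx₀
  have hfst : HasStrictFDerivAt (fun x : (ℝ × ℝ) × ℝ => x.1.1)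
      ((ContinuousLinearMap.fst ℝ ℝ ℝ).comp (ContinuousLinearMap.fst ℝ (ℝ × ℝ) ℝ)) x₀ :=
    ((ContinuousLinearMap.fst ℝ ℝ ℝ).comp (ContinuousLinearMap.fst ℝ (ℝ × ℝ) ℝ)).hasStrictFDerivAt
  have hsnd : HasStrictFDerivAt (fun x : (ℝ × ℝ) × ℝ => x.1.2)
      ((ContinuousLinearMap.snd ℝ ℝ ℝ).comp (ContinuousLinearMap.fst ℝ (ℝ × ℝ) ℝ)) x₀ :=
    ((ContinuousLinearMap.snd ℝ ℝ ℝ).comp (ContinuousLinearMap.fst ℝ (ℝ × ℝ) ℝ)).hasStrictFDerivAt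
  have hth : HasStrictFDerivAt (fun x : (ℝ × ℝ) × ℝ => x.2)
      (ContinuousLinearMap.snd ℝ (ℝ × ℝ) ℝ) x₀ :=
    (ContinuousLinearMap.snd ℝ (ℝ × ℝ) ℝ).hasStrictFDerivAt
  have hthc : HasStrictFDerivAt (fun x : (ℝ × ℝ) × ℝ => (x.2 : ℂ))
      (Complex.ofRealCLM.comp (ContinuousLinearMap.snd ℝ (ℝ × ℝ) ℝ)) x₀ :=
    (Complex.ofRealCLM.comp (ContinuousLinearMap.snd ℝ (ℝ × ℝ) ℝ)).hasStrictFDerivAt
  have hMs : HasStrictDerivAt M (M' s₀) s₀ :=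
    hasStrictDerivAt_of_hasDerivAt_of_continuousAt (Eventually.of_forall hM) hMc.continuousAt
  have h1 := hMs.hasStrictFDerivAt.comp x₀ hfst
  have h2 := (hb.strict t₀).hasStrictFDerivAt.comp x₀ hsnd
  have h3 := (W_at hJ hW (hMJ s₀)).comp x₀ h1
  have h4 := (h2.sub (h1.add (hthc.mul h3)).cexp).prodMk hth
  suffices hsurj : _ from by
    have h5 := HasStrictFDerivAt.map_nhds_eq_of_surj h4 hsurj
    have h6 : G x₀ = (0, τ₀) := by
      simp only [hG, hx₀]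
      rw [h, sub_self]
    have h7 : range G ∈ 𝓝 ((0, τ₀) : ℂ × ℝ) := by
      rw [← h6]
      have h8 : map G (𝓝 x₀) = 𝓝 (G x₀) := h5
      rw [← h8]
      exact range_mem_map
    have h9 : Tendsto (fun σ : ℝ => ((0, σ) : ℂ × ℝ)) (𝓝 τ₀) (𝓝 (0, τ₀)) :=
      (Continuous.prodMk_right (0:ℂ)).tendsto τ₀
    filter_upwards [h9 h7] with σ hσ
    obtain ⟨⟨⟨s, t⟩, r⟩, hx⟩ := hσ
    simp only [hG, Prod.mk.injEq] at hx
    obtain ⟨hx1, rfl⟩ := hx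
    exact ⟨s, t, (sub_eq_zero.1 hx1).symm⟩
  · rw [LinearMap.range_eq_top]
    rintro ⟨w, r⟩
    set E : ℂ := Complex.exp (M s₀ + τ₀ * W (M s₀)) with hE
    have hE0 : E ≠ 0 := Complex.exp_ne_zero _
    set P : ℂ := M' s₀ + τ₀ * fderiv ℝ W (M s₀) (M' s₀) with hP
    have hw' : wg (E * P) (b' t₀) ≠ 0 := by
      have e1 : b' t₀ = E * (b' t₀ / b t₀) := by
        rw [← h]
        field_simp
      rw [e1, wg_mul]
      exact mul_ne_zero (Complex.normSq_pos.2 hE0).ne' hw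
    obtain ⟨x, y, hxy⟩ := cramer (W := w + E * (W (M s₀) * r)) one_ne_zero hw'
    refine ⟨((x, y), r), ?_⟩
    refine Prod.ext ?_ rfl
    show y • b' t₀ - E * (x • M' s₀ + ((τ₀:ℂ) * (fderiv ℝ W (M s₀)) (x • M' s₀) +
      W (M s₀) * (r:ℂ))) = w
    rw [map_smul]
    rw [one_mul, hP] at hxy
    simp only [Complex.real_smul] at hxy ⊢
    linear_combination hxy

end

theorem t_T1 : S_T1 := by
  intro M M' T k W J b b' S hJ hT hM hMc hper hMJ hW hWp hb hd τ₁ hτ₁ hmeet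
  have hMC := M_cont hM
  have hWM := WM_cont hJ hM hMJ hW
  set K : Set (ℝ × ℝ) := {x | x ∈ Icc 0 τ₁ ×ˢ Icc 0 T ∧
    Complex.exp (M x.2 + x.1 * W (M x.2)) ∈ range b} with hK
  have hc : Continuous fun x : ℝ × ℝ => Complex.exp (M x.2 + x.1 * W (M x.2)) :=
    Complex.continuous_exp.comp ((hMC.comp continuous_snd).add
      ((Complex.continuous_ofReal.comp continuous_fst).mul (hWM.comp continuous_snd)))
  have hKc : IsCompact K := by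
    have h1 : IsCompact (Icc 0 τ₁ ×ˢ Icc 0 T) := isCompact_Icc.prod isCompact_Icc
    exact h1.inter_right (hb.compact.isClosed.preimage hc)
  have hred : ∀ (τ : ℝ) s, ∃ s' ∈ Icc 0 T, Complex.exp (M s' + τ * W (M s')) =
      Complex.exp (M s + τ * W (M s)) := by
    intro τ s
    have hp : Function.Periodic (fun s => Complex.exp (M s + τ * W (M s))) T :=
      fun s => moved_per hper hWp τ s
    obtain ⟨s', hs', he⟩ := hp.exists_mem_Ico hT s 0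
    rw [zero_add] at hs'
    exact ⟨s', ⟨hs'.1, hs'.2.le⟩, he.symm⟩
  have hKn : K.Nonempty := by
    obtain ⟨s, t, hst⟩ := hmeet
    obtain ⟨s', hs', he⟩ := hred τ₁ s
    exact ⟨(τ₁, s'), ⟨⟨⟨hτ₁.le, le_rfl⟩, hs'⟩, ⟨t, (he.trans hst).symm⟩⟩⟩
  obtain ⟨⟨τ₀, s⟩, ⟨⟨hτ₀, hs⟩, t, ht⟩, hmin⟩ := hKc.exists_isMinOn hKn
    (f := fun x : ℝ × ℝ => x.1) (by fun_prop)
  simp only at ht hτ₀ hs
  have hτ0 : τ₀ ≠ 0 := by
    rintro rfl
    rw [Complex.ofReal_zero, zero_mul, add_zero] at ht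
    exact hd s t ht.symm
  have hpos : 0 < τ₀ := lt_of_le_of_ne hτ₀.1 (Ne.symm hτ0)
  refine ⟨τ₀, hpos, hτ₀.2, s, t, ht.symm, ?_⟩
  by_contra hw
  have h1 := open_touch2 hJ hM hMc hMJ hW hb hw ht.symm
  have h2 : ∀ᶠ σ : ℝ in 𝓝[<] τ₀, (∃ s t, Complex.exp (M s + σ * W (M s)) = b t) ∧ 0 < σ ∧ σ < τ₀ := by
    filter_upwards [nhdsWithin_le_nhds h1, Ioo_mem_nhdsLT hpos] with σ h3 h4
    exact ⟨h3, h4.1, h4.2⟩
  obtain ⟨σ, ⟨s', t', hst⟩, hσ0, hσ1⟩ := h2.exists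
  obtain ⟨s'', hs'', he⟩ := hred σ s'
  have h5 := hmin (show (σ, s'') ∈ K from ⟨⟨⟨hσ0.le, hσ1.le.trans hτ₀.2⟩, hs''⟩,
    ⟨t', (he.trans hst).symm⟩⟩)
  exact absurd hσ1 (not_lt.2 h5)

end Pool.Agent.Q65.UM
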