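import Pool.Agent.Q97.UM.Stm14

set_option autoImplicit false

/-!
Job TEX of project UM8 (helper97): the truncated exponential.
-/

namespace Pool.Agent.Q65.UM

open Complex
open Pool.Agent.Q97.UM

theorem tex_tail (R : ℕ) (y : ℝ) (hy0 : 0 ≤ y) (hy : y ≤ R / 10) :
    y ^ (R + 1) / ((R + 1).factorial : ℝ) * 2 ≤ Real.exp (-(R : ℝ) / 2) * Real.exp (-y) := by
  have h1 := Real.pow_div_factorial_le_exp (10 * y) (by positivity) (R + 1)
  have hR0 : (0 : ℝ) ≤ R := Nat.cast_nonneg R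
  have h2 : Real.exp (10 * y) ≤ Real.exp R := Real.exp_le_exp.mpr (by linarith)
  have h3 : (10 * y) ^ (R + 1) / ((R + 1).factorial : ℝ) = 10 ^ (R + 1) * (y ^ (R + 1) / ((R + 1).factorial : ℝ)) := by
    rw [mul_pow, mul_div_assoc]
  rw [h3] at h1
  have h4 : (0 : ℝ) < 10 ^ (R + 1) := by positivity
  have h5 : y ^ (R + 1) / ((R + 1).factorial : ℝ) ≤ Real.exp R / 10 ^ (R + 1) := by
    rw [le_div_iff₀ h4, mul_comm]
    exact h1.trans h2
  have hE : Real.exp 2 ≤ 8 := by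
    have h6 := Real.exp_one_lt_d9
    have h7 : Real.exp 2 = Real.exp 1 * Real.exp 1 := by rw [← Real.exp_add]; norm_num
    have h8 := Real.exp_pos 1
    rw [h7]
    nlinarith
  have h9 : Real.exp (2 * R) ≤ 8 ^ R := by
    have : Real.exp (2 * R) = Real.exp 2 ^ R := by
      rw [← Real.exp_nat_mul]
      congr 1
      ring
    rw [this]
    exact pow_le_pow_left₀ (Real.exp_pos _).le hE R
  have h10 : (8 : ℝ) ^ R ≤ 10 ^ R := pow_le_pow_left₀ (by norm_num) (by norm_num) R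
  have h11 : Real.exp R / 10 ^ (R + 1) * 2 ≤ Real.exp (-(R : ℝ) / 2) * Real.exp (-y) := by
    have h12 : Real.exp (-(R : ℝ) / 2) * Real.exp (-y) ≥ Real.exp (-(R : ℝ)) := by
      rw [← Real.exp_add]
      exact Real.exp_le_exp.mpr (by linarith)
    refine le_trans ?_ h12
    rw [div_mul_eq_mul_div, div_le_iff₀ h4, pow_succ]
    have h13 : Real.exp R = Real.exp (-(R : ℝ)) * Real.exp (2 * R) := by
      rw [← Real.exp_add]
      congr 1
      ring
    rw [h13]
    have h14 : Real.exp (2 * R) ≤ 10 ^ R := h9.trans h10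
    have h15 := Real.exp_pos (-(R : ℝ))
    have h16 : (0 : ℝ) < 10 ^ R := by positivity
    calc Real.exp (-(R : ℝ)) * Real.exp (2 * R) * 2 = Real.exp (-(R : ℝ)) * (Real.exp (2 * R) * 2) := by ring
      _ ≤ Real.exp (-(R : ℝ)) * (10 ^ R * 10) := by
          refine mul_le_mul_of_nonneg_left ?_ h15.le
          linarith
  calc y ^ (R + 1) / ((R + 1).factorial : ℝ) * 2 ≤ Real.exp R / 10 ^ (R + 1) * 2 :=
        mul_le_mul_of_nonneg_right h5 (by norm_num)
    _ ≤ _ := h11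

theorem t_TEX : S_TEX := by
  intro R z hR
  refine ⟨?_, ?_⟩
  · unfold TEx
    calc ‖∑ r ∈ Finset.range (R + 1), z ^ r / (r.factorial : ℂ)‖
        ≤ ∑ r ∈ Finset.range (R + 1), ‖z ^ r / (r.factorial : ℂ)‖ := norm_sum_le _ _
      _ = ∑ r ∈ Finset.range (R + 1), ‖z‖ ^ r / (r.factorial : ℝ) := by
          refine Finset.sum_congr rfl fun r _ => ?_
          rw [norm_div, norm_pow, Complex.norm_natCast]
      _ ≤ Real.exp ‖z‖ := Real.sum_le_exp_of_nonneg (norm_nonneg z) (R + 1)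
  · intro hz
    have hR1 : (1 : ℝ) ≤ R := by exact_mod_cast hR
    have h1 : ‖z‖ / ((R + 1).succ : ℕ) ≤ 1 / 2 := by
      rw [div_le_iff₀ (by positivity)]
      push_cast
      linarith
    have h2 := Complex.exp_bound' (x := z) (n := R + 1) h1
    rw [norm_sub_rev] at h2
    have h3 := tex_tail R ‖z‖ (norm_nonneg z) hz
    have h4 : Real.exp (-‖z‖) ≤ ‖cexp z‖ := by
      rw [Complex.norm_exp]
      refine Real.exp_le_exp.mpr ?_
      have := Complex.abs_re_le_norm z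
      linarith [neg_abs_le z.re]
    calc ‖TEx R z - cexp z‖ ≤ ‖z‖ ^ (R + 1) / ((R + 1).factorial : ℝ) * 2 := h2
      _ ≤ Real.exp (-(R : ℝ) / 2) * Real.exp (-‖z‖) := h3
      _ ≤ Real.exp (-(R : ℝ) / 2) * ‖cexp z‖ := mul_le_mul_of_nonneg_left h4 (Real.exp_pos _).le

end Pool.Agent.Q65.UM
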